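import Pool.Agent.MP_154433_an.t3s.Basic

/-! An inverse theorem on cyclic groups with polynomially many test functions: definitions and
statements of the rows (note 154433_t3u_h17). -/

set_option autoImplicit false
set_option linter.unusedVariables false

open Filter Topology Function Finset
open scoped BigOperators ComplexConjugate
open Pool.Agent.MP_154433_an.T3S (B1 dd Q ip LG)

noncomputable section

namespace T3u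

/-! ### bounded families and their limits -/

def UU : Ultrafilter ℕ := hyperfilter ℕ

abbrev Fm (Y : ℕ → Type) : Type := ∀ j, Y j → ℂ

abbrev Pr (G P : ℕ → Type) : ℕ → Type := fun j => G j × P j

section Fam

variable {Y : ℕ → Type} [∀ j, Fintype (Y j)]

def Bd {Y : ℕ → Type} (F : Fm Y) : Prop := ∃ C : ℝ, ∀ j y, ‖F j y‖ ≤ C

def Un {α : Type} (f : α → ℂ) : Prop := ∀ x, ‖f x‖ = 1

/-- the limit of the averages -/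
def I (F : Fm Y) : ℂ := limUnder (UU : Filter ℕ) fun j => 𝔼 y, F j y

def Nul (F : Fm Y) : Prop := ∀ ε : ℝ, 0 < ε → ∀ᶠ j in (UU : Filter ℕ), 𝔼 y, ‖F j y‖ ^ 2 ≤ ε

def Cl (S : Set (Fm Y)) : Set (Fm Y) :=
  {F | Bd F ∧ ∀ ε : ℝ, 0 < ε → ∃ F' ∈ S, ∀ᶠ j in (UU : Filter ℕ), 𝔼 y, ‖F j y - F' j y‖ ^ 2 ≤ ε}

/-- closed span -/
def CS (S : Set (Fm Y)) : Set (Fm Y) := Cl (Submodule.span ℂ S : Set (Fm Y))

structure Alg (A : Set (Fm Y)) : Prop where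
  bd : ∀ F ∈ A, Bd F
  const : ∀ c : ℂ, (fun _ _ => c) ∈ A
  add : ∀ F ∈ A, ∀ F' ∈ A, (fun j y => F j y + F' j y) ∈ A
  mul : ∀ F ∈ A, ∀ F' ∈ A, (fun j y => F j y * F' j y) ∈ A
  cj : ∀ F ∈ A, (fun j y => conj (F j y)) ∈ A
  cl : Cl A ⊆ A

/-- a bounded multiplicative system -/
structure Mul1 {Y : ℕ → Type} (S : Set (Fm Y)) : Prop where
  bd : ∀ F ∈ S, Bd F
  one : (fun _ _ => 1) ∈ S
  mul : ∀ F ∈ S, ∀ F' ∈ S, (fun j y => F j y * F' j y) ∈ S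
  cj : ∀ F ∈ S, (fun j y => conj (F j y)) ∈ S

def Ort (F : Fm Y) (A : Set (Fm Y)) : Prop := ∀ c ∈ A, I (fun j y => F j y * c j y) = 0

/-- maps that keep the averages -/
def MP {Y' : ℕ → Type} [∀ j, Fintype (Y' j)] (π : ∀ j, Y' j → Y j) : Prop :=
  ∀ j (φ : Y j → ℂ), 𝔼 y', φ (π j y') = 𝔼 y, φ y

end Fam

/-- calculus of limits -/
structure UA : Prop where
  atTop : (UU : Filter ℕ) ≤ atTop
  tend : ∀ {Y : ℕ → Type} [∀ j, Fintype (Y j)] (F : Fm Y), Bd F →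
    Tendsto (fun j => 𝔼 y, F j y) UU (𝓝 (I F))
  eq_of : ∀ {Y : ℕ → Type} [∀ j, Fintype (Y j)] (F : Fm Y) (c : ℂ),
    Tendsto (fun j => 𝔼 y, F j y) UU (𝓝 c) → I F = c
  congr : ∀ {Y Y' : ℕ → Type} [∀ j, Fintype (Y j)] [∀ j, Fintype (Y' j)] (F : Fm Y) (F' : Fm Y'),
    (∀ᶠ j in (UU : Filter ℕ), 𝔼 y, F j y = 𝔼 y, F' j y) → I F = I F'
  /-- bounded sequences converge -/
  seq : ∀ (a : ℕ → ℂ) (C : ℝ), (∀ j, ‖a j‖ ≤ C) → ∃ c, ‖c‖ ≤ C ∧ Tendsto a UU (𝓝 c)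
  bd_const : ∀ {Y : ℕ → Type} (c : ℂ), Bd (fun _ _ => c : Fm Y)
  bd_add : ∀ {Y : ℕ → Type} (F F' : Fm Y), Bd F → Bd F' → Bd fun j y => F j y + F' j y
  bd_sub : ∀ {Y : ℕ → Type} (F F' : Fm Y), Bd F → Bd F' → Bd fun j y => F j y - F' j y
  bd_mul : ∀ {Y : ℕ → Type} (F F' : Fm Y), Bd F → Bd F' → Bd fun j y => F j y * F' j y
  bd_cj : ∀ {Y : ℕ → Type} (F : Fm Y), Bd F → Bd fun j y => conj (F j y)
  bd_comp : ∀ {Y Y' : ℕ → Type} (F : Fm Y) (π : ∀ j, Y' j → Y j), Bd F → Bd fun j y => F j (π j y)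
  bd_sum : ∀ {Y : ℕ → Type} {ι : Type} (s : Finset ι) (F : ι → Fm Y), (∀ i ∈ s, Bd (F i)) →
    Bd fun j y => ∑ i ∈ s, F i j y
  bd_prod : ∀ {Y : ℕ → Type} {ι : Type} (s : Finset ι) (F : ι → Fm Y), (∀ i ∈ s, Bd (F i)) →
    Bd fun j y => ∏ i ∈ s, F i j y
  bd_exp : ∀ {Y R : ℕ → Type} [∀ j, Fintype (R j)] (F : Fm (Pr Y R)), Bd F →
    Bd fun j y => 𝔼 r, F j (y, r)
  add : ∀ {Y : ℕ → Type} [∀ j, Fintype (Y j)] (F F' : Fm Y), Bd F → Bd F' →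
    I (fun j y => F j y + F' j y) = I F + I F'
  sub : ∀ {Y : ℕ → Type} [∀ j, Fintype (Y j)] (F F' : Fm Y), Bd F → Bd F' →
    I (fun j y => F j y - F' j y) = I F - I F'
  cmul : ∀ {Y : ℕ → Type} [∀ j, Fintype (Y j)] (c : ℂ) (F : Fm Y), Bd F →
    I (fun j y => c * F j y) = c * I F
  sum : ∀ {Y : ℕ → Type} [∀ j, Fintype (Y j)] {ι : Type} (s : Finset ι) (F : ι → Fm Y),
    (∀ i ∈ s, Bd (F i)) → I (fun j y => ∑ i ∈ s, F i j y) = ∑ i ∈ s, I (F i)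
  cj : ∀ {Y : ℕ → Type} [∀ j, Fintype (Y j)] (F : Fm Y), Bd F →
    I (fun j y => conj (F j y)) = conj (I F)
  nul_iff : ∀ {Y : ℕ → Type} [∀ j, Fintype (Y j)] (F : Fm Y), Bd F →
    (Nul F ↔ I (fun j y => F j y * conj (F j y)) = 0)
  nul_mul : ∀ {Y : ℕ → Type} [∀ j, Fintype (Y j)] (F F' : Fm Y), Bd F → Bd F' → Nul F →
    I (fun j y => F j y * F' j y) = 0
  ort_cs : ∀ {Y : ℕ → Type} [∀ j, Fintype (Y j)] (F : Fm Y) (S : Set (Fm Y)), Bd F →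
    (∀ c ∈ S, Bd c) → Ort F S → Ort F (CS S)
  mp_real : ∀ {Y Y' : ℕ → Type} [∀ j, Fintype (Y j)] [∀ j, Fintype (Y' j)] (π : ∀ j, Y' j → Y j),
    MP π → ∀ j (φ : Y j → ℝ), 𝔼 y', φ (π j y') = 𝔼 y, φ y

/-- closed algebras -/
structure UB : Prop where
  gen : ∀ {Y : ℕ → Type} [∀ j, Fintype (Y j)] (S : Set (Fm Y)), Mul1 S → Alg (CS S)
  sub : ∀ {Y : ℕ → Type} [∀ j, Fintype (Y j)] (S : Set (Fm Y)), ∀ F ∈ S, Bd F → F ∈ CS S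
  min : ∀ {Y : ℕ → Type} [∀ j, Fintype (Y j)] (S A : Set (Fm Y)), Alg A → S ⊆ A → CS S ⊆ A
  nul : ∀ {Y : ℕ → Type} [∀ j, Fintype (Y j)] (A : Set (Fm Y)) (F F' : Fm Y), Alg A → Bd F →
    F' ∈ A → Nul (fun j y => F j y - F' j y) → F ∈ A
  cmul : ∀ {Y : ℕ → Type} [∀ j, Fintype (Y j)] (A : Set (Fm Y)) (c : ℂ), Alg A → ∀ F ∈ A,
    (fun j y => c * F j y) ∈ A
  sum : ∀ {Y : ℕ → Type} [∀ j, Fintype (Y j)] (A : Set (Fm Y)) {ι : Type} (s : Finset ι)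
    (F : ι → Fm Y), Alg A → (∀ i ∈ s, F i ∈ A) → (fun j y => ∑ i ∈ s, F i j y) ∈ A
  prod : ∀ {Y : ℕ → Type} [∀ j, Fintype (Y j)] (A : Set (Fm Y)) {ι : Type} (s : Finset ι)
    (F : ι → Fm Y), Alg A → (∀ i ∈ s, F i ∈ A) → (fun j y => ∏ i ∈ s, F i j y) ∈ A
  /-- pull-backs of closed spans -/
  pull : ∀ {Y Y' : ℕ → Type} [∀ j, Fintype (Y j)] [∀ j, Fintype (Y' j)] (π : ∀ j, Y' j → Y j)
    (S : Set (Fm Y)) (A : Set (Fm Y')), MP π → Alg A →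
    (∀ F ∈ S, (fun j y => F j (π j y)) ∈ A) → ∀ F ∈ CS S, (fun j y => F j (π j y)) ∈ A
  /-- the preimage of an algebra under a map that keeps the averages is an algebra -/
  comap : ∀ {Y Y' : ℕ → Type} [∀ j, Fintype (Y j)] [∀ j, Fintype (Y' j)] (π : ∀ j, Y' j → Y j)
    (A : Set (Fm Y')), MP π → Alg A → Alg {F : Fm Y | Bd F ∧ (fun j y => F j (π j y)) ∈ A}
  /-- elements of a closed span are close to finite sums -/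
  fin : ∀ {Y : ℕ → Type} [∀ j, Fintype (Y j)] (S : Set (Fm Y)), ∀ F ∈ CS S, ∀ ε : ℝ, 0 < ε →
    ∃ (n : ℕ) (c : Fin n → ℂ) (g : Fin n → Fm Y), (∀ i, g i ∈ S) ∧
      ∀ᶠ j in (UU : Filter ℕ), 𝔼 y, ‖F j y - ∑ i, c i * g i j y‖ ^ 2 ≤ ε

/-- completeness -/
def SatS : Prop := ∀ {Y : ℕ → Type} [∀ j, Fintype (Y j)] (F : ℕ → Fm Y) (C : ℝ),
  (∀ n j y, ‖F n j y‖ ≤ C) → (∀ ε : ℝ, 0 < ε → ∃ n0, ∀ n n', n0 ≤ n → n0 ≤ n' →
    ∀ᶠ j in (UU : Filter ℕ), 𝔼 y, ‖F n j y - F n' j y‖ ^ 2 ≤ ε) →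
  ∃ L : Fm Y, (∀ j y, ‖L j y‖ ≤ C) ∧ ∀ ε : ℝ, 0 < ε → ∃ n0, ∀ n, n0 ≤ n →
    ∀ᶠ j in (UU : Filter ℕ), 𝔼 y, ‖L j y - F n j y‖ ^ 2 ≤ ε

/-- continuous functional calculus -/
def CfcS : Prop := ∀ {Y : ℕ → Type} [∀ j, Fintype (Y j)] (A : Set (Fm Y)) (Φ : ℂ → ℂ), Alg A →
  Continuous Φ → ∀ F ∈ A, (fun j y => Φ (F j y)) ∈ A

/-- projections -/
structure UC : Prop where
  proj : ∀ {Y : ℕ → Type} [∀ j, Fintype (Y j)] (A : Set (Fm Y)) (F : Fm Y), Alg A → Bd F →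
    ∃ F' ∈ A, Ort (fun j y => F j y - F' j y) A
  dperp : ∀ {Y : ℕ → Type} [∀ j, Fintype (Y j)] (A : Set (Fm Y)) (F : Fm Y), Alg A → Bd F →
    (∀ r : Fm Y, Bd r → Ort r A → I (fun j y => F j y * r j y) = 0) → F ∈ A
  samp : ∀ {Y R : ℕ → Type} [∀ j, Fintype (Y j)] [∀ j, Fintype (R j)] [∀ j, Nonempty (R j)]
    (A : Set (Fm Y)) (F : Fm (Pr Y R)), Alg A → Bd F →
    (∀ r : ∀ j, R j, (fun j y => F j (y, r j)) ∈ A) → (fun j y => 𝔼 r, F j (y, r)) ∈ A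

/-- exhaustion by translates -/
def ExhS : Prop := ∀ {Γ : ℕ → Type} [∀ j, AddCommGroup (Γ j)] [∀ j, Fintype (Γ j)]
  (Θ : Set (Fm Γ)), (∀ θ ∈ Θ, Bd θ) → Cl Θ ⊆ Θ →
  (∀ θ ∈ Θ, ∀ θ' ∈ Θ, (fun j y => θ j y + θ' j y) ∈ Θ) →
  (∀ θ ∈ Θ, ∀ t : ∀ j, Γ j, (fun j y => θ j (y + t j)) ∈ Θ) →
  (∀ θ ∈ Θ, ∀ θ' ∈ Θ, ∀ ψ : ℝ → ℝ, Continuous ψ →
    (fun j y => (ψ ‖θ j y‖ : ℂ) * θ' j y) ∈ Θ) →
  (∃ θ ∈ Θ, ¬ Nul θ) → ∃ θ ∈ Θ, ∀ j, Un (θ j)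

/-! ### dual functions on one finite group -/

section Grp

variable {G : Type} [AddCommGroup G] [Fintype G]

def Spl {n : ℕ} (a : (Fin n → G) → G → ℂ) : Prop :=
  ∃ γ : Fin n → (Fin n → G) → G → ℂ, (∀ i τ, B1 (γ i τ)) ∧
    ∀ τ x, a τ x = ∏ i, γ i (update τ i 0) (x + τ i)

def DS (n : ℕ) (G : Type) [AddCommGroup G] [Fintype G] : Set (G → ℂ) :=
  convexHull ℝ {u | ∃ a : (Fin n → G) → G → ℂ, Spl a ∧ u = fun x => 𝔼 τ, a τ x}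

def vx {n : ℕ} (ε : Fin n → Bool) (τ : Fin n → G) : G := ∑ i, if ε i then τ i else 0

def sg {n : ℕ} (ε : Fin n → Bool) (z : ℂ) : ℂ :=
  if Even (univ.filter fun i => ε i = false).card then z else conj z

/-- the product over the vertices of a cube -/
def cp (n : ℕ) (f : G → ℂ) (τ : Fin n → G) (x : G) : ℂ :=
  ∏ ε : Fin n → Bool, sg ε (f (x + vx ε τ))

/-- polynomial phases -/
def Pol : ℕ → (G → ℂ) → Prop
  | 0, p => ∃ c : ℂ, ‖c‖ = 1 ∧ ∀ x, p x = c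
  | k + 1, p => Un p ∧ ∀ h, Pol k (dd h p)

end Grp

structure SpA : Prop where
  b1 : ∀ {G : Type} [AddCommGroup G] [Fintype G] {n : ℕ} (a : (Fin n → G) → G → ℂ), Spl a →
    ∀ τ, B1 (a τ)
  mul : ∀ {G : Type} [AddCommGroup G] [Fintype G] {n : ℕ} (a a' : (Fin n → G) → G → ℂ), Spl a →
    Spl a' → Spl fun τ x => a τ x * a' τ x
  cj : ∀ {G : Type} [AddCommGroup G] [Fintype G] {n : ℕ} (a : (Fin n → G) → G → ℂ), Spl a →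
    Spl fun τ x => conj (a τ x)
  shift : ∀ {G : Type} [AddCommGroup G] [Fintype G] {n : ℕ} (a : (Fin n → G) → G → ℂ) (c : G),
    Spl a → Spl fun τ x => a τ (x + c)
  /-- one more variable -/
  dcons : ∀ {G : Type} [AddCommGroup G] [Fintype G] {n : ℕ} (g : G → ℂ)
    (ρ : G → (Fin n → G) → G → ℂ), B1 g → (∀ t, Spl (ρ t)) →
    (fun x => 𝔼 t, 𝔼 τ, g (x + t) * ρ t τ x) ∈ DS (n + 1) G
  cube : ∀ {G : Type} [AddCommGroup G] [Fintype G] (n : ℕ) (f : G → ℂ), B1 f →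
    ∃ (f' : G → ℂ) (ρ : G → (Fin n → G) → G → ℂ), B1 f' ∧ (∀ t, Spl (ρ t)) ∧
      Q (n + 1) f = 𝔼 t, 𝔼 τ, ‖𝔼 x, f x * (f' (x + t) * ρ t τ x)‖ ^ 2
  self : ∀ {G : Type} [AddCommGroup G] [Fintype G] (k : ℕ) (g : G → ℂ), B1 g →
    ∃ u ∈ DS (k + 1) G, (Q k g : ℂ) = 𝔼 x, g x * u x

structure DsA : Prop where
  one : ∀ (n : ℕ) (G : Type) [AddCommGroup G] [Fintype G], (fun _ => 1) ∈ DS n G
  b1 : ∀ {G : Type} [AddCommGroup G] [Fintype G] {n : ℕ}, ∀ u ∈ DS n G, B1 u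
  mul : ∀ {G : Type} [AddCommGroup G] [Fintype G] {n : ℕ}, ∀ u ∈ DS n G, ∀ u' ∈ DS n G,
    (fun x => u x * u' x) ∈ DS n G
  cj : ∀ {G : Type} [AddCommGroup G] [Fintype G] {n : ℕ}, ∀ u ∈ DS n G,
    (fun x => conj (u x)) ∈ DS n G
  shift : ∀ {G : Type} [AddCommGroup G] [Fintype G] {n : ℕ} (c : G), ∀ u ∈ DS n G,
    (fun x => u (x + c)) ∈ DS n G
  gcs : ∀ {G : Type} [AddCommGroup G] [Fintype G] (k : ℕ) (g : G → ℂ), ∀ u ∈ DS (k + 1) G,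
    ‖𝔼 x, g x * u x‖ ^ 2 ^ (k + 1) ≤ Q k g
  qshift : ∀ {G : Type} [AddCommGroup G] [Fintype G] (k : ℕ) (g : G → ℂ) (c : G),
    Q k (fun x => g (x + c)) = Q k g
  qmul : ∀ {G : Type} [AddCommGroup G] [Fintype G] (k : ℕ) (g : G → ℂ) (c : ℂ),
    Q k (fun x => c * g x) = ‖c‖ ^ 2 ^ (k + 1) * Q k g

structure CpA : Prop where
  q : ∀ {G : Type} [AddCommGroup G] [Fintype G] (n : ℕ) (f : G → ℂ),
    Q n f = 𝔼 τ, ‖𝔼 x, cp n f τ x‖ ^ 2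
  un : ∀ {G : Type} [AddCommGroup G] (n : ℕ) (f : G → ℂ), Un f → ∀ τ, Un (cp n f τ)
  div : ∀ {G : Type} [AddCommGroup G] (n : ℕ) (f g : G → ℂ) τ x,
    cp n (fun y => f y * conj (g y)) τ x = cp n f τ x * conj (cp n g τ x)
  side : ∀ {G : Type} [AddCommGroup G] [Fintype G] (n : ℕ) (f : G → ℂ) τ t x,
    cp n f (τ + t) x * conj (cp n f τ x) =
      ∏ ε : Fin n → Bool, sg ε (dd (vx ε t) f (x + vx ε τ))
  diag : ∀ {G : Type} [AddCommGroup G] [Fintype G] (n : ℕ) (f : G → ℂ) τ s x,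
    cp n f τ (x + s) * conj (cp n f τ x) = ∏ ε : Fin n → Bool, sg ε (dd s f (x + vx ε τ))
  vadd : ∀ {G : Type} [AddCommGroup G] {n : ℕ} (ε : Fin n → Bool) (τ t : Fin n → G),
    vx ε (τ + t) = vx ε τ + vx ε t

/-! ### the structured algebras -/

section Str

variable (G : ℕ → Type) [∀ j, AddCommGroup (G j)] [∀ j, Fintype (G j)]

def DF (n : ℕ) (P : ℕ → Type) : Set (Fm (Pr G P)) :=
  {D | ∀ j p, (fun x => D j (x, p)) ∈ DS n (G j)}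

/-- functions of order `k` in the first variable -/
def FF (k : ℕ) (P : ℕ → Type) [∀ j, Fintype (P j)] : Set (Fm (Pr G P)) := CS (DF G (k + 1) P)

def F1 (k : ℕ) : Set (Fm G) := CS {D | ∀ j, D j ∈ DS (k + 1) (G j)}

/-- products over the vertices of a cube -/
def VP (n : ℕ) (A : Set (Fm G)) : Set (Fm (Pr G fun j => Fin n → G j)) :=
  {B | ∃ b : (Fin n → Bool) → Fm G, (∀ ε, b ε ∈ A) ∧
    B = fun j z => ∏ ε : Fin n → Bool, b ε j (z.1 + vx ε z.2)}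

variable {G}

def Nq (k : ℕ) {P : ℕ → Type} [∀ j, Fintype (P j)] (F : Fm (Pr G P)) : Prop :=
  Tendsto (fun j => 𝔼 p, Q k fun x => F j (x, p)) UU (𝓝 0)

def IsP (k : ℕ) {P : ℕ → Type} [∀ j, Fintype (P j)] (F F' : Fm (Pr G P)) : Prop :=
  Bd F ∧ F' ∈ FF G k P ∧ Ort (fun j z => F j z - F' j z) (FF G k P)

open Classical in
def Pj (k : ℕ) (F : Fm (Pr G G)) : Fm (Pr G G) :=
  if h : ∃ F', IsP k F F' then h.choose else 0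

def tw (a f : Fm G) : Fm (Pr G G) := fun j z => a j (z.1 + z.2) * f j z.1

def LK (κ : Fm (Pr G G)) (f : Fm G) : Fm G := fun j x => 𝔼 t, κ j (x, t) * f j (x + t)

def LT (κ : Fm (Pr G G)) (g : Fm G) : Fm G := fun j z => 𝔼 t, κ j (z - t, t) * g j (z - t)

def Cop (k : ℕ) (a b f : Fm G) : Fm G := fun j x => 𝔼 s, a j (x + s) * Pj k (tw b f) j (x, s)

def cj (f : Fm G) : Fm G := fun j x => conj (f j x)

/-- a function of rank one over the algebra of order `k` -/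
def Good (k : ℕ) (u : Fm G) : Prop :=
  Bd u ∧ I (fun j x => u j x * conj (u j x)) = 1 ∧ tw (cj u) u ∈ FF G k G

/-- a character over the algebra of order `k` -/
structure Ch (k : ℕ) (φ : Fm G) : Prop where
  un : ∀ j, Un (φ j)
  one : ∀ t : ∀ j, G j, (fun j => dd (t j) (φ j)) ∈ F1 G k
  two : (fun j z => dd z.2 (φ j) z.1) ∈ FF G k G

/-- a finite dimensional spectral piece -/
structure Sp (k : ℕ) (f : Fm G) (d : ℕ) (v : Fin d → Fm G) (Ω : ∀ j, G j → G j → G j → ℂ) :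
    Prop where
  bd : ∀ i, Bd (v i)
  orth : ∀ᶠ j in (UU : Filter ℕ), ∀ i i', 𝔼 x, v i j x * conj (v i' j x) = if i = i' then 1 else 0
  ker : (fun j z => ∑ i, v i j z.1 * conj (v i j (z.1 + z.2))) ∈ FF G k G
  cor : ∃ i, I (fun j x => f j x * conj (v i j x)) ≠ 0
  b1 : ∀ j x s t, ‖Ω j x s t‖ ≤ 1
  k1 : ∀ g : Fm G, Bd g → (fun j z => 𝔼 t, g j (z.1 + t) * Ω j z.1 z.2 t) ∈ FF G k G
  k2 : ∀ g : Fm G, Bd g → (fun j z => 𝔼 s, g j (z.1 + s) * Ω j z.1 s z.2) ∈ FF G k G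
  rep : ∀ i, ∃ g1 g2 : Fm G, Bd g1 ∧ Bd g2 ∧ ∀ᶠ j in (UU : Filter ℕ), ∀ x,
    conj (v i j x) = 𝔼 s, 𝔼 t, g1 j (x + s) * g2 j (x + t) * Ω j x s t

end Str

structure FA : Prop where
  alg : ∀ (G : ℕ → Type) [∀ j, AddCommGroup (G j)] [∀ j, Fintype (G j)] (k : ℕ) (P : ℕ → Type)
    [∀ j, Fintype (P j)], Alg (FF G k P)
  alg1 : ∀ (G : ℕ → Type) [∀ j, AddCommGroup (G j)] [∀ j, Fintype (G j)] (k : ℕ), Alg (F1 G k)
  mem : ∀ {G : ℕ → Type} [∀ j, AddCommGroup (G j)] [∀ j, Fintype (G j)] (k : ℕ) {P : ℕ → Type}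
    [∀ j, Fintype (P j)], ∀ D ∈ DF G (k + 1) P, D ∈ FF G k P
  ort : ∀ {G : ℕ → Type} [∀ j, AddCommGroup (G j)] [∀ j, Fintype (G j)] (k : ℕ) {P : ℕ → Type}
    [∀ j, Fintype (P j)] (F : Fm (Pr G P)), Bd F → (Nq k F ↔ Ort F (FF G k P))
  ort1 : ∀ {G : ℕ → Type} [∀ j, AddCommGroup (G j)] [∀ j, Fintype (G j)] (k : ℕ) (f : Fm G),
    Bd f → (Tendsto (fun j => Q k (f j)) UU (𝓝 0) ↔ Ort f (F1 G k))
  pull : ∀ {G : ℕ → Type} [∀ j, AddCommGroup (G j)] [∀ j, Fintype (G j)] (k : ℕ) {P P' : ℕ → Type}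
    [∀ j, Fintype (P j)] [∀ j, Fintype (P' j)] (c : ∀ j, P' j → G j) (π : ∀ j, P' j → P j), MP π →
    ∀ F ∈ FF G k P, (fun j z => F j (z.1 + c j z.2, π j z.2)) ∈ FF G k P'
  pullP : ∀ {G : ℕ → Type} [∀ j, AddCommGroup (G j)] [∀ j, Fintype (G j)] (k : ℕ)
    {P P' : ℕ → Type} [∀ j, Fintype (P j)] [∀ j, Fintype (P' j)] (c : ∀ j, P' j → G j)
    (π : ∀ j, P' j → P j) (F F' : Fm (Pr G P)), MP π → IsP k F F' →
    IsP k (P := P') (fun j z => F j (z.1 + c j z.2, π j z.2))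
      fun j z => F' j (z.1 + c j z.2, π j z.2)
  avg : ∀ {G : ℕ → Type} [∀ j, AddCommGroup (G j)] [∀ j, Fintype (G j)] (k : ℕ) {P R : ℕ → Type}
    [∀ j, Fintype (P j)] [∀ j, Fintype (R j)] [∀ j, Nonempty (R j)], ∀ F ∈ FF G k (Pr P R),
    (fun j z => 𝔼 r, F j (z.1, (z.2, r))) ∈ FF G k P
  down : ∀ {G : ℕ → Type} [∀ j, AddCommGroup (G j)] [∀ j, Fintype (G j)] (k : ℕ) {P : ℕ → Type}
    [∀ j, Fintype (P j)] [∀ j, Nonempty (P j)], ∀ F ∈ FF G k P,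
    (fun j x => 𝔼 p, F j (x, p)) ∈ F1 G k
  up : ∀ {G : ℕ → Type} [∀ j, AddCommGroup (G j)] [∀ j, Fintype (G j)] (k : ℕ) {P : ℕ → Type}
    [∀ j, Fintype (P j)] [∀ j, Nonempty (P j)] (c : ∀ j, P j → G j), ∀ b ∈ F1 G k,
    (fun j z => b j (z.1 + c j z.2)) ∈ FF G k P
  shift1 : ∀ {G : ℕ → Type} [∀ j, AddCommGroup (G j)] [∀ j, Fintype (G j)] (k : ℕ)
    (t : ∀ j, G j), ∀ b ∈ F1 G k, (fun j x => b j (x + t j)) ∈ F1 G k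
  pj : ∀ {G : ℕ → Type} [∀ j, AddCommGroup (G j)] [∀ j, Fintype (G j)] (k : ℕ) (F : Fm (Pr G G)),
    Bd F → IsP k F (Pj k F)

/-- the operators `Cop` commute with the kernels of order `k` -/
structure CO : Prop where
  bd : ∀ {G : ℕ → Type} [∀ j, AddCommGroup (G j)] [∀ j, Fintype (G j)] (k : ℕ) (a b f : Fm G),
    Bd a → Bd b → Bd f → Bd (Cop k a b f)
  bdK : ∀ {G : ℕ → Type} [∀ j, AddCommGroup (G j)] [∀ j, Fintype (G j)] (κ : Fm (Pr G G))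
    (f : Fm G), Bd κ → Bd f → Bd (LK κ f) ∧ Bd (LT κ f)
  pair : ∀ {G : ℕ → Type} [∀ j, AddCommGroup (G j)] [∀ j, Fintype (G j)] (k : ℕ) (a b f g : Fm G),
    Bd a → Bd b → Bd f → Bd g → I (fun j x => Cop k a b f j x * g j x) =
      I fun j z => Pj k (tw b f) j z * Pj k (tw a g) j z
  tr : ∀ {G : ℕ → Type} [∀ j, AddCommGroup (G j)] [∀ j, Fintype (G j)] (k : ℕ) (a b f g : Fm G),
    Bd a → Bd b → Bd f → Bd g →
    I (fun j x => Cop k a b f j x * g j x) = I fun j x => f j x * Cop k b a g j x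
  adj : ∀ {G : ℕ → Type} [∀ j, AddCommGroup (G j)] [∀ j, Fintype (G j)] (κ : Fm (Pr G G))
    (f g : Fm G), I (fun j x => LK κ f j x * g j x) = I fun j x => f j x * LT κ g j x
  comm : ∀ {G : ℕ → Type} [∀ j, AddCommGroup (G j)] [∀ j, Fintype (G j)] (k : ℕ) (a b f g : Fm G),
    Bd a → Bd b → Bd f → Bd g → ∀ κ ∈ FF G k G,
    I (fun j x => Cop k a b (LK κ f) j x * g j x) = I fun j x => Cop k a b f j x * LT κ g j x

/-- spectral decomposition of a positive kernel -/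
def EigS : Prop := ∀ (G T : Type) [Fintype G] [Nonempty G] [DecidableEq G] [Fintype T]
  (a : T → G → ℂ), ∃ (l : G → ℝ) (e : G → G → ℂ), (∀ i, 0 ≤ l i) ∧
    (∀ i i', 𝔼 x, e i x * conj (e i' x) = if i = i' then 1 else 0) ∧
    ∀ x y, 𝔼 t, conj (a t x) * a t y = ∑ i, (l i : ℂ) * (e i x * conj (e i y))

/-- functional calculus for kernels -/
def KerS : Prop := ∀ {G : ℕ → Type} [∀ j, AddCommGroup (G j)] [∀ j, Fintype (G j)]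
  [∀ j, DecidableEq (G j)] (k : ℕ) (l : ∀ j, G j → ℝ) (e : ∀ j, G j → G j → ℂ),
  (∀ j i, 0 ≤ l j i) →
  (∀ j i i', 𝔼 x, e j i x * conj (e j i' x) = if i = i' then 1 else 0) →
  (∀ j x, ∑ i, l j i * ‖e j i x‖ ^ 2 ≤ 1) →
  (fun j z => ∑ i, (l j i : ℂ) * (e j i z.1 * conj (e j i (z.1 + z.2)))) ∈ FF G k G →
  ∀ q : ℝ → ℝ, Continuous q →
  (fun j z => ∑ i, (l j i * q (l j i) : ℝ) * (e j i z.1 * conj (e j i (z.1 + z.2)))) ∈ FF G k G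

/-- a spectral gap -/
def GapS : Prop := ∀ {G : ℕ → Type} [∀ j, Fintype (G j)] [∀ j, Nonempty (G j)]
  (l : ∀ j, G j → ℝ) (η : ℝ), 0 < η → (∀ j i, 0 ≤ l j i) → (∀ j, ∑ i, l j i ≤ 1) →
  ∃ (d : ℕ) (a b : ℝ) (ι : ∀ j, Fin d → G j), η ≤ a ∧ a < b ∧ b ≤ 2 * η ∧
    ∀ᶠ j in (UU : Filter ℕ), Injective (ι j) ∧ (∀ i, b ≤ l j i ↔ ∃ n, ι j n = i) ∧
      ∀ i, l j i < a ∨ b ≤ l j i

def SpS : Prop := ∀ {G : ℕ → Type} [∀ j, AddCommGroup (G j)] [∀ j, Fintype (G j)] (k : ℕ)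
  (f : Fm G), (∀ j, B1 (f j)) → ¬ Tendsto (fun j => Q (k + 1) (f j)) UU (𝓝 0) →
  ∃ d v Ω, Sp k f d v Ω

/-- the operators commute on the spectral piece -/
def StaS : Prop := ∀ {G : ℕ → Type} [∀ j, AddCommGroup (G j)] [∀ j, Fintype (G j)] (k : ℕ)
  (f : Fm G) d v Ω, Sp k f d v Ω → ∀ (a b a' b' g : Fm G), Bd a → Bd b → Bd a' → Bd b' → Bd g →
  ∀ i, I (fun j x => Cop k a b (Cop k a' b' g) j x * conj (v i j x)) =
    I fun j x => Cop k a' b' (Cop k a b g) j x * conj (v i j x)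

def mat {G : ℕ → Type} [∀ j, AddCommGroup (G j)] [∀ j, Fintype (G j)] (k : ℕ) {d : ℕ}
    (v : Fin d → Fm G) (a b : Fin d) : Matrix (Fin d) (Fin d) ℂ :=
  Matrix.of fun i l => I fun j x => Cop k (v a) (cj (v b)) (v l) j x * conj (v i j x)

def StbS : Prop := ∀ {G : ℕ → Type} [∀ j, AddCommGroup (G j)] [∀ j, Fintype (G j)] (k : ℕ)
  (f : Fm G) d v Ω, Sp k f d v Ω → (∀ a b, (mat k v a b).conjTranspose = mat k v b a) ∧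
    ∀ a b a' b', mat k v a b * mat k v a' b' = mat k v a' b' * mat k v a b

/-- a joint eigenvector -/
def JointS : Prop := ∀ (d : ℕ) (m : Fin d → Fin d → Matrix (Fin d) (Fin d) ℂ) (c : Fin d → ℂ),
  (∀ a b, (m a b).conjTranspose = m b a) → (∀ a b a' b', m a b * m a' b' = m a' b' * m a b) →
  c ≠ 0 → ∃ e : Fin d → ℂ, ∑ i, e i * conj (e i) = 1 ∧ ∑ i, conj (e i) * c i ≠ 0 ∧
    ∀ a b, ∃ μ : ℂ, ∀ i, ∑ l, m a b i l * e l = μ * e i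

def StcS : Prop := ∀ {G : ℕ → Type} [∀ j, AddCommGroup (G j)] [∀ j, Fintype (G j)] (k : ℕ)
  (f : Fm G) d v Ω, Sp k f d v Ω → (∀ a b, (mat k v a b).conjTranspose = mat k v b a) →
  ∀ e : Fin d → ℂ, ∑ i, e i * conj (e i) = 1 →
  (∀ a b, ∃ μ : ℂ, ∀ i, ∑ l, mat k v a b i l * e l = μ * e i) →
  Good k fun j x => ∑ i, e i * v i j x

/-- the structure theorem -/
def StS : Prop := ∀ {G : ℕ → Type} [∀ j, AddCommGroup (G j)] [∀ j, Fintype (G j)] (k : ℕ)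
  (f : Fm G), (∀ j, B1 (f j)) → ¬ Tendsto (fun j => Q (k + 1) (f j)) UU (𝓝 0) →
  ∃ u, Good k u ∧ I (fun j x => f j x * conj (u j x)) ≠ 0

def UniS : Prop := ∀ {G : ℕ → Type} [∀ j, AddCommGroup (G j)] [∀ j, Fintype (G j)] (k : ℕ)
  (u : Fm G), Good k u → ∃ φ b : Fm G, Ch k φ ∧ b ∈ F1 G k ∧ ∀ j x, u j x = φ j x * b j x

def TypS : Prop := ∀ {G : ℕ → Type} [∀ j, AddCommGroup (G j)] [∀ j, Fintype (G j)] (k : ℕ)
  (φ : Fm G), Ch k φ → ∃ θ : Fm fun j => Fin (k + 1) → G j, (∀ j, Un (θ j)) ∧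
    (fun j z => conj (cp (k + 1) (φ j) z.2 z.1) * θ j z.2) ∈ CS (VP G (k + 1) (F1 G k))

structure VpA : Prop where
  mul1 : ∀ {G : ℕ → Type} [∀ j, AddCommGroup (G j)] (n : ℕ) (A : Set (Fm G)), Mul1 A →
    Mul1 (VP G n A)
  mono : ∀ {G : ℕ → Type} [∀ j, AddCommGroup (G j)] [∀ j, Fintype (G j)] (n : ℕ)
    (A S : Set (Fm G)), Mul1 S → A ⊆ CS S → CS (VP G n A) ⊆ CS (VP G n S)

/-! ### polynomial phases and nets -/

structure PoA : Prop where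
  un : ∀ {G : Type} [AddCommGroup G] [Fintype G] (k : ℕ) (p : G → ℂ), Pol k p → Un p
  const : ∀ {G : Type} [AddCommGroup G] [Fintype G] (k : ℕ) (c : ℂ), ‖c‖ = 1 →
    Pol k fun _ : G => c
  mul : ∀ {G : Type} [AddCommGroup G] [Fintype G] (k : ℕ) (p p' : G → ℂ), Pol k p → Pol k p' →
    Pol k fun x => p x * p' x
  cj : ∀ {G : Type} [AddCommGroup G] [Fintype G] (k : ℕ) (p : G → ℂ), Pol k p →
    Pol k fun x => conj (p x)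
  shift : ∀ {G : Type} [AddCommGroup G] [Fintype G] (k : ℕ) (p : G → ℂ) (c : G), Pol k p →
    Pol k fun x => p (x + c)
  char : ∀ {G : Type} [AddCommGroup G] [Fintype G] (k : ℕ) (χ : AddChar G ℂ), Pol (k + 1) χ
  sep : ∀ k : ℕ, ∃ c : ℝ, 0 < c ∧ ∀ (G : Type) [AddCommGroup G] [Fintype G] (p : G → ℂ),
    Pol k p → 1 - c < ‖𝔼 x, p x‖ → ∃ c0 : ℂ, ∀ x, p x = c0

/-- integration of a symmetric cocycle modulo constants -/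
def IntS : Prop := ∀ (k : ℕ) (G : Type) [AddCommGroup G] [Fintype G] (w : G → G → ℂ),
  (∀ g, Pol k (w g)) → (∀ g g', ∃ c : ℂ, ∀ x, w (g + g') x = c * (w g (x + g') * w g' x)) →
  (∀ g g' x, w g (x + g') * w g' x = w g' (x + g) * w g x) →
  ∃ p : G → ℂ, Pol (k + 1) p ∧ ∀ g, ∃ c : ℂ, ‖c‖ = 1 ∧ ∀ x, dd g p x = c * w g x

/-- a cocycle modulo constants that is close to the derivatives of one function is symmetric -/
def SymS : Prop := ∀ (G : Type) [AddCommGroup G] [Fintype G] (w : G → G → ℂ) (φ : G → ℂ),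
  (∀ g, Un (w g)) → Un φ → (∀ g g', ∃ c : ℂ, ∀ x, w (g + g') x = c * (w g (x + g') * w g' x)) →
  (∀ g, 𝔼 x, ‖dd g φ x - w g x‖ ^ 2 ≤ 1 / 100) →
  ∀ g g' x, w g (x + g') * w g' x = w g' (x + g) * w g x

def P99S : Prop := ∀ k : ℕ, ∃ C : ℝ, 0 ≤ C ∧ ∀ (G : Type) [AddCommGroup G] [Fintype G]
  (φ : G → ℂ) (ε : ℝ), Un φ → 1 - ε ≤ Q k φ → ∃ p, Pol k p ∧ 𝔼 x, ‖φ x - p x‖ ^ 2 ≤ C * ε

/-- generated by `d` elements -/
def Rk (d : ℕ) (G : Type) [AddCommGroup G] : Prop :=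
  ∃ e : Fin d → G, AddSubgroup.closure (Set.range e) = ⊤

def CntS : Prop := ∀ k d : ℕ, ∃ C : ℕ, ∀ (G : Type) [AddCommGroup G] [Fintype G], Rk d G →
  ∃ S : Finset (G → ℂ), S.card ≤ Fintype.card G ^ C ∧ (∀ p ∈ S, Un p) ∧
    ∀ p, Pol k p → ∃ p0 ∈ S, ∃ c : ℂ, ‖c‖ = 1 ∧ ∀ x, p x = c * p0 x

def RepS : Prop := ∀ k : ℕ, ∃ C : ℝ, 0 ≤ C ∧ ∀ (G : Type) [AddCommGroup G] [Fintype G]
  (φ φ' : G → ℂ) (θ θ' : (Fin k → G) → ℂ) (B : G × (Fin k → G) → ℂ) (ε : ℝ),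
  Un φ → Un φ' → Un θ → Un θ' →
  𝔼 z : G × (Fin k → G), ‖conj (cp k φ z.2 z.1) * θ z.2 - B z‖ ^ 2 ≤ ε →
  𝔼 z : G × (Fin k → G), ‖conj (cp k φ' z.2 z.1) * θ' z.2 - B z‖ ^ 2 ≤ ε →
  ∃ p, Pol k p ∧ 𝔼 x, ‖φ x - φ' x * p x‖ ^ 2 ≤ C * ε

section Nets

variable (Γ : ℕ → Type) [∀ N, AddCommGroup (Γ N)] [∀ N, Fintype (Γ N)]

structure NetP (Net : ℕ → ∀ N : ℕ, Finset (Γ N → ℂ)) : Prop where
  size : ∀ m, ∃ C : ℝ, 0 ≤ C ∧ ∀ N, ((Net m N).card : ℝ) ≤ Real.exp (C * LG (Γ N))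
  un : ∀ m N, ∀ v ∈ Net m N, Un v
  one : ∀ m N, (fun _ => 1) ∈ Net m N
  mono : ∀ m m' N, m ≤ m' → Net m N ⊆ Net m' N
  mul : ∀ m N, ∀ v ∈ Net m N, ∀ v' ∈ Net m N, (fun x => v x * v' x) ∈ Net (m + 1) N
  cj : ∀ m N, ∀ v ∈ Net m N, (fun x => conj (v x)) ∈ Net (m + 1) N
  rep : ∀ k : ℕ, ∃ C : ℝ, 0 ≤ C ∧ ∀ (n : ℕ) (c : Fin n → ℂ) (m : ℕ) (ε : ℝ), 0 < ε → ∃ m', ∀ N
    (b : Fin n → (Fin k → Bool) → Γ N → ℂ) (φ : Γ N → ℂ) (θ : (Fin k → Γ N) → ℂ),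
    (∀ i e, b i e ∈ Net m N) → Un φ → Un θ →
    𝔼 z : Γ N × (Fin k → Γ N), ‖conj (cp k φ z.2 z.1) * θ z.2 -
      ∑ i, c i * ∏ e : Fin k → Bool, b i e (z.1 + vx e z.2)‖ ^ 2 ≤ ε →
    ∃ v ∈ Net m' N, ∃ ζ : ℂ, ‖ζ‖ = 1 ∧ 𝔼 x, ‖φ x - ζ * v x‖ ^ 2 ≤ C * ε

/-- families that stay in one level of the nets -/
def NF (Net : ℕ → ∀ N : ℕ, Finset (Γ N → ℂ)) (N : ℕ → ℕ) : Set (Fm fun j => Γ (N j)) :=
  {v | ∃ m, ∀ j, v j ∈ Net m (N j)}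

end Nets

def NetS : Prop := ∀ (d : ℕ) (Γ : ℕ → Type) [∀ N, AddCommGroup (Γ N)] [∀ N, Fintype (Γ N)],
  (∀ N, Rk d (Γ N)) → ∃ Net, NetP Γ Net

def EntS : Prop := ∀ (Γ : ℕ → Type) [∀ N, AddCommGroup (Γ N)] [∀ N, Fintype (Γ N)] Net,
  NetP Γ Net → ∀ N : ℕ → ℕ, Mul1 (NF Γ Net N) ∧ ∀ (k : ℕ) (φ : Fm fun j => Γ (N j))
  (θ : Fm fun j => Fin k → Γ (N j)), (∀ j, Un (φ j)) → (∀ j, Un (θ j)) →
  (fun j z => conj (cp k (φ j) z.2 z.1) * θ j z.2) ∈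
    CS (VP (fun j => Γ (N j)) k (NF Γ Net N)) → φ ∈ CS (NF Γ Net N)

def IndS : Prop := ∀ (Γ : ℕ → Type) [∀ N, AddCommGroup (Γ N)] [∀ N, Fintype (Γ N)] Net,
  NetP Γ Net → ∀ (N : ℕ → ℕ) (k : ℕ) (f : Fm fun j => Γ (N j)), Bd f → Ort f (NF Γ Net N) →
  Tendsto (fun j => Q k (f j)) UU (𝓝 0)

/-- the inverse theorem with polynomially many test functions on groups of bounded rank -/
def InvG : Prop := ∀ (d : ℕ) (Γ : ℕ → Type) [∀ N, AddCommGroup (Γ N)] [∀ N, Fintype (Γ N)],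
  (∀ N, Rk d (Γ N)) → ∀ (k : ℕ) (δ : ℝ), 0 < δ → ∃ c C : ℝ, 0 < c ∧ 0 ≤ C ∧ ∀ N : ℕ,
  ∃ 𝓕 : Finset (Γ N → ℂ), (∀ φ ∈ 𝓕, B1 φ) ∧ (𝓕.card : ℝ) ≤ Real.exp (C * LG (Γ N)) ∧
    ∀ f : Γ N → ℂ, B1 f → δ ≤ Q k f → ∃ φ ∈ 𝓕, c ≤ ‖ip f φ‖

/-- the cyclic case -/
def InvZ : Prop := ∀ (k : ℕ) (δ : ℝ), 0 < δ → ∃ c C : ℝ, 0 < c ∧ 0 ≤ C ∧ ∀ (N : ℕ) [NeZero N],
  ∃ 𝓕 : Finset (ZMod N → ℂ), (∀ φ ∈ 𝓕, B1 φ) ∧ (𝓕.card : ℝ) ≤ Real.exp (C * LG (ZMod N)) ∧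
    ∀ f : ZMod N → ℂ, B1 f → δ ≤ Q k f → ∃ φ ∈ 𝓕, c ≤ ‖ip f φ‖

/-! ### rows -/

def UBR : Prop := UA → UB
def SatR : Prop := UA → SatS
def CfcR : Prop := UA → UB → CfcS
def UCR : Prop := UA → UB → SatS → CfcS → UC
def ExhR : Prop := UA → SatS → ExhS
def DsR : Prop := SpA → DsA
def FAR : Prop := UA → UB → UC → SpA → DsA → FA
def COR : Prop := UA → UB → FA → CO
def KerR : Prop := UA → UB → FA → KerS
def GapR : Prop := GapS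
def SpR : Prop := UA → UB → SpA → FA → EigS → KerS → GapS → SpS
def StaR : Prop := UA → FA → CO → StaS
def StbR : Prop := UA → UB → FA → CO → StaS → StbS
def StcR : Prop := UA → UB → FA → CO → StcS
def StR : Prop := UA → SpS → StbS → JointS → StcS → StS
def UniR : Prop := UA → UB → CfcS → FA → ExhS → UniS
def TypR : Prop := UA → UB → CfcS → UC → FA → CpA → VpA → ExhS → TypS
def VpR : Prop := UA → UB → VpA
def IntR : Prop := PoA → IntS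
def P99R : Prop := PoA → IntS → SymS → P99S
def CntR : Prop := PoA → CntS
def RepR : Prop := CpA → P99S → RepS
def NetR : Prop := RepS → CntS → NetS
def EntR : Prop := UA → UB → EntS
def IndR : Prop := UA → UB → UC → DsA → FA → VpA → StS → UniS → TypS → EntS → IndS
def InvR : Prop := UA → NetS → IndS → InvG
def CycR : Prop := InvG → InvZ

theorem invG_of (ua : UA) (ub : UBR) (sat : SatR) (cfc : CfcR) (uc : UCR) (exh : ExhR) (sa : SpA)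
    (ds : DsR) (cp : CpA) (fa : FAR) (co : COR) (eig : EigS) (ker : KerR) (gap : GapR) (sp : SpR)
    (sta : StaR) (stb : StbR) (joint : JointS) (stc : StcR) (st : StR) (uni : UniR) (typ : TypR)
    (vp : VpR) (po : PoA) (int : IntR) (sym : SymS) (p99 : P99R) (cnt : CntR) (rep : RepR) (net : NetR)
    (ent : EntR) (ind : IndR) (inv : InvR) : InvG :=
  have b := ub ua
  have s : SatS := sat ua
  have c : CfcS := cfc ua b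
  have u := uc ua b s c
  have e : ExhS := exh ua s
  have f := fa ua b u sa (ds sa)
  have o := co ua b f
  have v := vp ua b
  inv ua (net (rep cp (p99 po (int po) sym)) (cnt po))
    (ind ua b u (ds sa) f v
      (st ua (sp ua b sa f eig (ker ua b f) gap) (stb ua b f o (sta ua f o)) joint (stc ua b f o))
      (uni ua b c f e) (typ ua b c u f cp v e) (ent ua b))

end T3u

end
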