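import Pool.Agent.MP_154433_an.t3u.Spec

/-! The operators `Cop` commute with the kernels of order `k`. -/

set_option autoImplicit false
set_option linter.unusedVariables false

open Filter Topology Function Finset
open scoped BigOperators ComplexConjugate

noncomputable section

namespace T3u

namespace CO

theorem e2 {α β : Type} [Fintype α] [Fintype β] (φ : α × β → ℂ) :
    𝔼 z, φ z = 𝔼 a, 𝔼 b, φ (a, b) := by rw [← univ_product_univ, expect_product]

theorem sh {H : Type} [AddCommGroup H] [Fintype H] (φ : H → ℂ) (t : H) :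
    𝔼 s, φ (s - t) = 𝔼 s, φ s := Fintype.expect_equiv (Equiv.subRight t) _ _ fun _ => rfl

variable {G : ℕ → Type} [∀ j, AddCommGroup (G j)] [∀ j, Fintype (G j)] (u : UA) (fa : FA) (k : ℕ)

theorem mp1 : MP (Y' := Pr G G) fun j p => p.1 := fun j φ => by
  rw [e2]
  simp only [expect_const univ_nonempty]

theorem mp2 : MP (Y' := Pr G G) fun j p => p.2 := fun j φ => by
  rw [e2]
  simp only [expect_const univ_nonempty]

theorem mp3 : MP (Y' := Pr G G) fun j p => p.1 - p.2 := fun j φ => by
  rw [e2, expect_comm]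
  simp only [sh φ, expect_const univ_nonempty]

include u

theorem bdtw {a f : Fm G} (ha : Bd a) (hf : Bd f) : Bd (tw a f) :=
  u.bd_mul _ _ (u.bd_comp a (fun j (z : G j × G j) => z.1 + z.2) ha)
    (u.bd_comp f (fun j (z : G j × G j) => z.1) hf)

theorem bdk {κ : Fm (Pr G G)} {f : Fm G} (hκ : Bd κ) (hf : Bd f) : Bd (LK κ f) ∧ Bd (LT κ f) :=
  ⟨u.bd_exp (fun j z => κ j z * f j (z.1 + z.2))
      (u.bd_mul _ _ hκ (u.bd_comp f (fun j (z : G j × G j) => z.1 + z.2) hf)),
    u.bd_exp (fun j z => κ j (z.1 - z.2, z.2) * f j (z.1 - z.2))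
      (u.bd_mul _ _ (u.bd_comp κ (fun j (z : G j × G j) => (z.1 - z.2, z.2)) hκ)
        (u.bd_comp f (fun j (z : G j × G j) => z.1 - z.2) hf))⟩

theorem ad (κ : Fm (Pr G G)) (f g : Fm G) :
    I (fun j x => LK κ f j x * g j x) = I fun j x => f j x * LT κ g j x := by
  refine u.congr _ _ (Eventually.of_forall fun j => ?_)
  simp only [LK, LT, expect_mul, mul_expect]
  rw [expect_comm]
  refine Eq.trans (expect_congr rfl fun t _ => ?_) (expect_comm _ _ _)
  rw [← sh _ t]
  refine expect_congr rfl fun x _ => ?_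
  rw [sub_add_cancel]
  ring

include fa

theorem swap {P : ℕ → Type} [∀ j, Fintype (P j)] {F F' c : Fm (Pr G P)} (h : IsP k F F')
    (hc : c ∈ FF G k P) : I (fun j z => F j z * c j z) = I fun j z => F' j z * c j z := by
  have b := (fa.alg G k P).bd
  rw [← sub_eq_zero, ← u.sub _ _ (u.bd_mul _ _ h.1 (b _ hc)) (u.bd_mul _ _ (b _ h.2.1) (b _ hc)),
    ← h.2.2 c hc]
  simp only [sub_mul]

theorem bdc {a b f : Fm G} (ha : Bd a) (hb : Bd b) (hf : Bd f) : Bd (Cop k a b f) :=
  u.bd_exp (fun j z => a j (z.1 + z.2) * Pj k (tw b f) j z)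
    (u.bd_mul _ _ (u.bd_comp a (fun j (z : G j × G j) => z.1 + z.2) ha)
      ((fa.alg G k G).bd _ (fa.pj k _ (bdtw u hb hf)).2.1))

theorem pr {a b f g : Fm G} (ha : Bd a) (hb : Bd b) (hf : Bd f) (hg : Bd g) :
    I (fun j x => Cop k a b f j x * g j x) =
      I fun j z => Pj k (tw b f) j z * Pj k (tw a g) j z := by
  have h := swap u fa k (fa.pj k _ (bdtw u ha hg)) (fa.pj k _ (bdtw u hb hf)).2.1
  simp only [mul_comm (Pj k (tw a g) _ _)] at h
  rw [← h]
  refine u.congr _ _ (Eventually.of_forall fun j => ?_)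
  rw [e2]
  simp only [Cop, tw, expect_mul]
  exact expect_congr rfl fun x _ => expect_congr rfl fun s _ => by ring

theorem tr' {a b f g : Fm G} (ha : Bd a) (hb : Bd b) (hf : Bd f) (hg : Bd g) :
    I (fun j x => Cop k a b f j x * g j x) = I fun j x => f j x * Cop k b a g j x := by
  have h := pr u fa k hb ha hg hf
  simp only [mul_comm (Cop k b a g _ _), mul_comm (Pj k (tw a g) _ _)] at h
  rw [pr u fa k ha hb hf hg, h]

theorem cm {a b f g : Fm G} (ha : Bd a) (hb : Bd b) (hf : Bd f) (hg : Bd g) {κ : Fm (Pr G G)}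
    (hκ : κ ∈ FF G k G) : I (fun j x => Cop k a b (LK κ f) j x * g j x) =
      I fun j x => Cop k a b f j x * LT κ g j x := by
  have A := fa.alg G k (Pr G G)
  have p1 := fa.pullP k (P' := Pr G G) (fun j p => p.2) _ _ _ mp3 (fa.pj k _ (bdtw u hb hf))
  have p2 := fa.pullP k (P' := Pr G G) (fun j p => 0) _ _ _ mp1 (fa.pj k _ (bdtw u ha hg))
  have p3 := fa.pull k (P' := Pr G G) (fun j p => 0) _ mp2 κ hκ
  have h1 := swap u fa k p1 (A.mul _ p3 _ p2.2.1)
  have h2 := swap u fa k p2 (A.mul _ p3 _ p1.2.1)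
  rw [tr' u fa k ha hb (bdk u ((fa.alg G k G).bd _ hκ) hf).1 hg, ← ad u]
  refine Eq.trans (u.congr _ _ (Eventually.of_forall fun j => ?_)) (h1.trans (Eq.trans
    (congrArg I (funext fun j => funext fun z => by ring))
    (h2.symm.trans (u.congr _ _ (Eventually.of_forall fun j => ?_)))))
  · rw [e2]
    refine expect_congr rfl fun x _ => ?_
    rw [e2, mul_comm]
    simp only [LK, Cop, tw, expect_mul_expect, add_zero, add_add_sub_cancel]
    exact expect_congr rfl fun s _ => expect_congr rfl fun t _ => by ring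
  · rw [e2]
    refine expect_congr rfl fun x _ => ?_
    rw [e2, expect_comm]
    simp only [LK, Cop, tw, expect_mul, mul_expect, add_zero]
    refine expect_congr rfl fun t _ => ?_
    rw [← sh (fun s => κ j (x, t) * (a j (x + t + s) * _) * g j x) t]
    refine expect_congr rfl fun s _ => ?_
    rw [add_add_sub_cancel]
    ring

end CO

open CO in
theorem co : COR := fun u _ fa =>
  { bd := fun k _ _ _ => bdc u fa k
    bdK := fun _ _ => bdk u
    pair := fun k _ _ _ _ => pr u fa k
    tr := fun k _ _ _ _ => tr' u fa k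
    adj := ad u
    comm := fun k _ _ _ _ ha hb hf hg _ => cm u fa k ha hb hf hg }

end T3u

end
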