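import Pool.Agent.MP_154433_an.t3u.Spec

/-! Row Cnt: polynomially many polynomial phases up to constants on groups of bounded rank. -/

set_option autoImplicit false

open Finset
open scoped BigOperators ComplexConjugate
open Pool.Agent.MP_154433_an.T3S (dd)

noncomputable section

namespace T3u

namespace Cnt

variable {G : Type} [AddCommGroup G] [Fintype G]

lemma mul_cj {z : ℂ} (h : ‖z‖ = 1) : z * conj z = 1 := by
  rw [Complex.mul_conj, Complex.normSq_eq_norm_sq, h]; simp

/-- the product of a multiplicative derivative over the group is one -/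
lemma prod_dd (p : G → ℂ) (hp : Un p) (h : G) : ∏ x, dd h p x = 1 := by
  have h1 : ∏ x, p (x + h) = ∏ x, p x := Equiv.prod_comp (Equiv.addRight h) p
  have h2 : ∏ x, dd h p x = (∏ x, p (x + h)) * ∏ x, conj (p x) := by
    rw [← Finset.prod_mul_distrib]; rfl
  rw [h2, h1, ← Finset.prod_mul_distrib]
  exact Finset.prod_eq_one fun x _ => mul_cj (hp x)

omit [Fintype G] in
/-- the derivatives along generators determine a unimodular function up to a constant -/
lemma det {d : ℕ} (e : Fin d → G) (he : AddSubgroup.closure (Set.range e) = ⊤) (p q : G → ℂ)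
    (hp : Un p) (hq : Un q) (h : ∀ i, dd (e i) q = dd (e i) p) :
    ∃ c : ℂ, ‖c‖ = 1 ∧ ∀ x, p x = c * q x := by
  let r : G → ℂ := fun x => p x * conj (q x)
  let H : AddSubgroup G :=
    { carrier := {t | ∀ x, r (x + t) = r x}
      zero_mem' := fun x => by rw [add_zero]
      add_mem' := fun {a b} ha hb x => by rw [← add_assoc, hb, ha]
      neg_mem' := fun {a} ha x => by
        have := ha (x + -a)
        rw [neg_add_cancel_right] at this
        exact this.symm }
  have hle : AddSubgroup.closure (Set.range e) ≤ H := by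
    rw [AddSubgroup.closure_le]
    rintro _ ⟨i, rfl⟩ x
    have h0 : q (x + e i) * conj (q x) = p (x + e i) * conj (p x) := congrFun (h i) x
    have h1 := mul_cj (hp x)
    have h2 := mul_cj (hq (x + e i))
    show p (x + e i) * conj (q (x + e i)) = p x * conj (q x)
    calc p (x + e i) * conj (q (x + e i))
        = (p x * conj (p x)) * (p (x + e i) * conj (q (x + e i))) := by rw [h1, one_mul]
      _ = p x * conj (q (x + e i)) * (p (x + e i) * conj (p x)) := by ring
      _ = p x * conj (q (x + e i)) * (q (x + e i) * conj (q x)) := by rw [h0]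
      _ = (q (x + e i) * conj (q (x + e i))) * (p x * conj (q x)) := by ring
      _ = p x * conj (q x) := by rw [h2, one_mul]
  refine ⟨r 0, ?_, fun x => ?_⟩
  · show ‖p 0 * conj (q 0)‖ = 1
    rw [norm_mul, Complex.norm_conj, hp 0, hq 0, one_mul]
  · have hx : x ∈ H := hle (he ▸ AddSubgroup.mem_top x)
    have h3 : r (0 + x) = r 0 := hx 0
    rw [zero_add] at h3
    rw [← h3]
    show p x = p x * conj (q x) * q x
    rw [mul_assoc, mul_comm (conj (q x)), mul_cj (hq x), mul_one]

open Classical in
/-- constant multiples with product one -/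
def ext (S : Finset (G → ℂ)) : Finset (G → ℂ) :=
  S.biUnion fun w => ((Polynomial.nthRoots (Fintype.card G) (∏ x, w x)⁻¹).toFinset).image
    fun c x => c * w x

omit [AddCommGroup G] in
lemma card_ext (S : Finset (G → ℂ)) : (ext S).card ≤ S.card * Fintype.card G := by
  classical
  unfold ext
  refine Finset.card_biUnion_le_card_mul _ _ _ fun w _ => ?_
  exact Finset.card_image_le.trans
    ((Multiset.toFinset_card_le _).trans (Polynomial.card_nthRoots _ _))

lemma mem_ext (S : Finset (G → ℂ)) (w v : G → ℂ) (hw : w ∈ S) (c : ℂ) (hv : ∀ x, v x = c * w x)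
    (h1 : ∏ x, v x = 1) : v ∈ ext S := by
  classical
  unfold ext
  refine Finset.mem_biUnion.2 ⟨w, hw, Finset.mem_image.2 ⟨c, ?_, (funext hv).symm⟩⟩
  rw [Multiset.mem_toFinset, Polynomial.mem_nthRoots Fintype.card_pos]
  have h2 : c ^ Fintype.card G * ∏ x, w x = 1 := by
    rw [← h1, Finset.prod_congr rfl fun x _ => hv x, Finset.prod_mul_distrib, Finset.prod_const,
      Finset.card_univ]
  exact eq_inv_of_mul_eq_one_left h2

open Classical in
/-- a unimodular function with given derivatives -/
def prim {d : ℕ} (e : Fin d → G) (ws : Fin d → G → ℂ) : G → ℂ :=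
  if h : ∃ q : G → ℂ, Un q ∧ ∀ i, dd (e i) q = ws i then h.choose else fun _ => 1

omit [Fintype G] in
lemma prim_un {d : ℕ} (e : Fin d → G) (ws : Fin d → G → ℂ) : Un (prim e ws) := by
  unfold prim
  split_ifs with h
  · exact h.choose_spec.1
  · intro x; simp

omit [Fintype G] in
lemma prim_dd {d : ℕ} (e : Fin d → G) (p : G → ℂ) (hp : Un p) (i : Fin d) :
    dd (e i) (prim e fun i => dd (e i) p) = dd (e i) p := by
  have h : ∃ q : G → ℂ, Un q ∧ ∀ i, dd (e i) q = dd (e i) p := ⟨p, hp, fun _ => rfl⟩
  unfold prim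
  rw [dif_pos h]
  exact h.choose_spec.2 i

end Cnt

theorem cnt : CntR := by
  classical
  intro _ k d
  induction k with
  | zero =>
    refine ⟨0, fun G _ _ _ => ⟨{fun _ => 1}, by simp, ?_, ?_⟩⟩
    · intro p hp x
      rw [Finset.mem_singleton.1 hp]; simp
    · rintro p ⟨c, hc, hp⟩
      exact ⟨_, Finset.mem_singleton_self _, c, hc, fun x => by rw [hp x, mul_one]⟩
  | succ k ih =>
    obtain ⟨C, hC⟩ := ih
    refine ⟨(C + 1) * d, fun G _ _ hG => ?_⟩
    obtain ⟨S, hS, -, hP⟩ := hC G hG
    obtain ⟨e, he⟩ := hG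
    refine ⟨(Fintype.piFinset fun _ : Fin d => Cnt.ext S).image (Cnt.prim e), ?_, ?_, ?_⟩
    · refine Finset.card_image_le.trans ?_
      rw [Fintype.card_piFinset, Finset.prod_const, Finset.card_univ, Fintype.card_fin, pow_mul]
      refine Nat.pow_le_pow_left ((Cnt.card_ext S).trans ?_) d
      rw [pow_succ]
      exact Nat.mul_le_mul_right _ hS
    · intro p hp
      obtain ⟨ws, -, rfl⟩ := Finset.mem_image.1 hp
      exact Cnt.prim_un e ws
    · rintro p ⟨hp, hd⟩
      refine ⟨Cnt.prim e fun i => dd (e i) p, Finset.mem_image.2 ⟨_, ?_, rfl⟩,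
        Cnt.det e he p _ hp (Cnt.prim_un e _) (Cnt.prim_dd e p hp)⟩
      refine Fintype.mem_piFinset.2 fun i => ?_
      obtain ⟨w, hw, c, -, hc⟩ := hP _ (hd (e i))
      exact Cnt.mem_ext S w _ hw c hc (Cnt.prod_dd p hp (e i))

end T3u

end
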