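import Pool.Agent.MP_154433_an.t3u.Spec

/-! Products over the vertices of a cube. -/

set_option autoImplicit false
set_option linter.unusedVariables false

open Filter Topology Function Finset
open scoped BigOperators ComplexConjugate
open Pool.Agent.MP_154433_an.T3S (B1 dd Q ip LG)

noncomputable section

namespace T3u

namespace Cp

lemma sg_mul {n : ℕ} (ε : Fin n → Bool) (z w : ℂ) : sg ε (z * w) = sg ε z * sg ε w := by
  unfold sg
  split_ifs
  · rfl
  · exact map_mul _ _ _

lemma sg_cj {n : ℕ} (ε : Fin n → Bool) (z : ℂ) : sg ε (conj z) = conj (sg ε z) := by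
  unfold sg
  split_ifs <;> rfl

lemma sg_norm {n : ℕ} (ε : Fin n → Bool) (z : ℂ) : ‖sg ε z‖ = ‖z‖ := by
  unfold sg
  split_ifs
  · rfl
  · exact RCLike.norm_conj z

lemma card_cons {n : ℕ} (b : Bool) (ε : Fin n → Bool) :
    (univ.filter fun i => (Fin.cons b ε : Fin (n + 1) → Bool) i = false).card =
      (if b = false then 1 else 0) + (univ.filter fun i => ε i = false).card := by
  simp only [Finset.card_filter, Fin.sum_univ_succ, Fin.cons_zero, Fin.cons_succ]

lemma sg_true {n : ℕ} (ε : Fin n → Bool) (z : ℂ) :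
    sg (Fin.cons true ε : Fin (n + 1) → Bool) z = sg ε z := by
  unfold sg
  rw [card_cons]
  simp

lemma sg_false {n : ℕ} (ε : Fin n → Bool) (z : ℂ) :
    sg (Fin.cons false ε : Fin (n + 1) → Bool) z = sg ε (conj z) := by
  unfold sg
  rw [card_cons, if_pos rfl, add_comm 1]
  by_cases h : Even (univ.filter fun i => ε i = false).card
  · rw [if_pos h, if_neg (by rw [Nat.even_add_one]; exact not_not.2 h)]
  · rw [if_neg h, if_pos (Nat.even_add_one.2 h), RCLike.conj_conj]

variable {G : Type} [AddCommGroup G]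

lemma vx_cons {n : ℕ} (b : Bool) (ε : Fin n → Bool) (t : G) (τ : Fin n → G) :
    vx (Fin.cons b ε : Fin (n + 1) → Bool) (Fin.cons t τ : Fin (n + 1) → G) =
      (if b then t else 0) + vx ε τ := by
  simp only [vx, Fin.sum_univ_succ, Fin.cons_zero, Fin.cons_succ]

lemma vadd {n : ℕ} (ε : Fin n → Bool) (τ t : Fin n → G) : vx ε (τ + t) = vx ε τ + vx ε t := by
  simp only [vx, ← Finset.sum_add_distrib]
  refine Finset.sum_congr rfl fun i _ => ?_
  split_ifs
  · rfl
  · exact (add_zero _).symm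

lemma prod_cons {n : ℕ} (F : (Fin (n + 1) → Bool) → ℂ) :
    ∏ ε, F ε = ∏ ε : Fin n → Bool, F (Fin.cons true ε) * F (Fin.cons false ε) := by
  rw [← Fintype.prod_equiv (Fin.consEquiv fun _ => Bool) (fun p => F (Fin.cons p.1 p.2)) F
    fun p => rfl, Fintype.prod_prod_type, Fintype.prod_bool, Finset.prod_mul_distrib]

lemma cp_cons (n : ℕ) (f : G → ℂ) (t : G) (τ : Fin n → G) (x : G) :
    cp (n + 1) f (Fin.cons t τ) x = cp n (dd t f) τ x := by
  unfold cp
  rw [prod_cons]
  refine Finset.prod_congr rfl fun ε _ => ?_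
  rw [sg_true, sg_false, vx_cons, vx_cons, ← sg_mul]
  simp only [dd, if_true, Bool.false_eq_true, if_false, zero_add]
  rw [add_comm t, add_assoc]

lemma cp_zero (f : G → ℂ) (τ : Fin 0 → G) (x : G) : cp 0 f τ x = f x := by
  simp [cp, sg, vx]

lemma div (n : ℕ) (f g : G → ℂ) (τ : Fin n → G) (x : G) :
    cp n (fun y => f y * conj (g y)) τ x = cp n f τ x * conj (cp n g τ x) := by
  simp only [cp, map_prod, ← Finset.prod_mul_distrib, sg_mul, sg_cj]

omit [AddCommGroup G] in
lemma exp_cons [Fintype G] {k : ℕ} (F : (Fin (k + 1) → G) → ℝ) :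
    𝔼 τ, F τ = 𝔼 s : G, 𝔼 τ : Fin k → G, F (Fin.cons s τ) := by
  rw [← Finset.expect_product', Finset.univ_product_univ]
  exact (Fintype.expect_equiv (Fin.consEquiv fun _ => G) _ _ fun p => rfl).symm

lemma q [Fintype G] (n : ℕ) (f : G → ℂ) : Q n f = 𝔼 τ, ‖𝔼 x, cp n f τ x‖ ^ 2 := by
  induction n generalizing f with
  | zero =>
    simp only [cp_zero]
    rw [Finset.expect_const Finset.univ_nonempty]
    rfl
  | succ n ih =>
    rw [exp_cons]
    simp only [cp_cons, ← ih]
    rfl

end Cp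

theorem cpA : CpA where
  q n f := Cp.q n f
  un n f hf τ x := by
    simp only [cp, norm_prod, Cp.sg_norm, hf _, Finset.prod_const_one]
  div n f g τ x := Cp.div n f g τ x
  side n f τ t x := by
    simp only [cp, dd, map_prod, ← Finset.prod_mul_distrib, Cp.sg_mul, Cp.sg_cj, Cp.vadd, add_assoc]
  diag n f τ s x := by
    simp only [cp, dd, map_prod, ← Finset.prod_mul_distrib, Cp.sg_mul, Cp.sg_cj,
      add_right_comm x s]
  vadd ε τ t := Cp.vadd ε τ t

end T3u

end
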