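import Pool.Agent.MP_154433_an.t3u.Spec
import Pool.Agent.MP_154433_an.t3s.Gcs
import Pool.Agent.MP_154433_an.t3s.Apx

/-! The convex set of dual functions. -/

set_option autoImplicit false

open Function Finset
open scoped BigOperators ComplexConjugate
open Pool.Agent.MP_154433_an
open Pool.Agent.MP_154433_an.T3S (B1 dd Q)

noncomputable section

namespace T3u

namespace Ds

variable {G : Type} [AddCommGroup G] [Fintype G] {n : ℕ}

lemma gen {a : (Fin n → G) → G → ℂ} (h : Spl a) : (fun x => 𝔼 τ, a τ x) ∈ DS n G :=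
  subset_convexHull ℝ _ ⟨a, h, rfl⟩

lemma ind {E : Type} [AddCommGroup E] [Module ℝ E] {C : Set E} (hC : Convex ℝ C)
    {f : (G → ℂ) → E} (hf : IsLinearMap ℝ f)
    (h : ∀ a : (Fin n → G) → G → ℂ, Spl a → f (fun x => 𝔼 τ, a τ x) ∈ C) :
    ∀ u ∈ DS n G, f u ∈ C := fun _ hu =>
  convexHull_min (by rintro _ ⟨a, ha, rfl⟩; exact h a ha) (hC.is_linear_preimage hf) hu

omit [Fintype G] in
lemma tr {a : (Fin n → G) → G → ℂ} (h : Spl a) (σ : Fin n → G) : Spl fun τ x => a (τ + σ) x := by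
  obtain ⟨γ, h1, h2⟩ := h
  refine ⟨fun i ρ z => γ i (update (ρ + σ) i 0) (z + σ i), fun i τ => (h1 _ _).comp _,
    fun τ x => (h2 _ _).trans (Finset.prod_congr rfl fun i _ => ?_)⟩
  have : update (update τ i 0 + σ) i 0 = update (τ + σ) i 0 := by
    funext j
    by_cases e : j = i
    · simp [e]
    · simp [e]
  simp only [this, Pi.add_apply, add_assoc]

lemma mul (sa : SpA) : ∀ u ∈ DS n G, ∀ u' ∈ DS n G, (fun x => u x * u' x) ∈ DS n G := by
  intro u hu u' hu'
  refine ind (convex_convexHull ℝ _) (LinearMap.mulRight ℝ u').isLinear (fun a ha => ?_) u hu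
  refine ind (convex_convexHull ℝ _) (LinearMap.mulLeft ℝ fun x => 𝔼 τ, a τ x).isLinear
    (fun a' ha' => ?_) u' hu'
  have := T3S.Apx.exp_mem (convex_convexHull ℝ _) fun σ => gen (sa.mul _ _ ha (tr ha' σ))
  refine Eq.mp (congrArg (· ∈ _) (funext fun x => ?_)) this
  change _ = (𝔼 τ, a τ x) * 𝔼 τ, a' τ x
  rw [Finset.expect_comm, Finset.expect_mul]
  refine Finset.expect_congr rfl fun τ _ => ?_
  rw [T3S.Gcs.exp_add (fun τ => a' τ x) τ, Finset.mul_expect]

lemma gcs (k : ℕ) (g : G → ℂ) : ∀ u ∈ DS (k + 1) G, ‖𝔼 x, g x * u x‖ ^ 2 ^ (k + 1) ≤ Q k g := by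
  have hC : Convex ℝ {z : ℂ | z ∈ Set.univ ∧ ((fun z : ℂ => ‖z‖) ^ 2 ^ (k + 1)) z ≤ Q k g} :=
    (convexOn_univ_norm.pow (fun _ _ => norm_nonneg _) _).convex_le _
  refine fun u hu => (ind hC (f := fun u => 𝔼 x, g x * u x) ⟨fun u v => ?_, fun c u => ?_⟩
    (fun a ⟨γ, h1, h2⟩ => ⟨trivial, ?_⟩) u hu).2
  · simp only [Pi.add_apply, mul_add, Finset.expect_add_distrib]
  · simp only [Pi.smul_apply, Complex.real_smul, Finset.mul_expect, mul_left_comm]
  · simpa only [h2, Finset.mul_expect, Pi.pow_apply] using T3S.gcs k G g γ h1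

lemma qshift (k : ℕ) (g : G → ℂ) (c : G) : Q k (fun x => g (x + c)) = Q k g := by
  induction k generalizing g with
  | zero =>
    exact congrArg (‖·‖ ^ 2) (Fintype.expect_equiv (Equiv.addRight c) _ _ fun _ => rfl)
  | succ k ih =>
    refine Finset.expect_congr rfl fun h _ => Eq.trans (congrArg _ (funext fun x => ?_)) (ih (dd h g))
    simp only [dd, add_right_comm x h c]

lemma qmul (k : ℕ) (g : G → ℂ) (c : ℂ) :
    Q k (fun x => c * g x) = ‖c‖ ^ 2 ^ (k + 1) * Q k g := by
  induction k generalizing g c with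
  | zero => simp only [Q, ← Finset.mul_expect, norm_mul, mul_pow, zero_add, pow_one]
  | succ k ih =>
    have e : ∀ h, dd h (fun x => c * g x) = fun x => c * conj c * dd h g x := fun h =>
      funext fun x => by simp only [dd, map_mul]; ring
    simp only [Q, e, ih, ← Finset.mul_expect, norm_mul, RCLike.norm_conj]
    rw [← sq, ← pow_mul, ← pow_succ']

end Ds

theorem ds : DsR := fun sa =>
  { one := fun n G _ _ => by
      simpa using Ds.gen (a := fun (_ : Fin n → G) _ => 1)
        ⟨fun _ _ _ => 1, fun _ _ _ => by simp, fun _ _ => by simp⟩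
    b1 := Ds.ind T3S.B1.convex (LinearMap.id (R := ℝ)).isLinear fun a ha x =>
      T3S.norm_exp_le_of zero_le_one fun τ _ => sa.b1 a ha τ x
    mul := Ds.mul sa
    cj := Ds.ind (f := fun u x => conj (u x)) (convex_convexHull ℝ _)
      ⟨fun u v => funext fun x => by simp, fun c u => funext fun x => by simp⟩ fun a ha => by
        simp only [T3S.conj_exp]
        exact Ds.gen (sa.cj a ha)
    shift := fun c => Ds.ind (f := fun u x => u (x + c)) (convex_convexHull ℝ _)
      ⟨fun _ _ => rfl, fun _ _ => rfl⟩ fun a ha => Ds.gen (sa.shift a c ha)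
    gcs := Ds.gcs
    qshift := Ds.qshift
    qmul := Ds.qmul }

end T3u

end
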