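import Pool.Agent.MP_154433_an.t3u.Spec

/-! Row Eig: spectral decomposition of a positive kernel, and joint eigenvectors. -/

set_option autoImplicit false
set_option linter.unusedVariables false

open Filter Topology Function Finset Matrix
open scoped BigOperators ComplexConjugate ComplexOrder InnerProductSpace

noncomputable section

namespace T3u

theorem eig : EigS := by
  intro G T _ _ _ _ a
  have hP := Matrix.posSemidef_conjTranspose_mul_self (Matrix.of a)
  have h1 := Unitary.coe_star_mul_self hP.1.eigenvectorUnitary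
  have h2 := hP.1.spectral_theorem
  rw [Unitary.conjStarAlgAut_apply] at h2
  have h0 := hP.eigenvalues_nonneg
  generalize hP.1.eigenvalues = l at h0 h2
  generalize (hP.1.eigenvectorUnitary : Matrix G G ℂ) = U at h1 h2
  have hN : (0 : ℝ) < Fintype.card G := by exact_mod_cast Fintype.card_pos
  have hN' : (Fintype.card G : ℂ) ≠ 0 := by exact_mod_cast hN.ne'
  have hs : ∀ u v : ℂ, (√(Fintype.card G : ℝ) : ℝ) * u * conj ((√(Fintype.card G : ℝ) : ℝ) * v) =
      Fintype.card G * (u * conj v) := fun u v => by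
    have : ((√(Fintype.card G : ℝ) : ℝ) : ℂ) * (√(Fintype.card G : ℝ) : ℝ) = Fintype.card G := by
      rw [← Complex.ofReal_mul, Real.mul_self_sqrt hN.le, Complex.ofReal_natCast]
    rw [map_mul, Complex.conj_ofReal, ← this]
    ring
  refine ⟨fun i => l i / (Fintype.card T * Fintype.card G),
    fun i x => (√(Fintype.card G : ℝ) : ℝ) * U x i, fun i => div_nonneg (h0 i) (by positivity),
    fun i i' => ?_, fun x y => ?_⟩
  · have := congrFun (congrFun h1 i') i
    rw [Matrix.mul_apply, Matrix.one_apply] at this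
    simp only [hs]
    rw [Fintype.expect_eq_sum_div_card, ← Finset.mul_sum, mul_div_cancel_left₀ _ hN']
    simpa only [mul_comm, eq_comm, Matrix.star_apply, Complex.star_def] using this
  · have := congrFun (congrFun h2 x) y
    rw [Matrix.mul_apply, Matrix.mul_apply] at this
    simp only [Matrix.mul_diagonal, Matrix.conjTranspose_apply, Matrix.of_apply,
      Matrix.star_apply, Complex.star_def, Function.comp_apply, Complex.coe_algebraMap] at this
    simp only [hs]
    rw [Fintype.expect_eq_sum_div_card, this, Finset.sum_div]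
    refine Finset.sum_congr rfl fun i _ => ?_
    push_cast
    by_cases hT : (Fintype.card T : ℂ) = 0
    · simp [hT]
    · field_simp

namespace Eig

/-- the Hermitian parts -/
def hp {d : ℕ} (m : Fin d → Fin d → Matrix (Fin d) (Fin d) ℂ) (p : Fin d × Fin d × Bool) :
    Matrix (Fin d) (Fin d) ℂ :=
  if p.2.2 then m p.1 p.2.1 + m p.2.1 p.1 else Complex.I • (m p.1 p.2.1 - m p.2.1 p.1)

variable {d : ℕ} {m : Fin d → Fin d → Matrix (Fin d) (Fin d) ℂ}

theorem herm (h : ∀ a b, (m a b).conjTranspose = m b a) (p : Fin d × Fin d × Bool) :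
    (hp m p).IsHermitian := by
  obtain ⟨a, b, _ | _⟩ := p
  · simp [hp, Matrix.IsHermitian, h, smul_sub]
    abel
  · simp [hp, Matrix.IsHermitian, h, add_comm]

theorem comm (h : ∀ a b a' b', m a b * m a' b' = m a' b' * m a b) (p q : Fin d × Fin d × Bool) :
    Commute (hp m p) (hp m q) := by
  have c : ∀ a b a' b', Commute (m a b) (m a' b') := h
  have c1 : ∀ a b, Commute (m a b) (hp m q) := fun a b => by
    obtain ⟨a', b', _ | _⟩ := q
    · exact ((c _ _ _ _).sub_right (c _ _ _ _)).smul_right _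
    · exact (c _ _ _ _).add_right (c _ _ _ _)
  obtain ⟨a, b, _ | _⟩ := p
  · exact ((c1 _ _).sub_left (c1 _ _)).smul_left _
  · exact (c1 _ _).add_left (c1 _ _)

theorem back (a b : Fin d) : m a b =
    (1 / 2 : ℂ) • (hp m (a, b, true) - Complex.I • hp m (a, b, false)) := by
  ext i l
  simp only [hp, if_true, Bool.false_eq_true, if_false, Matrix.smul_apply, Matrix.sub_apply,
    Matrix.add_apply, smul_eq_mul]
  linear_combination ((m a b i l - m b a i l) / 2) * Complex.I_mul_I

end Eig

open Eig in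
theorem joint : JointS := by
  intro d m c h1 h2 hc
  have top := LinearMap.IsSymmetric.iSup_iInf_eq_top_of_commute
    (T := fun p => Matrix.toEuclideanLin (hp m p))
    (fun p => Matrix.isSymmetric_toEuclideanLin_iff.2 (herm h1 p)) fun p q _ => by
      show _ * _ = _ * _
      rw [Module.End.mul_eq_comp, Module.End.mul_eq_comp, ← Matrix.toLpLin_mul_same,
        ← Matrix.toLpLin_mul_same, (comm h2 p q).eq]
  obtain ⟨χ, v, hv, hvc⟩ : ∃ (χ : Fin d × Fin d × Bool → ℂ) (v : EuclideanSpace ℂ (Fin d)),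
      v ∈ (⨅ p, Module.End.eigenspace (Matrix.toEuclideanLin (hp m p)) (χ p)) ∧
        ⟪v, WithLp.toLp 2 c⟫_ℂ ≠ 0 := by
    by_contra hn
    push Not at hn
    have : (⊤ : Submodule ℂ (EuclideanSpace ℂ (Fin d))) ≤ (ℂ ∙ WithLp.toLp 2 c)ᗮ := by
      rw [← top]
      exact iSup_le fun χ v hv => Submodule.mem_orthogonal_singleton_iff_inner_left.2 (hn χ v hv)
    have h3 := Submodule.mem_orthogonal_singleton_iff_inner_left.1
      (this (Submodule.mem_top (x := WithLp.toLp 2 c)))
    exact hc (by simpa using inner_self_eq_zero.1 h3)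
  have hv0 : v ≠ 0 := by
    rintro rfl
    simp at hvc
  have hn : (‖v‖ : ℂ) ≠ 0 := by exact_mod_cast norm_ne_zero_iff.2 hv0
  have ev : ∀ p, hp m p *ᵥ v.ofLp = χ p • v.ofLp := fun p =>
    congrArg WithLp.ofLp (Module.End.mem_eigenspace_iff.1 (Submodule.mem_iInf _ |>.1 hv p))
  refine ⟨fun i => (‖v‖ : ℂ)⁻¹ * v i, ?_, ?_,
    fun a b => ⟨1 / 2 * (χ (a, b, true) - Complex.I * χ (a, b, false)), fun i => ?_⟩⟩
  · have e : ∑ i, v i * conj (v i) = (‖v‖ : ℂ) ^ 2 := by
      refine Eq.trans ?_ (inner_self_eq_norm_sq_to_K (𝕜 := ℂ) v)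
      simp only [PiLp.inner_apply, RCLike.inner_apply]
    simp only [map_mul, map_inv₀, Complex.conj_ofReal, mul_mul_mul_comm _ (v _), ← Finset.mul_sum, e]
    field_simp
  · have e : ∑ i, conj (v i) * c i = ⟪v, WithLp.toLp 2 c⟫_ℂ := by
      simp [PiLp.inner_apply, mul_comm]
    simp only [map_mul, map_inv₀, Complex.conj_ofReal, mul_assoc, ← Finset.mul_sum, e]
    exact mul_ne_zero (inv_ne_zero hn) hvc
  · have e : m a b *ᵥ v.ofLp =
        (1 / 2 * (χ (a, b, true) - Complex.I * χ (a, b, false))) • v.ofLp := by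
      rw [back (m := m) a b, Matrix.smul_mulVec, Matrix.sub_mulVec, Matrix.smul_mulVec, ev, ev, smul_smul,
        ← sub_smul, smul_smul]
    have e' := congrFun e i
    simp only [Matrix.mulVec, dotProduct, Pi.smul_apply, smul_eq_mul] at e'
    simp only [mul_left_comm _ (‖v‖ : ℂ)⁻¹, ← Finset.mul_sum, e']

end T3u

end
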