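import Pool.Agent.MP_154433_an.t3u.Spec

/-! Row Exh: exhaustion by translates. -/

set_option autoImplicit false

open Filter Topology Function Finset
open scoped BigOperators

noncomputable section

namespace T3u

namespace Exh

/-- the defect of a point of the disc -/
def df (z : ℂ) : ℝ := if ‖z‖ = 1 then 0 else 1

/-- normalisation above the level `η` -/
def nm (η : ℝ) (z : ℂ) : ℂ := (((max ‖z‖ η)⁻¹ : ℝ) : ℂ) * z

theorem df_nonneg (z : ℂ) : 0 ≤ df z := by unfold df; split_ifs <;> norm_num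

theorem df_le (z : ℂ) : df z ≤ 1 := by unfold df; split_ifs <;> norm_num

theorem norm_nm {η : ℝ} (hη : 0 < η) (z : ℂ) : ‖nm η z‖ = ‖z‖ / max ‖z‖ η := by
  rw [nm, norm_mul, Complex.norm_real, Real.norm_of_nonneg
    (inv_nonneg.2 (hη.le.trans (le_max_right _ _))), div_eq_inv_mul]

theorem nm_le {η : ℝ} (hη : 0 < η) (z : ℂ) : ‖nm η z‖ ≤ 1 := by
  rw [norm_nm hη, div_le_one (hη.trans_le (le_max_right _ _))]
  exact le_max_left _ _

theorem df_nm {η : ℝ} (hη : 0 < η) {z : ℂ} (h : η ≤ ‖z‖) : df (nm η z) = 0 :=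
  if_pos (by rw [norm_nm hη, max_eq_left h, div_self (hη.trans_le h).ne'])

theorem cont {η : ℝ} (hη : 0 < η) : Continuous fun r : ℝ => (max r η)⁻¹ :=
  (continuous_id.max continuous_const).inv₀ fun _ => (hη.trans_le (le_max_right _ _)).ne'

/-- the glued value -/
def gl (c : ℝ) (z v : ℂ) : ℂ := nm (1 / 2) (z + ((c * (1 - ‖z‖) : ℝ) : ℂ) * v)

theorem gl_eq (c : ℝ) {z : ℂ} (v : ℂ) (h : ‖z‖ = 1) : gl c z v = z := by
  have : max (1 : ℝ) 2⁻¹ = 1 := max_eq_left (by norm_num)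
  simp [gl, nm, h, this]

theorem df_gl {z : ℂ} (v : ℂ) (hz : ‖z‖ ≤ 1) :
    df (gl 1 z v) + df (gl (-1) z v) ≤ df z * (1 + df v) := by
  by_cases h : ‖z‖ = 1
  · rw [gl_eq _ _ h, gl_eq _ _ h, df, if_pos h]
    norm_num
  have h1 := df_le (gl 1 z v)
  have h2 := df_le (gl (-1) z v)
  rw [show df z = 1 from if_neg h, one_mul]
  by_cases hv : ‖v‖ = 1
  · rw [show df v = 0 from if_pos hv, add_zero]
    set a := z + ((1 * (1 - ‖z‖) : ℝ) : ℂ) * v with ha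
    set b := z + ((-1 * (1 - ‖z‖) : ℝ) : ℂ) * v with hb
    have e1 : ‖a + b‖ = 2 * ‖z‖ := by
      rw [show a + b = 2 * z by rw [ha, hb]; push_cast; ring, norm_mul]
      simp
    have e2 : ‖a - b‖ = 2 * (1 - ‖z‖) := by
      rw [show a - b = ((2 * (1 - ‖z‖) : ℝ) : ℂ) * v by rw [ha, hb]; push_cast; ring, norm_mul,
        hv, mul_one, Complex.norm_real, Real.norm_of_nonneg (by linarith)]
    have e3 := norm_add_le a b
    have e4 := norm_sub_le a b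
    rcases le_total (1 / 2) ‖a‖ with h3 | h3
    · have : df (gl 1 z v) = 0 := df_nm one_half_pos h3
      linarith
    · have : df (gl (-1) z v) = 0 := df_nm one_half_pos (by linarith)
      linarith
  · rw [show df v = 1 from if_neg hv]
    linarith

theorem avg {G : Type} [AddCommGroup G] [Fintype G] (t θ : G → ℂ) (ht : ∀ y, ‖t y‖ ≤ 1) :
    ∃ s : G, 𝔼 y, df (gl 1 (t y) (θ (y + s))) + 𝔼 y, df (gl (-1) (t y) (θ (y + s))) ≤
      (𝔼 y, df (t y)) * (1 + 𝔼 y, df (θ y)) := by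
  have e : 𝔼 s : G, 𝔼 y, df (t y) * (1 + df (θ (y + s))) =
      (𝔼 y, df (t y)) * (1 + 𝔼 y, df (θ y)) := by
    rw [expect_comm, expect_mul]
    refine expect_congr rfl fun y _ => ?_
    rw [← mul_expect, expect_add_distrib, expect_const univ_nonempty]
    congr 2
    exact Fintype.expect_equiv (Equiv.addLeft y) _ _ fun _ => rfl
  obtain ⟨s, -, hs⟩ := exists_le_of_expect_le univ_nonempty e.le
  refine ⟨s, le_trans ?_ hs⟩
  rw [← expect_add_distrib]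
  exact expect_le_expect fun y _ => df_gl _ (ht y)

theorem start {G : Type} [Fintype G] [Nonempty G] (θ : G → ℂ) {C ε : ℝ} (hε : 0 < ε)
    (hC : ∀ y, ‖θ y‖ ≤ C) (h : ε < 𝔼 y, ‖θ y‖ ^ 2) :
    𝔼 y, df (nm (√(ε / 2)) (θ y)) ≤ 1 - ε / (2 * (C ^ 2 + 1)) := by
  have hη : 0 < √(ε / 2) := Real.sqrt_pos.2 (half_pos hε)
  have h1 : 𝔼 y, ‖θ y‖ ^ 2 ≤ 𝔼 y, (ε / 2 + (C ^ 2 + 1) * (1 - df (nm (√(ε / 2)) (θ y)))) := by
    refine expect_le_expect fun y _ => ?_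
    rcases le_total (√(ε / 2)) ‖θ y‖ with h2 | h2
    · rw [df_nm hη h2]
      nlinarith [pow_le_pow_left₀ (norm_nonneg _) (hC y) 2]
    · have h3 := pow_le_pow_left₀ (norm_nonneg _) h2 2
      rw [Real.sq_sqrt (half_pos hε).le] at h3
      have := mul_nonneg (show (0 : ℝ) ≤ C ^ 2 + 1 by positivity)
        (sub_nonneg.2 (df_le (nm (√(ε / 2)) (θ y))))
      linarith
  rw [expect_add_distrib, expect_const univ_nonempty, ← mul_expect, expect_sub_distrib,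
    expect_const univ_nonempty] at h1
  rw [le_sub_comm, div_le_iff₀ (by positivity)]
  nlinarith

end Exh

open Exh in
theorem exh : ExhR := by
  intro _ _ Γ _ _ Θ hb hcl hadd hsh hψ hex
  obtain ⟨θ₀, h0, hn⟩ := hex
  obtain ⟨C, hC⟩ := hb θ₀ h0
  obtain ⟨ε, hε, h1⟩ : ∃ ε : ℝ, 0 < ε ∧ ∀ᶠ j in (UU : Filter ℕ), ε < 𝔼 y, ‖θ₀ j y‖ ^ 2 := by
    by_contra hc
    refine hn fun ε hε => by_contra fun h => hc ⟨ε, hε, ?_⟩
    simpa only [not_le] using Ultrafilter.eventually_not.2 h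
  have hnm : ∀ η : ℝ, 0 < η → ∀ θ ∈ Θ, (fun j y => nm η (θ j y)) ∈ Θ := fun η hη θ h =>
    hψ θ h θ h _ (cont hη)
  have hθ := hnm _ (Real.sqrt_pos.2 (half_pos hε)) θ₀ h0
  have h2 := h1.mono fun j hj => start (θ₀ j) hε (hC j) hj
  have ha : 0 < ε / (2 * (C ^ 2 + 1)) := by positivity
  generalize ε / (2 * (C ^ 2 + 1)) = a at h2 ha
  obtain ⟨θ, hθ, h2⟩ : ∃ θ ∈ Θ, ∀ᶠ j in (UU : Filter ℕ), 𝔼 y, df (θ j y) ≤ 1 - a := ⟨_, hθ, h2⟩
  have hd : ∀ (t : Fm Γ) j, 0 ≤ 𝔼 y, df (t j y) := fun t j => expect_nonneg fun _ _ => df_nonneg _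
  have ha1 : 0 ≤ 1 - a / 2 := by
    obtain ⟨j, hj⟩ := h2.exists
    linarith [hd θ j]
  have step : ∀ t : {t : Fm Γ // t ∈ Θ ∧ ∀ j y, ‖t j y‖ ≤ 1},
      ∃ t' : {t : Fm Γ // t ∈ Θ ∧ ∀ j y, ‖t j y‖ ≤ 1},
      (∀ j y, ‖t.1 j y‖ = 1 → t'.1 j y = t.1 j y) ∧
      ∀ᶠ j in (UU : Filter ℕ), 𝔼 y, df (t'.1 j y) ≤ (1 - a / 2) * 𝔼 y, df (t.1 j y) := by
    rintro ⟨t, ht, ht1⟩
    choose s hs using fun j => avg (t j) (θ j) (ht1 j)
    have hm : ∀ c : ℝ, (fun j y => gl c (t j y) (θ j (y + s j))) ∈ Θ := fun c =>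
      hnm _ one_half_pos _ (hadd t ht _
        (hψ t ht _ (hsh θ hθ s) (fun r => c * (1 - r)) (by fun_prop)))
    have h3 : ∀ᶠ j in (UU : Filter ℕ),
        𝔼 y, df (gl 1 (t j y) (θ j (y + s j))) ≤ (1 - a / 2) * 𝔼 y, df (t j y) ∨
        𝔼 y, df (gl (-1) (t j y) (θ j (y + s j))) ≤ (1 - a / 2) * 𝔼 y, df (t j y) :=
      h2.mono fun j hj => by
        by_contra hc
        rw [not_or, not_le, not_le] at hc
        nlinarith [hs j, hd t j, hc.1, hc.2, mul_le_mul_of_nonneg_left hj (hd t j)]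
    rcases Ultrafilter.eventually_or.1 h3 with h4 | h4
    · exact ⟨⟨_, hm 1, fun j y => nm_le one_half_pos _⟩, fun j y h => gl_eq _ _ h, h4⟩
    · exact ⟨⟨_, hm (-1), fun j y => nm_le one_half_pos _⟩, fun j y h => gl_eq _ _ h, h4⟩
  choose f hf1 hf2 using step
  let t0 : {t : Fm Γ // t ∈ Θ ∧ ∀ j y, ‖t j y‖ ≤ 1} :=
    ⟨_, hnm 1 one_pos θ hθ, fun j y => nm_le one_pos _⟩
  obtain ⟨t, ht⟩ : ∃ t : ℕ → {t : Fm Γ // t ∈ Θ ∧ ∀ j y, ‖t j y‖ ≤ 1}, ∀ n, t (n + 1) = f (t n) :=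
    ⟨fun n => f^[n] t0, fun n => iterate_succ_apply' f n t0⟩
  have mono : ∀ j y n m, n ≤ m → ‖(t n).1 j y‖ = 1 → (t m).1 j y = (t n).1 j y := by
    intro j y n m hnm h
    induction hnm with
    | refl => rfl
    | step _ ih => rw [ht, hf1 _ j y (by rw [ih, h]), ih]
  have dec : ∀ n, ∀ᶠ j in (UU : Filter ℕ), 𝔼 y, df ((t n).1 j y) ≤ (1 - a / 2) ^ n := by
    intro n
    induction n with
    | zero => exact Eventually.of_forall fun j => expect_le univ_nonempty fun _ _ => df_le _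
    | succ n ih =>
      rw [ht, pow_succ']
      filter_upwards [ih, hf2 (t n)] with j h3 h4
      exact h4.trans (mul_le_mul_of_nonneg_left h3 ha1)
  classical
  let L : Fm Γ := fun j y => if h : ∃ n, ‖(t n).1 j y‖ = 1 then (t h.choose).1 j y else 1
  have hL : ∀ j y, ‖L j y‖ = 1 := fun j y => by
    by_cases h : ∃ n, ‖(t n).1 j y‖ = 1
    · exact (congrArg norm (dif_pos h)).trans h.choose_spec
    · exact (congrArg norm (dif_neg h)).trans norm_one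
  have hL2 : ∀ n j y, ‖L j y - (t n).1 j y‖ ^ 2 ≤ 4 * df ((t n).1 j y) := fun n j y => by
    by_cases h : ‖(t n).1 j y‖ = 1
    · have h' : ∃ n, ‖(t n).1 j y‖ = 1 := ⟨n, h⟩
      have e : L j y = (t n).1 j y := (dif_pos h').trans ((le_total n h'.choose).elim
        (fun h3 => mono j y _ _ h3 h) fun h3 => (mono j y _ _ h3 h'.choose_spec).symm)
      simp [e, df, h]
    · have h3 := norm_sub_le (L j y) ((t n).1 j y)
      rw [df, if_neg h]
      nlinarith [hL j y, (t n).2.2 j y, norm_nonneg (L j y - (t n).1 j y)]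
  refine ⟨L, hcl ⟨⟨1, fun j y => (hL j y).le⟩, fun δ hδ => ?_⟩, hL⟩
  obtain ⟨n, hn⟩ := exists_pow_lt_of_lt_one (show 0 < δ / 4 by positivity)
    (show 1 - a / 2 < 1 by linarith)
  refine ⟨_, (t n).2.1, (dec n).mono fun j hj => ?_⟩
  refine (expect_le_expect fun y _ => hL2 n j y).trans ?_
  rw [← mul_expect]
  linarith

end T3u

end
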