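import Pool.Agent.MP_154433_an.t3u.Spec
import Pool.Agent.MP_154433_an.t3s.Gcs

/-! The structured algebras: orthogonality, pull-backs, averages and projections. -/

set_option autoImplicit false
set_option linter.unusedVariables false

open Filter Topology Function Finset
open scoped BigOperators ComplexConjugate
open Pool.Agent.MP_154433_an.T3S (B1 dd Q ip LG)

noncomputable section

namespace T3u

namespace FAa

open Pool.Agent.MP_154433_an

lemma exp_l {A B : Type} [Fintype A] [Fintype B] (f : A × B → ℂ) :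
    𝔼 z, f z = 𝔼 a, 𝔼 b, f (a, b) := by
  rw [← Finset.expect_product, Finset.univ_product_univ]

lemma exp_r {A B : Type} [Fintype A] [Fintype B] (f : A × B → ℂ) :
    𝔼 z, f z = 𝔼 b, 𝔼 a, f (a, b) := by
  rw [exp_l, Finset.expect_comm]

lemma exp_sh {G : Type} [AddCommGroup G] [Fintype G] (f : G → ℂ) (c : G) :
    𝔼 x, f (x + c) = 𝔼 x, f x :=
  Fintype.expect_equiv (Equiv.addRight c) _ _ fun _ => rfl

lemma lim1 {a : ℕ → ℂ} {q : ℕ → ℝ} {N : ℕ} (h : ∀ j, ‖a j‖ ^ N ≤ q j)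
    (hq : Tendsto q UU (𝓝 0)) : Tendsto a UU (𝓝 0) := by
  rw [Metric.tendsto_nhds]
  intro ε hε
  filter_upwards [hq.eventually (gt_mem_nhds (pow_pos hε N))] with j hj
  rw [dist_zero_right]
  exact lt_of_pow_lt_pow_left₀ N hε.le ((h j).trans_lt hj)

lemma lim2 {a : ℕ → ℂ} {q : ℕ → ℝ} {c : ℝ} (hc : c ≠ 0) (h : ∀ j, a j = ((c * q j : ℝ) : ℂ))
    (ha : Tendsto a UU (𝓝 0)) : Tendsto q UU (𝓝 0) := by
  have h1 := ((Complex.continuous_re.tendsto 0).comp ha).const_mul c⁻¹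
  simp only [Complex.zero_re, mul_zero] at h1
  refine h1.congr fun j => ?_
  simp only [Function.comp, h j, Complex.ofReal_re]
  rw [inv_mul_cancel_left₀ hc]

/-- the scaling constant -/
def kap (C : ℝ) (k : ℕ) : ℝ := (|C| + 1) * (|C| + 1)⁻¹ ^ 2 ^ (k + 1)

lemma kap_ne (C : ℝ) (k : ℕ) : kap C k ≠ 0 := by
  unfold kap
  positivity

lemma self' (sa : SpA) (ds : DsA) {G : Type} [AddCommGroup G] [Fintype G] (k : ℕ) (g : G → ℂ)
    {C : ℝ} (hg : ∀ x, ‖g x‖ ≤ C) :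
    ∃ u ∈ DS (k + 1) G, 𝔼 x, g x * u x = ((kap C k * Q k g : ℝ) : ℂ) := by
  have hB : (0 : ℝ) < |C| + 1 := by positivity
  have hn : ‖(((|C| + 1)⁻¹ : ℝ) : ℂ)‖ = (|C| + 1)⁻¹ := by
    rw [Complex.norm_real, Real.norm_eq_abs, abs_of_pos (inv_pos.2 hB)]
  have hb : B1 fun x => (((|C| + 1)⁻¹ : ℝ) : ℂ) * g x := fun x => by
    rw [norm_mul, hn, inv_mul_le_iff₀ hB]
    linarith [hg x, le_abs_self C]
  obtain ⟨u, hu, e⟩ := sa.self k _ hb
  refine ⟨u, hu, ?_⟩
  rw [ds.qmul, hn] at e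
  simp only [mul_assoc, ← Finset.mul_expect] at e
  rw [kap, mul_assoc, Complex.ofReal_mul, e, ← mul_assoc, ← Complex.ofReal_mul,
    mul_inv_cancel₀ hB.ne', Complex.ofReal_one, one_mul]

lemma core1 (ds : DsA) {G P : Type} [AddCommGroup G] [Fintype G] [Fintype P] (k : ℕ)
    (F D : G × P → ℂ) (hD : ∀ p, (fun x => D (x, p)) ∈ DS (k + 1) G) :
    ‖𝔼 z, F z * D z‖ ^ 2 ^ (k + 1) ≤ 𝔼 p, Q k fun x => F (x, p) := by
  rcases isEmpty_or_nonempty P with hP | hP
  · simp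
  rw [exp_r]
  refine (pow_le_pow_left₀ (norm_nonneg _) (T3S.norm_exp_le _ _) _).trans ?_
  refine (T3S.Gcs.pow_exp_le _ (fun _ => norm_nonneg _) _).trans ?_
  exact Finset.expect_le_expect fun p _ => ds.gcs k (fun x => F (x, p)) _ (hD p)

lemma core2 (sa : SpA) (ds : DsA) {G P : Type} [AddCommGroup G] [Fintype G] [Fintype P] (k : ℕ)
    (F : G × P → ℂ) {C : ℝ} (hF : ∀ z, ‖F z‖ ≤ C) :
    ∃ D : G × P → ℂ, (∀ p, (fun x => D (x, p)) ∈ DS (k + 1) G) ∧
      𝔼 z, F z * D z = ((kap C k * 𝔼 p, Q k fun x => F (x, p) : ℝ) : ℂ) := by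
  choose u hu e using fun p => self' sa ds k (fun x => F (x, p)) fun x => hF (x, p)
  refine ⟨fun z => u z.2 z.1, hu, ?_⟩
  rw [exp_r, Finset.mul_expect, Complex.ofReal_expect]
  exact Finset.expect_congr rfl fun p _ => e p

variable {G : ℕ → Type} [∀ j, AddCommGroup (G j)] [∀ j, Fintype (G j)]

lemma mulDF (ds : DsA) (n : ℕ) (P : ℕ → Type) : Mul1 (DF G n P) where
  bd := fun F hF => ⟨1, fun j y => ds.b1 _ (hF j y.2) y.1⟩
  one := fun j p => ds.one n (G j)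
  mul := fun F hF F' hF' j p => ds.mul _ (hF j p) _ (hF' j p)
  cj := fun F hF j p => ds.cj _ (hF j p)

lemma mulD1 (ds : DsA) (n : ℕ) : Mul1 {D : Fm G | ∀ j, D j ∈ DS n (G j)} where
  bd := fun F hF => ⟨1, fun j y => ds.b1 _ (hF j) y⟩
  one := fun j => ds.one n (G j)
  mul := fun F hF F' hF' j => ds.mul _ (hF j) _ (hF' j)
  cj := fun F hF j => ds.cj _ (hF j)

lemma mp_pull {P P' : ℕ → Type} [∀ j, Fintype (P j)] [∀ j, Fintype (P' j)]
    (c : ∀ j, P' j → G j) (π : ∀ j, P' j → P j) (h : MP π) :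
    MP (Y := Pr G P) (Y' := Pr G P') fun j z => (z.1 + c j z.2, π j z.2) := by
  intro j φ
  rw [exp_r, exp_r φ, ← h j fun p => 𝔼 x, φ (x, p)]
  exact Finset.expect_congr rfl fun p _ => exp_sh (fun x => φ (x, π j p)) (c j p)

lemma mp_up {P : ℕ → Type} [∀ j, Fintype (P j)] [∀ j, Nonempty (P j)] (c : ∀ j, P j → G j) :
    MP (Y := G) (Y' := Pr G P) fun j z => z.1 + c j z.2 := by
  intro j φ
  rw [exp_r, ← Fintype.expect_const (ι := P j) (𝔼 y, φ y)]
  exact Finset.expect_congr rfl fun p _ => exp_sh φ (c j p)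

lemma mp_fst {P R : ℕ → Type} [∀ j, Fintype (P j)] [∀ j, Fintype (R j)] [∀ j, Nonempty (R j)] :
    MP (Y := P) (Y' := Pr P R) fun j z => z.1 := by
  intro j φ
  rw [exp_l]
  simp only [Fintype.expect_const]

section
variable (ua : UA) (ub : UB) (uc : UC) (sa : SpA) (ds : DsA) (k : ℕ)
include ub ds

lemma alg (P : ℕ → Type) [∀ j, Fintype (P j)] : Alg (FF G k P) := ub.gen _ (mulDF ds _ _)

lemma alg1 : Alg (F1 G k) := ub.gen _ (mulD1 ds _)

lemma mem {P : ℕ → Type} [∀ j, Fintype (P j)] : ∀ D ∈ DF G (k + 1) P, D ∈ FF G k P :=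
  fun D hD => ub.sub _ D hD ((mulDF ds _ _).bd D hD)

lemma pull {P P' : ℕ → Type} [∀ j, Fintype (P j)] [∀ j, Fintype (P' j)]
    (c : ∀ j, P' j → G j) (π : ∀ j, P' j → P j) (h : MP π) :
    ∀ F ∈ FF G k P, (fun j z => F j (z.1 + c j z.2, π j z.2)) ∈ FF G k P' :=
  ub.pull _ _ _ (mp_pull c π h) (alg ub ds k P') fun D hD =>
    mem ub ds k _ fun j p => ds.shift (c j p) _ (hD j (π j p))

lemma up {P : ℕ → Type} [∀ j, Fintype (P j)] [∀ j, Nonempty (P j)] (c : ∀ j, P j → G j) :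
    ∀ b ∈ F1 G k, (fun j z => b j (z.1 + c j z.2)) ∈ FF G k P :=
  ub.pull _ _ _ (mp_up c) (alg ub ds k P) fun D hD =>
    mem ub ds k _ fun j p => ds.shift (c j p) _ (hD j)

lemma shift1 (t : ∀ j, G j) : ∀ b ∈ F1 G k, (fun j x => b j (x + t j)) ∈ F1 G k :=
  ub.pull (fun j x => x + t j) _ _ (fun j φ => exp_sh φ (t j)) (alg1 ub ds k) fun D hD =>
    have h : (fun j x => D j (x + t j)) ∈ {D : Fm G | ∀ j, D j ∈ DS (k + 1) (G j)} :=
      fun j => ds.shift (t j) _ (hD j)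
    ub.sub _ _ h ((mulD1 ds _).bd _ h)

include ua sa

lemma ort {P : ℕ → Type} [∀ j, Fintype (P j)] (F : Fm (Pr G P)) (hF : Bd F) :
    Nq k F ↔ Ort F (FF G k P) := by
  constructor
  · intro h
    refine ua.ort_cs F _ hF (mulDF ds _ _).bd fun D hD => ua.eq_of _ 0 ?_
    exact lim1 (fun j => core1 ds k (F j) (D j) (hD j)) h
  · intro h
    obtain ⟨C, hC⟩ := id hF
    choose D hD e using fun j => core2 sa ds k (F j) (hC j)
    have h1 := ua.tend _ (ua.bd_mul F D hF ((mulDF ds _ _).bd D hD))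
    rw [h D (mem ub ds k D hD)] at h1
    exact lim2 (kap_ne C k) e h1

lemma ort1 (f : Fm G) (hf : Bd f) :
    Tendsto (fun j => Q k (f j)) UU (𝓝 0) ↔ Ort f (F1 G k) := by
  constructor
  · intro h
    refine ua.ort_cs f _ hf (mulD1 ds _).bd fun D hD => ua.eq_of _ 0 ?_
    exact lim1 (fun j => ds.gcs k (f j) (D j) (hD j)) h
  · intro h
    obtain ⟨C, hC⟩ := id hf
    choose D hD e using fun j => self' sa ds k (f j) (hC j)
    have hb : Bd D := (mulD1 ds _).bd D hD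
    have h1 := ua.tend _ (ua.bd_mul f D hf hb)
    rw [h D (ub.sub _ D hD hb)] at h1
    exact lim2 (kap_ne C k) e h1

lemma ort_pull {P P' : ℕ → Type} [∀ j, Fintype (P j)] [∀ j, Fintype (P' j)]
    (c : ∀ j, P' j → G j) (π : ∀ j, P' j → P j) (h : MP π) (H : Fm (Pr G P)) (hH : Bd H)
    (ho : Ort H (FF G k P)) :
    Ort (Y := Pr G P') (fun j z => H j (z.1 + c j z.2, π j z.2)) (FF G k P') := by
  refine (ort ua ub sa ds k _ (ua.bd_comp H _ hH)).1 ?_
  refine ((ort ua ub sa ds k H hH).2 ho).congr fun j => ?_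
  rw [← ua.mp_real π h j fun p => Q k fun x => H j (x, p)]
  exact Finset.expect_congr rfl fun p _ => (ds.qshift k (fun x => H j (x, π j p)) (c j p)).symm

lemma pullP {P P' : ℕ → Type} [∀ j, Fintype (P j)] [∀ j, Fintype (P' j)]
    (c : ∀ j, P' j → G j) (π : ∀ j, P' j → P j) (F F' : Fm (Pr G P)) (h : MP π)
    (hp : IsP k F F') : IsP k (P := P') (fun j z => F j (z.1 + c j z.2, π j z.2))
      fun j z => F' j (z.1 + c j z.2, π j z.2) := by
  have h1 : Bd (Y := Pr G P') fun j z => F j (z.1 + c j z.2, π j z.2) :=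
    ua.bd_comp F (fun j (z : Pr G P' j) => (z.1 + c j z.2, π j z.2)) hp.1
  have h2 := pull ub ds k c π h F' hp.2.1
  have h3 := ort_pull ua ub sa ds k c π h (fun j z => F j z - F' j z)
    (ua.bd_sub F F' hp.1 ((alg ub ds k P).bd _ hp.2.1)) hp.2.2
  exact ⟨h1, h2, h3⟩

include uc

lemma avg {P R : ℕ → Type} [∀ j, Fintype (P j)] [∀ j, Fintype (R j)] [∀ j, Nonempty (R j)] :
    ∀ F ∈ FF G k (Pr P R), (fun j z => 𝔼 r, F j (z.1, (z.2, r))) ∈ FF G k P := by
  intro F hF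
  have hb : Bd F := (alg ub ds k _).bd F hF
  refine uc.dperp _ _ (alg ub ds k P) (ua.bd_exp (Y := Pr G P) (R := R)
    (fun j y => F j (y.1.1, (y.1.2, y.2))) (ua.bd_comp F _ hb)) fun r hr ho => ?_
  rw [← ort_pull ua ub sa ds k (fun _ _ => 0) _ mp_fst r hr ho F hF]
  refine ua.congr _ _ (Eventually.of_forall fun j => ?_)
  rw [exp_l, exp_l]
  refine Finset.expect_congr rfl fun x _ => ?_
  rw [exp_l]
  refine Finset.expect_congr rfl fun p _ => ?_
  simp only [add_zero]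
  rw [mul_comm, Finset.mul_expect]

lemma down {P : ℕ → Type} [∀ j, Fintype (P j)] [∀ j, Nonempty (P j)] :
    ∀ F ∈ FF G k P, (fun j x => 𝔼 p, F j (x, p)) ∈ F1 G k := by
  intro F hF
  have hb : Bd F := (alg ub ds k _).bd F hF
  refine uc.dperp _ _ (alg1 ub ds k) (ua.bd_exp F hb) fun r hr ho => ?_
  have h1 : Nq k (P := P) fun j z => r j z.1 := by
    refine ((ort1 ua ub sa ds k r hr).2 ho).congr fun j => ?_
    exact (Fintype.expect_const _).symm
  rw [← (ort ua ub sa ds k _ (ua.bd_comp r _ hr)).1 h1 F hF]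
  refine ua.congr _ _ (Eventually.of_forall fun j => ?_)
  rw [exp_l]
  refine Finset.expect_congr rfl fun x _ => ?_
  rw [mul_comm, Finset.mul_expect]

omit ua sa in
lemma pj (F : Fm (Pr G G)) (hF : Bd F) : IsP k F (Pj k F) := by
  obtain ⟨F', h1, h2⟩ := uc.proj _ F (alg ub ds k G) hF
  have h : ∃ F', IsP k F F' := ⟨F', hF, h1, h2⟩
  rw [Pj, dif_pos h]
  exact h.choose_spec

end

end FAa

theorem fa : FAR := fun ua ub uc sa ds =>
  { alg := fun G _ _ k P _ => FAa.alg ub ds k P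
    alg1 := fun G _ _ k => FAa.alg1 ub ds k
    mem := fun k _ _ => FAa.mem ub ds k
    ort := fun k _ _ => FAa.ort ua ub sa ds k
    ort1 := fun k => FAa.ort1 ua ub sa ds k
    pull := fun k _ _ _ _ => FAa.pull ub ds k
    pullP := fun k _ _ _ _ => FAa.pullP ua ub sa ds k
    avg := fun k _ _ _ _ _ => FAa.avg ua ub uc sa ds k
    down := fun k _ _ _ => FAa.down ua ub uc sa ds k
    up := fun k _ _ _ => FAa.up ub ds k
    shift1 := fun k => FAa.shift1 ub ds k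
    pj := fun k => FAa.pj ub uc ds k }

end T3u

end
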