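import Pool.Agent.MP_154433_an.t3u.Spec

/-! A spectral gap along the ultrafilter. -/

set_option autoImplicit false

open Filter Topology Function Finset
open scoped BigOperators ComplexConjugate

noncomputable section

namespace T3u

namespace Gap

variable {G : Type} [Fintype G] {l : G → ℝ} {η : ℝ}

lemma card_le (hη : 0 < η) (h0 : ∀ i, 0 ≤ l i) (h1 : ∑ i, l i ≤ 1) {α : Type} [Fintype α]
    {f : α → G} (hf : Injective f) (h : ∀ a, η ≤ l (f a)) : Fintype.card α ≤ ⌈1 / η⌉₊ := by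
  classical
  have h2 : (Fintype.card α : ℝ) * η ≤ ∑ a, l (f a) := by
    have := Finset.card_nsmul_le_sum univ (fun a => l (f a)) η fun a _ => h a
    rwa [nsmul_eq_mul] at this
  have h3 : ∑ a, l (f a) ≤ ∑ i, l i := by
    rw [← Finset.sum_image (s := univ) (g := f) (f := l) fun a _ b _ e => hf e]
    exact Finset.sum_le_sum_of_subset_of_nonneg (subset_univ _) fun i _ _ => h0 i
  have h4 : (Fintype.card α : ℝ) ≤ 1 / η := (le_div_iff₀ hη).2 (by linarith)
  exact_mod_cast h4.trans (Nat.le_ceil _)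

lemma one (hη : 0 < η) (h0 : ∀ i, 0 ≤ l i) (h1 : ∑ i, l i ≤ 1) {s : ℝ} (hs : 0 < s) :
    ∃ p : Fin (⌈1 / η⌉₊ + 1) × Fin (⌈1 / η⌉₊ + 1), ∃ ι : Fin p.2 → G, Injective ι ∧
      (∀ i, η + (p.1 + 1) * s ≤ l i ↔ ∃ n, ι n = i) ∧
      ∀ i, l i < η + p.1 * s ∨ η + (p.1 + 1) * s ≤ l i := by
  classical
  obtain ⟨t, ht⟩ : ∃ t : Fin (⌈1 / η⌉₊ + 1), ∀ i, l i < η + t * s ∨ η + (t + 1) * s ≤ l i := by
    by_contra! h
    choose f a b using h
    have key : ∀ t t', f t = f t' → t ≤ t' := fun t t' e => by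
      have h2 := (a t).trans_lt (e ▸ b t')
      have h3 : (t : ℝ) < t' + 1 := lt_of_mul_lt_mul_right (by linarith) hs.le
      have h4 : (t : ℕ) < t' + 1 := by exact_mod_cast h3
      exact Nat.lt_succ_iff.1 h4
    have := card_le hη h0 h1 (f := f) (fun t t' e => (key t t' e).antisymm (key t' t e.symm))
      fun t => le_trans (le_add_of_nonneg_right (by positivity)) (a t)
    simp at this
  let e := (Fintype.equivFin {i // η + (t + 1) * s ≤ l i}).symm
  have h2 := card_le hη h0 h1 (α := {i // η + (t + 1) * s ≤ l i}) Subtype.val_injective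
    fun i => le_trans (le_add_of_nonneg_right (by positivity)) i.2
  exact ⟨(t, ⟨_, Nat.lt_succ_of_le h2⟩), fun n => e n, Subtype.val_injective.comp e.injective,
    fun i => ⟨fun h => ⟨e.symm ⟨i, h⟩, by simp⟩, fun ⟨n, h⟩ => h ▸ (e n).2⟩, ht⟩

end Gap

theorem gap : GapR := by
  intro G _ _ l η hη h0 h1
  have hs : 0 < η / (⌈1 / η⌉₊ + 1 : ℝ) := by positivity
  obtain ⟨⟨t, d⟩, h⟩ := (Ultrafilter.eventually_exists_iff (f := UU)).1
    (Eventually.of_forall fun j => Gap.one hη (h0 j) (h1 j) hs)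
  obtain ⟨ι, hι⟩ := Filter.skolem.1 h
  refine ⟨d, _, _, ι, le_add_of_nonneg_right (by positivity), by nlinarith, ?_, hι⟩
  have h2 : (t : ℝ) + 1 ≤ ⌈1 / η⌉₊ + 1 := by exact_mod_cast t.2
  have h3 := mul_le_mul_of_nonneg_right h2 hs.le
  rw [mul_div_cancel₀ _ (by positivity)] at h3
  linarith

end T3u

end
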