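import Pool.Agent.MP_154433_an.t3s.Spec

/-! The growth hypothesis of the problem implies the logarithmic growth of the partial sums. -/

set_option autoImplicit false

open Filter Topology Finset

namespace T3u

open Pool.Agent.MP_154433_an.T3S (Gr Wt)

theorem harm (a : ℕ) (M : ℕ) :
    Real.log ((a + M + 1 : ℕ) : ℝ) - Real.log ((a + 1 : ℕ) : ℝ) ≤
      ∑ i ∈ range M, (((a + i + 1 : ℕ) : ℝ))⁻¹ := by
  induction M with
  | zero => simp
  | succ M ih =>
    rw [sum_range_succ]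
    have h0 : (0 : ℝ) < ((a + M + 1 : ℕ) : ℝ) := by positivity
    have h1 : Real.log ((a + (M + 1) + 1 : ℕ) : ℝ) - Real.log ((a + M + 1 : ℕ) : ℝ) ≤
        (((a + M + 1 : ℕ) : ℝ))⁻¹ := by
      rw [← Real.log_div (by positivity) h0.ne']
      refine (Real.log_le_sub_one_of_pos (by positivity)).trans (le_of_eq ?_)
      field_simp
      push_cast
      ring
    linarith

theorem gr_one {σ : ℕ → ℝ} (h0 : ∀ n, 0 ≤ σ n)
    (h : Tendsto (fun n : ℕ => (n : ℝ) * σ n) atTop atTop) : Gr σ 1 := by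
  refine tendsto_atTop.2 fun A => ?_
  obtain ⟨a, ha⟩ := eventually_atTop.1 (tendsto_atTop.1 h (2 * |A|))
  have hl : Tendsto (fun M : ℕ => Real.log M) atTop atTop :=
    Real.tendsto_log_atTop.comp tendsto_natCast_atTop_atTop
  filter_upwards [eventually_ge_atTop (a + 1), hl.eventually_gt_atTop 0,
    hl.eventually_ge_atTop (2 * Real.log ((a + 1 : ℕ) : ℝ))] with M h1 h2 h3
  obtain ⟨m, rfl⟩ := Nat.exists_eq_add_of_le h1
  rw [pow_one, le_div_iff₀ h2]
  have e1 := harm a m
  have e2 : ∑ i ∈ range m, 2 * |A| * (((a + i + 1 : ℕ) : ℝ))⁻¹ ≤ Wt σ (a + 1 + m) := by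
    rw [Wt, sum_range_add]
    refine le_add_of_nonneg_of_le (sum_nonneg fun i _ => h0 i) (sum_le_sum fun i _ => ?_)
    have hp : (0 : ℝ) < ((a + i + 1 : ℕ) : ℝ) := by positivity
    have := ha (a + 1 + i) (by omega)
    rw [← div_eq_mul_inv, div_le_iff₀ hp, mul_comm (σ _)]
    rwa [show a + i + 1 = a + 1 + i by omega]
  rw [← mul_sum] at e2
  rw [show a + m + 1 = a + 1 + m by omega] at e1
  have e3 := mul_le_mul_of_nonneg_left e1 (show 0 ≤ 2 * |A| by positivity)
  have e4 := le_abs_self A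
  have e5 := abs_nonneg A
  nlinarith

end T3u
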