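import Pool.Agent.MP_154433_an.t3u.Spec

/-! The induction on the order: families orthogonal to the nets are uniform. -/

set_option autoImplicit false
set_option linter.unusedVariables false

open Filter Topology Function Finset
open scoped BigOperators ComplexConjugate
open Pool.Agent.MP_154433_an.T3S (B1 dd Q ip LG)

noncomputable section

namespace T3u

namespace Ind

variable {G : ℕ → Type} [∀ j, AddCommGroup (G j)] [∀ j, Fintype (G j)]

lemma base (ua : UA) (S : Set (Fm G)) (hS : Mul1 S) (f : Fm G) (hf : Bd f) (ho : Ort f S) :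
    Tendsto (fun j => Q 0 (f j)) UU (𝓝 0) := by
  have h1 : I f = 0 := by
    have h := ho _ hS.one
    simpa only [mul_one] using h
  have h2 := ua.tend f hf
  rw [h1] at h2
  have h3 := (h2.norm).pow 2
  simpa only [Q, norm_zero, ne_eq, OfNat.ofNat_ne_zero, not_false_eq_true, zero_pow] using h3

lemma low (ub : UB) (uc : UC) (fa : FA) (S : Set (Fm G)) (hS : Mul1 S) (k : ℕ)
    (ih : ∀ f : Fm G, Bd f → Ort f S → Tendsto (fun j => Q k (f j)) UU (𝓝 0)) :
    F1 G k ⊆ CS S := by
  intro b hb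
  refine uc.dperp (CS S) b (ub.gen S hS) ((fa.alg1 G k).bd b hb) fun r hr hor => ?_
  have h1 : Ort r S := fun c hc => hor c (ub.sub S c hc (hS.bd c hc))
  have h2 := (fa.ort1 k r hr).1 (ih r hr h1) b hb
  simpa only [mul_comm] using h2

lemma scale (ds : DsA) (k : ℕ) (f : Fm G) (hf : Bd f) :
    ∃ c : ℂ, (∀ j, B1 fun x => c * f j x) ∧
      (Tendsto (fun j => Q k fun x => c * f j x) UU (𝓝 0) →
        Tendsto (fun j => Q k (f j)) UU (𝓝 0)) := by
  obtain ⟨C, hC⟩ := hf
  have hp : (0 : ℝ) < max C 1 := lt_of_lt_of_le one_pos (le_max_right _ _)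
  refine ⟨((max C 1)⁻¹ : ℝ), fun j x => ?_, fun h => ?_⟩
  · rw [norm_mul, Complex.norm_real, Real.norm_eq_abs, abs_of_pos (inv_pos.2 hp),
      inv_mul_le_iff₀ hp, mul_one]
    exact (hC j x).trans (le_max_left _ _)
  · have e : ∀ j, Q k (f j) = ‖((max C 1 : ℝ) : ℂ)‖ ^ 2 ^ (k + 1) *
        Q k fun x => (((max C 1)⁻¹ : ℝ) : ℂ) * f j x := by
      intro j
      rw [← ds.qmul]
      congr 1
      funext x
      rw [← mul_assoc, ← Complex.ofReal_mul, mul_inv_cancel₀ hp.ne', Complex.ofReal_one, one_mul]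
    have h2 := h.const_mul (‖((max C 1 : ℝ) : ℂ)‖ ^ 2 ^ (k + 1))
    rw [mul_zero] at h2
    exact h2.congr fun j => (e j).symm

end Ind

theorem ind : IndR := by
  intro ua ub uc ds fa vp st uni typ ent Γ _ _ Net hN N k
  obtain ⟨hS, hent⟩ := ent Γ Net hN N
  induction k with
  | zero => exact fun f hf ho => Ind.base ua _ hS f hf ho
  | succ k ih =>
    intro f hf ho
    have hA := Ind.low ub uc fa _ hS k ih
    have alg := ub.gen _ hS
    obtain ⟨c, hc1, hc2⟩ := Ind.scale ds (k + 1) f hf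
    by_contra hn
    obtain ⟨u, hu, hne⟩ := st k (fun j x => c * f j x) hc1 fun h => hn (hc2 h)
    obtain ⟨φ, b, hφ, hb, e⟩ := uni k u hu
    obtain ⟨θ, hθ, hmem⟩ := typ k φ hφ
    have h1 := hent (k + 1) φ θ hφ.un hθ (vp.mono (k + 1) _ _ hS hA hmem)
    have h2 := alg.cj _ (alg.mul φ h1 b (hA hb))
    have h3 := ua.ort_cs f _ hf hS.bd ho _ h2
    have h4 := ua.cmul c _ (ua.bd_mul f _ hf (alg.bd _ h2))
    rw [h3, mul_zero] at h4
    refine hne ?_
    simpa only [e, mul_assoc] using h4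

end T3u

end
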