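import Pool.Agent.MP_154433_an.t3u.Spec

/-! Functional calculus for positive kernels. -/

set_option autoImplicit false
set_option linter.unusedVariables false

open Filter Topology Function Finset
open scoped BigOperators ComplexConjugate

noncomputable section

namespace T3u

namespace Ker

section One

variable {G : Type} [AddCommGroup G] [Fintype G] [DecidableEq G]

def K (l : G → ℝ) (e : G → G → ℂ) (q : ℝ → ℝ) (x y : G) : ℂ :=
  ∑ i, (l i * q (l i) : ℝ) * (e i x * conj (e i y))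

variable {l : G → ℝ} {e : G → G → ℂ}

lemma le_one (h0 : ∀ i, 0 ≤ l i)
    (ho : ∀ i i', 𝔼 x, e i x * conj (e i' x) = if i = i' then 1 else 0)
    (h1 : ∀ x, ∑ i, l i * ‖e i x‖ ^ 2 ≤ 1) (i : G) : l i ≤ 1 := by
  have h2 : 𝔼 x, ‖e i x‖ ^ 2 = 1 := by
    have h3 := ho i i
    simp only [if_true, Complex.mul_conj'] at h3
    exact_mod_cast h3
  have h4 : 𝔼 x, l i * ‖e i x‖ ^ 2 ≤ 𝔼 _x : G, (1 : ℝ) := expect_le_expect fun x _ =>
    (single_le_sum (f := fun i => l i * ‖e i x‖ ^ 2)
      (fun i _ => mul_nonneg (h0 i) (sq_nonneg _)) (mem_univ i)).trans (h1 x)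
  rw [← mul_expect, h2, mul_one, Fintype.expect_const] at h4
  exact h4

omit [AddCommGroup G] [DecidableEq G] in
lemma bound (h0 : ∀ i, 0 ≤ l i) (h1 : ∀ x, ∑ i, l i * ‖e i x‖ ^ 2 ≤ 1) {q : ℝ → ℝ} {C : ℝ}
    (hC : 0 ≤ C) (hq : ∀ i, |q (l i)| ≤ C) (x y : G) : ‖K l e q x y‖ ≤ C := by
  refine (norm_sum_le _ _).trans ?_
  calc ∑ i, ‖((l i * q (l i) : ℝ) : ℂ) * (e i x * conj (e i y))‖
      ≤ ∑ i, C * ((l i * ‖e i x‖ ^ 2 + l i * ‖e i y‖ ^ 2) / 2) := by
        refine sum_le_sum fun i _ => ?_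
        rw [norm_mul, norm_mul, Complex.norm_real, Complex.norm_conj, Real.norm_eq_abs, abs_mul,
          abs_of_nonneg (h0 i)]
        have h2 : ‖e i x‖ * ‖e i y‖ ≤ (‖e i x‖ ^ 2 + ‖e i y‖ ^ 2) / 2 := by
          nlinarith [sq_nonneg (‖e i x‖ - ‖e i y‖)]
        calc l i * |q (l i)| * (‖e i x‖ * ‖e i y‖)
            ≤ l i * C * ((‖e i x‖ ^ 2 + ‖e i y‖ ^ 2) / 2) :=
              mul_le_mul (mul_le_mul_of_nonneg_left (hq i) (h0 i)) h2 (by positivity)
                (mul_nonneg (h0 i) hC)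
          _ = _ := by ring
    _ = C * ((∑ i, l i * ‖e i x‖ ^ 2 + ∑ i, l i * ‖e i y‖ ^ 2) / 2) := by
        rw [← mul_sum, ← sum_div, sum_add_distrib]
    _ ≤ C := mul_le_of_le_one_right hC (by linarith [h1 x, h1 y])

lemma conv (ho : ∀ i i', 𝔼 x, e i x * conj (e i' x) = if i = i' then 1 else 0) (q : ℝ → ℝ)
    (x y : G) : 𝔼 r, K l e (fun _ => 1) x (x + r) * K l e q (x + r) y =
      K l e (fun t => t * q t) x y := by
  have h1 : 𝔼 r, K l e (fun _ => 1) x (x + r) * K l e q (x + r) y =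
      𝔼 r, K l e (fun _ => 1) x r * K l e q r y :=
    Fintype.expect_equiv (Equiv.addLeft x) _ _ fun r => rfl
  rw [h1]
  have h2 : ∀ r, K l e (fun _ => 1) x r * K l e q r y = ∑ i, ∑ i',
      ((l i : ℂ) * (l i' * q (l i') : ℝ) * (e i x * conj (e i' y))) * (e i' r * conj (e i r)) := by
    intro r
    rw [K, K, sum_mul_sum]
    refine sum_congr rfl fun i _ => sum_congr rfl fun i' _ => ?_
    push_cast
    ring
  simp only [h2, expect_sum_comm, ← mul_expect, ho, mul_ite, mul_one, mul_zero, sum_ite_eq',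
    mem_univ, if_true]
  refine sum_congr rfl fun i _ => ?_
  push_cast
  ring

omit [AddCommGroup G] [DecidableEq G] in
lemma K_add (q q' : ℝ → ℝ) (x y : G) :
    K l e (fun t => q t + q' t) x y = K l e q x y + K l e q' x y := by
  rw [K, K, K, ← sum_add_distrib]
  refine sum_congr rfl fun i _ => ?_
  push_cast
  ring

omit [AddCommGroup G] [DecidableEq G] in
lemma K_sub (q q' : ℝ → ℝ) (x y : G) :
    K l e q x y - K l e q' x y = K l e (fun t => q t - q' t) x y := by
  rw [K, K, K, ← sum_sub_distrib]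
  refine sum_congr rfl fun i _ => ?_
  push_cast
  ring

omit [AddCommGroup G] [DecidableEq G] in
lemma K_const (c : ℝ) (x y : G) : K l e (fun _ => c) x y = c * K l e (fun _ => 1) x y := by
  rw [K, K, mul_sum]
  refine sum_congr rfl fun i _ => ?_
  push_cast
  ring

end One

lemma mp_snd {G : ℕ → Type} [∀ j, AddCommGroup (G j)] [∀ j, Fintype (G j)] :
    MP (Y := G) (Y' := Pr G G) fun j z => z.2 := fun j φ => by
  rw [← univ_product_univ, expect_product]
  exact Fintype.expect_const (ι := G j) (𝔼 y, φ y)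

lemma mp_sub {G : ℕ → Type} [∀ j, AddCommGroup (G j)] [∀ j, Fintype (G j)] :
    MP (Y := G) (Y' := Pr G G) fun j z => z.1 - z.2 := fun j φ => by
  rw [← univ_product_univ, expect_product]
  refine Eq.trans (expect_congr rfl fun s _ => ?_) (Fintype.expect_const (ι := G j) (𝔼 y, φ y))
  exact Fintype.expect_equiv (Equiv.subLeft s) _ _ fun r => rfl

end Ker

open Ker in
theorem ker : KerR := by
  intro ua ub fa G _ _ _ k l e h0 ho h1 hK q hq
  have hA := fa.alg G k G
  have hK1 : (fun j z => K (l j) (e j) (fun _ => 1) z.1 (z.1 + z.2)) ∈ FF G k G := by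
    simpa only [K, mul_one] using hK
  have step : ∀ p : ℝ → ℝ, (fun j z => K (l j) (e j) p z.1 (z.1 + z.2)) ∈ FF G k G →
      (fun j z => K (l j) (e j) (fun t => t * p t) z.1 (z.1 + z.2)) ∈ FF G k G := by
    intro p hp
    have a1 := fa.pull k (P' := Pr G G) (fun _ _ => 0) _ mp_snd _ hK1
    have a2 := fa.pull k (P' := Pr G G) (fun _ z => z.2) _ mp_sub _ hp
    have a3 := fa.avg k _ ((fa.alg G k (Pr G G)).mul _ a1 _ a2)
    refine (congrArg (· ∈ FF G k G) ?_).mp a3
    funext j z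
    rw [← conv (ho j) p]
    refine expect_congr rfl fun r _ => ?_
    have e1 : z.1 + r + (z.2 - r) = z.1 + z.2 := by abel
    simp only [add_zero, e1]
  have poly : ∀ p : Polynomial ℝ,
      (fun j z => K (l j) (e j) (fun t => p.eval t) z.1 (z.1 + z.2)) ∈ FF G k G := by
    intro p
    induction p using Polynomial.induction_on with
    | C a =>
      simp only [Polynomial.eval_C, K_const a]
      exact ub.cmul _ _ hA _ hK1
    | add p p' hp hp' =>
      simp only [Polynomial.eval_add, K_add]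
      exact hA.add _ hp _ hp'
    | monomial n a h =>
      have e1 : (fun t : ℝ => (Polynomial.C a * Polynomial.X ^ (n + 1)).eval t) =
          fun t => t * (Polynomial.C a * Polynomial.X ^ n).eval t := by
        funext t
        simp only [Polynomial.eval_mul, Polynomial.eval_C, Polynomial.eval_pow, Polynomial.eval_X]
        ring
      rw [e1]
      exact step _ h
  have hl : ∀ j i, l j i ∈ Set.Icc (0 : ℝ) 1 := fun j i =>
    ⟨h0 j i, le_one (h0 j) (ho j) (h1 j) i⟩
  obtain ⟨C, hC⟩ := isCompact_Icc.exists_bound_of_continuousOn (hq.continuousOn (s := Set.Icc 0 1))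
  refine hA.cl ⟨⟨max C 0, fun j z => bound (h0 j) (h1 j) (le_max_right _ _)
    (fun i => (hC _ (hl j i)).trans (le_max_left _ _)) _ _⟩, fun ε hε => ?_⟩
  obtain ⟨p, hp⟩ := exists_polynomial_near_of_continuousOn 0 1 q hq.continuousOn (√ε)
    (Real.sqrt_pos.2 hε)
  refine ⟨_, poly p, Eventually.of_forall fun j => expect_le univ_nonempty fun z _ => ?_⟩
  have h2 := bound (q := fun t => q t - p.eval t) (h0 j) (h1 j) (Real.sqrt_nonneg ε)
    (fun i => by rw [abs_sub_comm]; exact (hp _ (hl j i)).le) z.1 (z.1 + z.2)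
  rw [← K_sub] at h2
  exact (pow_le_pow_left₀ (norm_nonneg _) h2 2).trans (Real.sq_sqrt hε.le).le

end T3u

end
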