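import Pool.Agent.MP_154433_an.t3u.Spec

/-! Construction of the nets. -/

set_option autoImplicit false
set_option linter.unusedVariables false
set_option linter.unusedSectionVars false

open Filter Topology Function Finset
open scoped BigOperators ComplexConjugate
open Pool.Agent.MP_154433_an.T3S (B1 dd Q ip LG)

noncomputable section

namespace T3u

namespace Net

variable {Γ : ℕ → Type} [∀ N, AddCommGroup (Γ N)] [∀ N, Fintype (Γ N)]

variable (Γ) in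
/-- polynomial size -/
def SZ (a : ℕ → ℕ) : Prop := ∃ C : ℝ, 0 ≤ C ∧ ∀ N, (a N : ℝ) ≤ Real.exp (C * LG (Γ N))

theorem lg1 (N : ℕ) : 1 ≤ LG (Γ N) := by
  have : 0 ≤ Real.log (Fintype.card (Γ N)) := Real.log_natCast_nonneg _
  simp only [LG]
  linarith

theorem SZ.mono {a b : ℕ → ℕ} (h : SZ Γ b) (hab : ∀ N, a N ≤ b N) : SZ Γ a := by
  obtain ⟨C, h0, h⟩ := h
  exact ⟨C, h0, fun N => (Nat.cast_le.2 (hab N)).trans (h N)⟩

theorem SZ.mul {a b : ℕ → ℕ} (h : SZ Γ a) (h' : SZ Γ b) : SZ Γ fun N => a N * b N := by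
  obtain ⟨C, h0, h⟩ := h
  obtain ⟨C', h0', h'⟩ := h'
  refine ⟨C + C', add_nonneg h0 h0', fun N => ?_⟩
  rw [add_mul, Real.exp_add, Nat.cast_mul]
  exact mul_le_mul (h N) (h' N) (Nat.cast_nonneg _) (Real.exp_pos _).le

theorem SZ.one : SZ Γ fun _ => 1 := ⟨0, le_rfl, fun N => by simp⟩

theorem SZ.pow {a : ℕ → ℕ} (h : SZ Γ a) (n : ℕ) : SZ Γ fun N => a N ^ n := by
  induction n with
  | zero => simpa only [pow_zero] using SZ.one
  | succ n ih => simpa only [pow_succ] using ih.mul h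

theorem SZ.add {a b : ℕ → ℕ} (h : SZ Γ a) (h' : SZ Γ b) : SZ Γ fun N => a N + b N := by
  obtain ⟨C, h0, h⟩ := h
  obtain ⟨C', h0', h'⟩ := h'
  refine ⟨C + C' + 1, by positivity, fun N => ?_⟩
  have l := lg1 (Γ := Γ) N
  have e1 : Real.exp (C * LG (Γ N)) ≤ Real.exp ((C + C') * LG (Γ N)) :=
    Real.exp_le_exp.2 (by nlinarith)
  have e2 : Real.exp (C' * LG (Γ N)) ≤ Real.exp ((C + C') * LG (Γ N)) :=
    Real.exp_le_exp.2 (by nlinarith)
  have e3 : 2 ≤ Real.exp (LG (Γ N)) := by linarith [Real.add_one_le_exp (LG (Γ N))]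
  have e4 := Real.exp_pos ((C + C') * LG (Γ N))
  rw [add_mul (C + C'), one_mul, Real.exp_add, Nat.cast_add]
  nlinarith [h N, h' N]

theorem SZ.card : SZ Γ fun N => Fintype.card (Γ N) := by
  refine ⟨1, zero_le_one, fun N => ?_⟩
  have h : (0 : ℝ) < Fintype.card (Γ N) := Nat.cast_pos.2 Fintype.card_pos
  rw [one_mul, LG, Real.exp_add, Real.exp_log h]
  nlinarith [Real.add_one_le_exp (1 : ℝ)]

/-- the error of an approximation -/
def er {G : Type} [AddCommGroup G] [Fintype G] (k : ℕ) {n : ℕ} (c : Fin n → ℂ)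
    (b : Fin n → (Fin k → Bool) → G → ℂ) (φ : G → ℂ) (θ : (Fin k → G) → ℂ) : ℝ :=
  𝔼 z : G × (Fin k → G), ‖conj (cp k φ z.2 z.1) * θ z.2 -
    ∑ i, c i * ∏ e : Fin k → Bool, b i e (z.1 + vx e z.2)‖ ^ 2

theorem er_le {G : Type} [AddCommGroup G] [Fintype G] (k : ℕ) {n : ℕ} (c c' : Fin n → ℂ)
    (b : Fin n → (Fin k → Bool) → G → ℂ) (φ : G → ℂ) (θ : (Fin k → G) → ℂ)
    (hb : ∀ i e, Un (b i e)) :
    er k c' b φ θ ≤ 2 * er k c b φ θ + 2 * (∑ i, ‖c i - c' i‖) ^ 2 := by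
  unfold er
  rw [mul_expect, ← expect_const (univ_nonempty (α := G × (Fin k → G)))
    (2 * (∑ i, ‖c i - c' i‖) ^ 2), ← expect_add_distrib]
  refine expect_le_expect fun z _ => ?_
  set X := conj (cp k φ z.2 z.1) * θ z.2
  set P : Fin n → ℂ := fun i => ∏ e : Fin k → Bool, b i e (z.1 + vx e z.2)
  have hP : ∀ i, ‖P i‖ = 1 := fun i => by
    rw [norm_prod]
    exact prod_eq_one fun e _ => hb i e _
  have h1 : X - ∑ i, c' i * P i = (X - ∑ i, c i * P i) + ∑ i, (c i - c' i) * P i := by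
    simp only [sub_mul, sum_sub_distrib]
    ring
  have h2 : ‖∑ i, (c i - c' i) * P i‖ ≤ ∑ i, ‖c i - c' i‖ :=
    (norm_sum_le _ _).trans (le_of_eq (sum_congr rfl fun i _ => by rw [norm_mul, hP, mul_one]))
  have h3 : ‖X - ∑ i, c' i * P i‖ ≤ ‖X - ∑ i, c i * P i‖ + ∑ i, ‖c i - c' i‖ := by
    rw [h1]
    exact (norm_add_le _ _).trans (add_le_add le_rfl h2)
  have h4 := pow_le_pow_left₀ (norm_nonneg _) h3 2
  show ‖X - ∑ i, c' i * P i‖ ^ 2 ≤ 2 * ‖X - ∑ i, c i * P i‖ ^ 2 + 2 * (∑ i, ‖c i - c' i‖) ^ 2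
  nlinarith [sq_nonneg (‖X - ∑ i, c i * P i‖ - ∑ i, ‖c i - c' i‖)]

variable (Γ) in
/-- one level -/
structure Lev where
  A : ∀ N, Finset (Γ N → ℂ)
  size : SZ Γ fun N => (A N).card
  un : ∀ N, ∀ v ∈ A N, Un v
  one : ∀ N, (fun _ => 1) ∈ A N

/-- the next level -/
structure Nx (C : ℝ) (k : ℕ) {n : ℕ} (c : Fin n → ℂ) (ε : ℝ) (A A' : Lev Γ) : Prop where
  sub : ∀ N, A.A N ⊆ A'.A N
  mul : ∀ N, ∀ v ∈ A.A N, ∀ v' ∈ A.A N, (fun x => v x * v' x) ∈ A'.A N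
  cj : ∀ N, ∀ v ∈ A.A N, (fun x => conj (v x)) ∈ A'.A N
  rep : ∀ N (b : Fin n → (Fin k → Bool) → Γ N → ℂ) (φ : Γ N → ℂ) (θ : (Fin k → Γ N) → ℂ),
    (∀ i e, b i e ∈ A.A N) → Un φ → Un θ → er k c b φ θ ≤ ε →
    ∃ v ∈ A'.A N, ∃ ζ : ℂ, ‖ζ‖ = 1 ∧ 𝔼 x, ‖φ x - ζ * v x‖ ^ 2 ≤ C * ε

theorem step (hR : RepS) (hC : CntS) (d : ℕ) (hd : ∀ N, Rk d (Γ N)) (k : ℕ) :
    ∃ C : ℝ, 0 ≤ C ∧ ∀ (n : ℕ) (c : Fin n → ℂ) (ε : ℝ) (A : Lev Γ), ∃ A', Nx C k c ε A A' := by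
  classical
  obtain ⟨C, h0, hR⟩ := hR k
  obtain ⟨D, hC⟩ := hC k d
  choose S s1 s2 s3 using fun N => hC (Γ N) (hd N)
  refine ⟨C, h0, fun n c ε A => ?_⟩
  have hr : ∀ N (b : Fin n → (Fin k → Bool) → Γ N → ℂ), ∃ φ' : Γ N → ℂ, Un φ' ∧ ∀ φ θ, Un φ → Un θ →
      er k c b φ θ ≤ ε → ∃ p, Pol k p ∧ 𝔼 x, ‖φ x - φ' x * p x‖ ^ 2 ≤ C * ε := fun N b => by
    by_cases h : ∃ φ θ, Un φ ∧ Un θ ∧ er k c b φ θ ≤ ε
    · obtain ⟨φ', θ', h1, h2, h3⟩ := h
      exact ⟨φ', h1, fun φ θ a1 a2 a3 => hR (Γ N) φ φ' θ θ'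
        (fun z => ∑ i, c i * ∏ e : Fin k → Bool, b i e (z.1 + vx e z.2)) ε a1 h1 a2 h2 a3 h3⟩
    · exact ⟨fun _ => 1, fun _ => norm_one, fun φ θ a1 a2 a3 => (h ⟨φ, θ, a1, a2, a3⟩).elim⟩
  choose r r1 r2 using hr
  let Bs : ∀ N, Finset (Fin n → (Fin k → Bool) → Γ N → ℂ) := fun N =>
    Fintype.piFinset fun _ => Fintype.piFinset fun _ => A.A N
  refine ⟨⟨fun N => A.A N ∪ image₂ (fun v v' x => v x * v' x) (A.A N) (A.A N) ∪
    (A.A N).image (fun v x => conj (v x)) ∪ image₂ (fun b p x => r N b x * p x) (Bs N) (S N),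
    ?_, fun N v hv => ?_, fun N => ?_⟩, fun N => ?_, fun N v hv v' hv' => ?_, fun N v hv => ?_,
    fun N b φ θ hb a1 a2 a3 => ?_⟩
  · refine (((A.size.add (A.size.mul A.size)).add A.size).add
      (((A.size.pow (Fintype.card (Fin k → Bool))).pow n).mul (SZ.card.pow D))).mono fun N => ?_
    refine (card_union_le _ _).trans (add_le_add ((card_union_le _ _).trans (add_le_add
      ((card_union_le _ _).trans (add_le_add le_rfl (card_image₂_le _ _ _))) card_image_le))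
      ((card_image₂_le _ _ _).trans (Nat.mul_le_mul (le_of_eq ?_) (s1 N))))
    simp only [Bs, Fintype.card_piFinset, prod_const, card_univ, Fintype.card_fin]
  · simp only [mem_union, mem_image₂, mem_image] at hv
    rcases hv with ((hv | ⟨a, ha, a', ha', rfl⟩) | ⟨a, ha, rfl⟩) | ⟨b, -, p, hp, rfl⟩
    · exact A.un N v hv
    · intro x
      rw [norm_mul, A.un N a ha, A.un N a' ha', mul_one]
    · intro x
      rw [RCLike.norm_conj, A.un N a ha]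
    · intro x
      rw [norm_mul, r1, s2 N p hp, mul_one]
  · exact mem_union_left _ (mem_union_left _ (mem_union_left _ (A.one N)))
  · exact fun v hv => mem_union_left _ (mem_union_left _ (mem_union_left _ hv))
  · exact mem_union_left _ (mem_union_left _ (mem_union_right _ (mem_image₂_of_mem hv hv')))
  · exact mem_union_left _ (mem_union_right _ (mem_image_of_mem _ hv))
  · obtain ⟨p, hp, h⟩ := r2 N b φ θ a1 a2 a3
    obtain ⟨p0, hp0, ζ, hζ, e⟩ := s3 N p hp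
    refine ⟨fun x => r N b x * p0 x, mem_union_right _ (mem_image₂_of_mem
      (Fintype.mem_piFinset.2 fun i => Fintype.mem_piFinset.2 (hb i)) hp0), ζ, hζ, ?_⟩
    refine le_of_eq_of_le (expect_congr rfl fun x _ => ?_) h
    rw [e, mul_left_comm]

/-- every triple occurs arbitrarily late -/
theorem often : ∃ g : ℕ → ℕ × ℕ × ℕ, ∀ t m, ∃ m1, m ≤ m1 ∧ g m1 = t := by
  obtain ⟨f, hf⟩ := exists_surjective_nat (ℕ × ℕ × ℕ)
  refine ⟨fun m => f m.unpair.1, fun t m => ?_⟩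
  obtain ⟨i, rfl⟩ := hf t
  exact ⟨Nat.pair i m, Nat.right_le_pair _ _, by simp only [Nat.unpair_pair]⟩

end Net

open Net in
theorem net : NetR := by
  intro hR hC d Γ _ _ hd
  choose C C0 st hst using step hR hC d hd
  obtain ⟨g, hg⟩ := often
  let q : ∀ n : ℕ, ℕ → (Fin n → ℂ) × ℝ := fun n => TopologicalSpace.denseSeq _
  let L0 : Lev Γ := ⟨fun _ => {fun _ => 1}, SZ.one.mono fun N => (card_singleton _).le,
    fun N v hv x => by rw [mem_singleton.1 hv, norm_one], fun N => mem_singleton_self _⟩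
  let L : ℕ → Lev Γ := fun m => Nat.rec L0
    (fun m A => st (g m).1 (g m).2.1 (q (g m).2.1 (g m).2.2).1 (q (g m).2.1 (g m).2.2).2 A) m
  have hL : ∀ m, Nx (C (g m).1) (g m).1 (q (g m).2.1 (g m).2.2).1 (q (g m).2.1 (g m).2.2).2
      (L m) (L (m + 1)) := fun m => hst _ _ _ _ _
  have mono : ∀ m m' N, m ≤ m' → (L m).A N ⊆ (L m').A N := fun m m' N h =>
    monotone_nat_of_le_succ (f := fun m => (L m).A N) (fun m => (hL m).sub N) h
  refine ⟨fun m => (L m).A, fun m => (L m).size, fun m => (L m).un, fun m => (L m).one, mono,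
    fun m => (hL m).mul, fun m => (hL m).cj, fun k => ⟨4 * C k, by linarith [C0 k], ?_⟩⟩
  intro n c m ε hε
  have ho : IsOpen {y : (Fin n → ℂ) × ℝ | (∑ i, ‖c i - y.1 i‖) ^ 2 < ε / 2 ∧ 3 * ε < y.2 ∧
      y.2 < 4 * ε} := by
    have k1 : IsOpen {y : (Fin n → ℂ) × ℝ | (∑ i, ‖c i - y.1 i‖) ^ 2 < ε / 2} :=
      isOpen_lt (by fun_prop) continuous_const
    have k2 : IsOpen {y : (Fin n → ℂ) × ℝ | 3 * ε < y.2} := isOpen_lt continuous_const continuous_snd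
    have k3 : IsOpen {y : (Fin n → ℂ) × ℝ | y.2 < 4 * ε} := isOpen_lt continuous_snd continuous_const
    exact k1.inter (k2.inter k3)
  obtain ⟨i, h1, h2, h3⟩ := (TopologicalSpace.denseRange_denseSeq ((Fin n → ℂ) × ℝ)).exists_mem_open
    ho ⟨(c, 7 / 2 * ε), by simp [hε], by show 3 * ε < 7 / 2 * ε; linarith,
      by show 7 / 2 * ε < 4 * ε; linarith⟩
  obtain ⟨m1, hm, e⟩ := hg (k, n, i) m
  have h := hL m1
  rw [e] at h
  refine ⟨m1 + 1, fun N b φ θ hb a1 a2 a3 => ?_⟩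
  have h4 := er_le k c (q n i).1 b φ θ fun i e => (L m).un N _ (hb i e)
  have a3' : er k c b φ θ ≤ ε := a3
  obtain ⟨v, hv, ζ, hζ, h5⟩ := h.rep N b φ θ (fun i e => mono m m1 N hm (hb i e)) a1 a2
    (show er k (q n i).1 b φ θ ≤ (q n i).2 by
      have h1' : (∑ j, ‖c j - (q n i).1 j‖) ^ 2 < ε / 2 := h1
      have h2' : 3 * ε < (q n i).2 := h2
      linarith)
  refine ⟨v, hv, ζ, hζ, h5.trans ?_⟩
  have h3' : (q n i).2 < 4 * ε := h3
  show C k * (q n i).2 ≤ 4 * C k * ε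
  nlinarith [C0 k]

end T3u

end
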