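import Pool.Agent.MP_154433_an.t3u.Spec
import Pool.Agent.MP_154433_an.t3s.Four

/-! Functions whose uniformity norm is close to one are close to polynomial phases. -/

set_option autoImplicit false

open Filter Topology Function Finset
open scoped BigOperators ComplexConjugate
open Pool.Agent.MP_154433_an.T3S (B1 dd Q ip LG)
open Pool.Agent.MP_154433_an

noncomputable section

namespace T3u

namespace P99

variable {G : Type} [AddCommGroup G] [Fintype G] {f g f' g' : G → ℂ}

/-- the square of the distance -/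
def D (f g : G → ℂ) : ℝ := 𝔼 x, ‖f x - g x‖ ^ 2

omit [AddCommGroup G] [Fintype G] in
lemma un_mul (hf : Un f) (hg : Un g) : Un fun x => f x * g x := fun x => by
  rw [norm_mul, hf, hg, one_mul]

omit [AddCommGroup G] [Fintype G] in
lemma un_cj (hf : Un f) : Un fun x => conj (f x) := fun x => by rw [RCLike.norm_conj, hf]

omit [Fintype G] in
lemma un_dd (hf : Un f) (h : G) : Un (dd h f) := un_mul (fun _ => hf _) (un_cj hf)

omit [AddCommGroup G] [Fintype G] in
lemma mul_cj (hf : Un f) (x : G) : f x * conj (f x) = 1 := by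
  rw [Complex.mul_conj', hf]
  simp

lemma D_eq (hf : Un f) (hg : Un g) : D f g = 2 - 2 * (ip f g).re := by
  have e : D f g = 𝔼 x, (2 - 2 * (f x * conj (g x)).re) := by
    refine expect_congr rfl fun x _ => ?_
    rw [Complex.sq_norm, Complex.normSq_sub, ← Complex.sq_norm, ← Complex.sq_norm, hf, hg]
    ring
  rw [e, expect_sub_distrib, expect_const univ_nonempty, ← mul_expect, ip, T3S.re_exp]

omit [AddCommGroup G] in
lemma D_le {u v : G → ℂ} (h : ∀ x, ‖f x - g x‖ ≤ ‖u x - f' x‖ + ‖v x - g' x‖) :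
    D f g ≤ 2 * D u f' + 2 * D v g' := by
  simp only [D, mul_expect, ← expect_add_distrib]
  refine expect_le_expect fun x _ => ?_
  nlinarith [h x, norm_nonneg (f x - g x), sq_nonneg (‖u x - f' x‖ - ‖v x - g' x‖)]

lemma D_shift (f g : G → ℂ) (t : G) : D (fun x => f (x + t)) (fun x => g (x + t)) = D f g :=
  Fintype.expect_equiv (Equiv.addRight t) _ _ fun _ => rfl

/-- the derivative along a sum -/
lemma D_add (hf : Un f) (hg : Un g) (h t : G) :
    D (dd (h + t) f) (fun x => g (x + t) * g' x) ≤ 2 * D (dd h f) g + 2 * D (dd t f) g' := by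
  rw [← D_shift _ g t]
  refine D_le fun x => ?_
  have e : dd (h + t) f x - g (x + t) * g' x =
      (dd h f (x + t) - g (x + t)) * dd t f x + g (x + t) * (dd t f x - g' x) := by
    simp only [dd, add_assoc, add_comm t h]
    linear_combination (-f (x + (h + t)) * conj (f x)) * mul_cj hf (x + t)
  rw [e]
  refine (norm_add_le _ _).trans ?_
  rw [norm_mul, norm_mul, un_dd hf, hg, mul_one, one_mul]

lemma near (hf : Un f) (hg : Un g) {ε : ℝ} (h : 1 - ε ≤ ‖ip f g‖ ^ 2) :
    ∃ c : ℂ, ‖c‖ = 1 ∧ D f (fun x => c * g x) ≤ 2 * ε := by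
  obtain ⟨c, hc, e⟩ := Complex.exists_norm_eq_mul_self (ip f g)
  have h1 : ‖ip f g‖ ≤ 1 := T3S.norm_exp_le_of zero_le_one fun x _ => (un_mul hf (un_cj hg) x).le
  have h2 : ip f (fun x => conj c * g x) = c * ip f g := by
    simp only [ip, mul_expect, map_mul, RCLike.conj_conj]
    exact expect_congr rfl fun x _ => by ring
  have hc' : ‖conj c‖ = 1 := by rw [RCLike.norm_conj, hc]
  refine ⟨_, hc', ?_⟩
  rw [D_eq hf (un_mul (fun _ => hc') hg), h2, ← e, Complex.ofReal_re]
  nlinarith [norm_nonneg (ip f g)]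

lemma two (e : G → ℝ) (h0 : ∀ h, 0 ≤ e h) {η : ℝ} (h : 2 * 𝔼 h, e h < η) (g : G) :
    ∃ h t, g = h + t ∧ e h ≤ η ∧ e t ≤ η := by
  have h1 : 𝔼 h, e (g - h) = 𝔼 h, e h := Fintype.expect_equiv (Equiv.subLeft g) _ _ fun _ => rfl
  obtain ⟨t, -, ht⟩ := exists_lt_of_expect_lt (s := univ) (f := fun h => e h + e (g - h))
    univ_nonempty (by rwa [expect_add_distrib, h1, ← two_mul])
  exact ⟨t, g - t, by abel, by linarith [h0 (g - t)], by linarith [h0 t]⟩

end P99

open P99 in
theorem p99 : P99R := by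
  intro po int sym k
  induction k with
  | zero =>
    refine ⟨2, by norm_num, fun G _ _ φ ε hφ h => ?_⟩
    obtain ⟨c, hc, u⟩ := near (g := fun _ => 1) hφ (fun _ => norm_one) (by simpa [ip, Q] using h)
    exact ⟨_, ⟨c, hc, fun _ => mul_one c⟩, u⟩
  | succ k ih =>
    obtain ⟨C, hC, ih⟩ := ih
    obtain ⟨c, hc, sep⟩ := po.sep k
    obtain ⟨η, h0, h1, h2⟩ : ∃ η : ℝ, 0 < η ∧ η ≤ c / 40 ∧ η ≤ 1 / 400 :=
      ⟨min _ _, by positivity, min_le_left _ _, min_le_right _ _⟩
    refine ⟨8 * C + 8 * C / η, by positivity, fun G _ _ φ ε hφ h => ?_⟩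
    have b1 : B1 φ := fun x => (hφ x).le
    have hε : 0 ≤ ε := by linarith [T3S.Q_le_one (k + 1) b1]
    by_cases big : η ≤ 2 * (C * ε)
    · refine ⟨fun _ => 1, po.const _ _ norm_one, T3S.exp_le_of_le (by positivity) fun x _ => ?_⟩
      have h3 : ‖φ x - 1‖ ≤ 2 := (norm_sub_le _ _).trans (by rw [hφ, norm_one]; norm_num)
      have h4 : 4 ≤ 8 * C / η * ε := by
        rw [div_mul_eq_mul_div, le_div_iff₀ h0]
        linarith
      nlinarith [norm_nonneg (φ x - 1), mul_nonneg hC hε]
    obtain ⟨e, he⟩ : ∃ e : G → ℝ, ∀ h, e h = C * (1 - Q k (dd h φ)) := ⟨_, fun _ => rfl⟩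
    have e0 : ∀ h, 0 ≤ e h := fun h => by
      rw [he]
      exact mul_nonneg hC (sub_nonneg.2 (T3S.Q_le_one k (b1.dd h)))
    have e1 : 𝔼 h, e h ≤ C * ε := by
      simp only [he]
      rw [← mul_expect, expect_sub_distrib, expect_const univ_nonempty]
      exact mul_le_mul_of_nonneg_left (by linarith [show Q (k + 1) φ = 𝔼 h, Q k (dd h φ) from rfl]) hC
    have ex : ∀ h, ∃ P, Pol k P ∧ D (dd h φ) P ≤ e h := fun h =>
      he h ▸ ih G (dd h φ) _ (un_dd hφ h) (by simp)
    have ex' : ∀ g, ∃ w, Pol k w ∧ D (dd g φ) w ≤ 4 * η ∧ D (dd g φ) w ≤ 4 * e g := fun g => by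
      by_cases s : e g ≤ η
      · obtain ⟨P, u, v⟩ := ex g
        exact ⟨P, u, by linarith, by linarith [e0 g]⟩
      · obtain ⟨h, t, rfl, a, b⟩ := two e e0 (η := η) (by linarith) g
        obtain ⟨P, u, v⟩ := ex h
        obtain ⟨P', u', v'⟩ := ex t
        have := D_add (g' := P') hφ (po.un _ _ u) h t
        exact ⟨_, po.mul _ _ _ (po.shift _ _ t u) u', by linarith, by linarith⟩
    choose w pw d1 d2 using ex'
    have uw := fun g => po.un _ _ (pw g)
    have coc : ∀ g g', ∃ c : ℂ, ∀ x, w (g + g') x = c * (w g (x + g') * w g' x) := fun g g' => by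
      have pu := po.mul _ _ _ (po.shift _ _ g' (pw g)) (pw g')
      have uu := po.un _ _ pu
      have h3 := D_add (g' := w g') hφ (uw g) g g'
      have h4 := D_le (f := w (g + g')) (g := fun x => w g (x + g') * w g' x)
        (u := dd (g + g') φ) (v := dd (g + g') φ) (f' := w (g + g'))
        (g' := fun x => w g (x + g') * w g' x) fun x => by
          rw [norm_sub_rev (dd _ φ x) (w _ x)]
          exact norm_sub_le_norm_sub_add_norm_sub _ _ _
      rw [D_eq (uw _) uu] at h4
      obtain ⟨c0, h5⟩ := sep G _ (po.mul _ _ _ (pw (g + g')) (po.cj _ _ pu))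
        (lt_of_lt_of_le (by linarith [d1 g, d1 g', d1 (g + g')])
          (Complex.re_le_norm (ip (w (g + g')) fun x => w g (x + g') * w g' x)))
      refine ⟨c0, fun x => ?_⟩
      rw [← h5 x]
      linear_combination (-w (g + g') x) * mul_cj uu x
    obtain ⟨p, pp, hp⟩ := int k G w pw coc
      (sym G w φ uw hφ coc fun g => (d1 g).trans (by linarith))
    have up := po.un _ _ pp
    have h3 : ∀ g, 1 - 4 * e g ≤ Q 0 (dd g fun x => φ x * conj (p x)) := fun g => by
      obtain ⟨c1, n1, h4⟩ := hp g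
      have h5 : 𝔼 x, dd g (fun x => φ x * conj (p x)) x = conj c1 * ip (dd g φ) (w g) := by
        rw [ip, mul_expect]
        refine expect_congr rfl fun x _ => ?_
        have := congrArg conj (h4 x)
        simp only [dd, map_mul, RCLike.conj_conj] at this ⊢
        linear_combination (φ (x + g) * conj (φ x)) * this
      have h6 := d2 g
      rw [D_eq (un_dd hφ g) (uw g)] at h6
      rw [Q, h5, norm_mul, RCLike.norm_conj, n1, one_mul]
      nlinarith [Complex.re_le_norm (ip (dd g φ) (w g)), sq_nonneg (‖ip (dd g φ) (w g)‖ - 1)]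
    obtain ⟨χ, hχ⟩ := T3S.u2 G (fun x => φ x * conj (p x)) fun x => (un_mul hφ (un_cj up) x).le
    have h4 : 1 - 4 * (C * ε) ≤ Q 1 fun x => φ x * conj (p x) := by
      refine le_trans ?_ (expect_le_expect fun g _ => h3 g)
      rw [expect_sub_distrib, expect_const univ_nonempty, ← mul_expect]
      linarith
    have pχ := po.mul _ _ _ pp (po.char k χ)
    obtain ⟨c1, n1, h5⟩ := near hφ (po.un _ _ pχ) (ε := 4 * (C * ε)) (by
      refine (h4.trans hχ).trans_eq ?_
      simp only [ip, map_mul, mul_assoc])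
    refine ⟨_, po.mul _ _ _ (po.const _ _ n1) pχ, le_trans h5 ?_⟩
    have : 0 ≤ 8 * C / η * ε := by positivity
    linarith

end T3u

end
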