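import Pool.Agent.MP_154433_an.t3u.Spec

/-! Polynomial phases on finite abelian groups: closure properties and separation. -/

set_option autoImplicit false
set_option linter.unusedVariables false

open Filter Topology Function Finset
open scoped BigOperators ComplexConjugate
open Pool.Agent.MP_154433_an.T3S (B1 dd Q ip LG)

noncomputable section

namespace T3u

namespace Po

variable {G : Type} [AddCommGroup G] [Fintype G]

omit [Fintype G] in
lemma un (k : ℕ) (p : G → ℂ) (hp : Pol k p) : Un p := by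
  cases k with
  | zero =>
    obtain ⟨c, hc, h⟩ := hp
    intro x
    rw [h x, hc]
  | succ k => exact hp.1

lemma mul_cj {z : ℂ} (h : ‖z‖ = 1) : z * conj z = 1 := by
  rw [Complex.mul_conj', h]
  simp

omit [Fintype G] in
lemma const (k : ℕ) (c : ℂ) (hc : ‖c‖ = 1) : Pol k fun _ : G => c := by
  induction k generalizing c with
  | zero => exact ⟨c, hc, fun _ => rfl⟩
  | succ k ih =>
    refine ⟨fun _ => hc, fun h => ?_⟩
    exact ih (c * conj c) (by rw [mul_cj hc, norm_one])

omit [Fintype G] in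
lemma mul (k : ℕ) (p p' : G → ℂ) (hp : Pol k p) (hp' : Pol k p') :
    Pol k fun x => p x * p' x := by
  induction k generalizing p p' with
  | zero =>
    obtain ⟨c, hc, h⟩ := hp
    obtain ⟨c', hc', h'⟩ := hp'
    exact ⟨c * c', by rw [norm_mul, hc, hc', one_mul], fun x => by simp only [h x, h' x]⟩
  | succ k ih =>
    refine ⟨fun x => by rw [norm_mul, hp.1 x, hp'.1 x, one_mul], fun h => ?_⟩
    have e : dd h (fun x => p x * p' x) = fun x => dd h p x * dd h p' x := by
      funext x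
      simp only [dd, map_mul]
      ring
    rw [e]
    exact ih _ _ (hp.2 h) (hp'.2 h)

omit [Fintype G] in
lemma cj (k : ℕ) (p : G → ℂ) (hp : Pol k p) : Pol k fun x => conj (p x) := by
  induction k generalizing p with
  | zero =>
    obtain ⟨c, hc, h⟩ := hp
    exact ⟨conj c, by rw [RCLike.norm_conj, hc], fun x => by simp only [h x]⟩
  | succ k ih =>
    refine ⟨fun x => by rw [RCLike.norm_conj, hp.1 x], fun h => ?_⟩
    have e : dd h (fun x => conj (p x)) = fun x => conj (dd h p x) := by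
      funext x
      simp only [dd, map_mul]
    rw [e]
    exact ih _ (hp.2 h)

omit [Fintype G] in
lemma shift (k : ℕ) (p : G → ℂ) (c : G) (hp : Pol k p) : Pol k fun x => p (x + c) := by
  induction k generalizing p with
  | zero =>
    obtain ⟨c0, hc, h⟩ := hp
    exact ⟨c0, hc, fun x => h _⟩
  | succ k ih =>
    refine ⟨fun x => hp.1 _, fun h => ?_⟩
    have e : dd h (fun x => p (x + c)) = fun x => dd h p (x + c) := by
      funext x
      simp only [dd, add_right_comm x h c]
    rw [e]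
    exact ih _ (hp.2 h)

lemma char (k : ℕ) (χ : AddChar G ℂ) : Pol (k + 1) χ := by
  refine ⟨fun x => χ.norm_apply x, fun h => ?_⟩
  have e : dd h χ = fun _ => χ h := by
    funext x
    simp only [dd, AddChar.map_add_eq_mul]
    rw [mul_right_comm, mul_cj (χ.norm_apply x), one_mul]
  rw [e]
  exact const k _ (χ.norm_apply h)

lemma exp_shift {E : Type} [AddCommMonoid E] [Module ℚ≥0 E] (f : G → E) (c : G) :
    𝔼 x, f (x + c) = 𝔼 x, f x :=
  Fintype.expect_equiv (Equiv.addRight c) _ _ fun _ => rfl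

lemma sq_le (p : G → ℂ) : ‖𝔼 x, p x‖ ^ 2 ≤ 𝔼 h, ‖𝔼 x, dd h p x‖ := by
  have e : (𝔼 x, p x) * conj (𝔼 x, p x) = 𝔼 h, 𝔼 x, dd h p x := by
    rw [Finset.expect_comm, Pool.Agent.MP_154433_an.T3S.conj_exp, Finset.mul_expect]
    refine Finset.expect_congr rfl fun x _ => ?_
    simp only [dd]
    rw [← Finset.expect_mul, ← exp_shift p x]
    simp only [add_comm x]
  have e2 : ‖𝔼 x, p x‖ ^ 2 = ‖(𝔼 x, p x) * conj (𝔼 x, p x)‖ := by
    rw [norm_mul, RCLike.norm_conj, sq]
  rw [e2, e]
  exact Pool.Agent.MP_154433_an.T3S.norm_exp_le _ _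

omit [Fintype G] in
lemma step {p : G → ℂ} (hp : Un p) {h : G} {c : ℂ} (hc : ∀ x, dd h p x = c) (x : G) :
    p (x + h) = c * p x := by
  rw [← hc x, dd, mul_assoc, mul_comm (conj (p x)), mul_cj (hp x), mul_one]

omit [Fintype G] in
lemma pair {p : G → ℂ} (hp : Un p) {h h0 : G} {c c' : ℂ} (hc : ∀ x, dd h p x = c)
    (hc' : ∀ x, dd (h + h0) p x = c') (x : G) : dd h0 p x = c' * conj c := by
  have h1 := step hp hc (x - h)
  have h2 := step hp hc' (x - h)
  rw [sub_add_cancel] at h1
  rw [← add_assoc, sub_add_cancel] at h2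
  rw [dd, h2, h1, map_mul, mul_mul_mul_comm, mul_cj (hp _), mul_one]

lemma sep (k : ℕ) (p : G → ℂ) (hp : Pol k p) (h : 1 - (1 / 4 : ℝ) ^ k < ‖𝔼 x, p x‖) :
    ∃ c0 : ℂ, ∀ x, p x = c0 := by
  induction k generalizing p with
  | zero =>
    obtain ⟨c, -, hc⟩ := hp
    exact ⟨c, hc⟩
  | succ k ih =>
    have hc0 : (0 : ℝ) < (1 / 4 : ℝ) ^ k := by positivity
    have hc1 : (1 / 4 : ℝ) ^ k ≤ 1 := pow_le_one₀ (by norm_num) (by norm_num)
    rw [pow_succ] at h
    set c : ℝ := (1 / 4 : ℝ) ^ k with hcd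
    by_cases hall : ∀ g, ∃ c0 : ℂ, ∀ x, dd g p x = c0
    · refine ⟨p 0, fun g => ?_⟩
      obtain ⟨c0, hc⟩ := hall g
      have hne : 𝔼 x, p x ≠ 0 := by
        intro h0
        rw [h0, norm_zero] at h
        linarith
      have e : 𝔼 x, p x = c0 * 𝔼 x, p x := by
        rw [Finset.mul_expect, ← exp_shift p g]
        exact Finset.expect_congr rfl fun x _ => step hp.1 hc x
      have e1 : c0 = 1 := by
        have := mul_right_cancel₀ hne (e.symm.trans (one_mul _).symm)
        exact this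
      have := step hp.1 hc 0
      rwa [zero_add, e1, one_mul] at this
    · exfalso
      obtain ⟨h0, hh0⟩ := not_forall.mp hall
      have a1 : ∀ g, ‖𝔼 x, dd g p x‖ ≤ 1 := fun g =>
        Pool.Agent.MP_154433_an.T3S.norm_exp_le_of zero_le_one fun x _ =>
          (un k _ (hp.2 g) x).le
      have a2 : ∀ g, ‖𝔼 x, dd g p x‖ + ‖𝔼 x, dd (g + h0) p x‖ ≤ 2 - c := by
        intro g
        by_contra hlt
        have hlt := not_le.mp hlt
        obtain ⟨c1, hc1⟩ := ih _ (hp.2 g) (by linarith [a1 (g + h0)])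
        obtain ⟨c2, hc2⟩ := ih _ (hp.2 (g + h0)) (by linarith [a1 g])
        exact hh0 ⟨_, pair hp.1 hc1 hc2⟩
      have a3 : (𝔼 g, ‖𝔼 x, dd g p x‖) + (𝔼 g, ‖𝔼 x, dd (g + h0) p x‖) ≤ 2 - c := by
        rw [← Finset.expect_add_distrib]
        exact Pool.Agent.MP_154433_an.T3S.exp_le_of_le (by linarith) fun g _ => a2 g
      rw [exp_shift (fun g => ‖𝔼 x, dd g p x‖) h0] at a3
      have a4 := sq_le p
      have a5 : (1 - c * (1 / 4)) ^ 2 < ‖𝔼 x, p x‖ ^ 2 :=
        pow_lt_pow_left₀ h (by linarith) two_ne_zero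
      nlinarith

end Po

theorem po : PoA where
  un := Po.un
  const := Po.const
  mul := Po.mul
  cj := Po.cj
  shift := Po.shift
  char := Po.char
  sep k := ⟨(1 / 4 : ℝ) ^ k, by positivity, fun G _ _ p hp h => Po.sep k p hp h⟩

end T3u
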