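import Pool.Agent.MP_154433_an.t3u.Spec

/-! Completeness and the continuous functional calculus. -/

set_option autoImplicit false

open Filter Topology Finset
open scoped BigOperators ComplexConjugate

noncomputable section

namespace T3u

theorem Sat.exp_le {Y : Type} [Fintype Y] (f : Y → ℝ) {c : ℝ} (hc : 0 ≤ c) (h : ∀ y, f y ≤ c) :
    𝔼 y, f y ≤ c := by
  rcases (univ : Finset Y).eq_empty_or_nonempty with h0 | h0
  · rw [h0, expect_empty]; exact hc
  · exact expect_le h0 fun y _ => h y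

theorem sat : SatR := by
  intro ua Y _ F C hC hF
  classical
  choose N hN using fun m : ℕ => hF (1 / ((m : ℝ) + 1)) Nat.one_div_pos_of_nat
  let A : ℕ → ℕ → Prop := fun j m => ∀ m' ∈ Set.Iic m, ∀ n ∈ Set.Iic m, ∀ n' ∈ Set.Iic m,
    N m' ≤ n → N m' ≤ n' → 𝔼 y, ‖F n j y - F n' j y‖ ^ 2 ≤ 1 / ((m' : ℝ) + 1)
  have hA : ∀ m, ∀ᶠ j in (UU : Filter ℕ), A j m := fun m => by
    refine (eventually_all_finite (Set.finite_Iic m)).2 fun m' _ =>
      (eventually_all_finite (Set.finite_Iic m)).2 fun n _ =>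
        (eventually_all_finite (Set.finite_Iic m)).2 fun n' _ => ?_
    by_cases h : N m' ≤ n ∧ N m' ≤ n'
    · exact (hN m' n n' h.1 h.2).mono fun j hj _ _ => hj
    · exact Eventually.of_forall fun j h1 h2 => absurd ⟨h1, h2⟩ h
  refine ⟨fun j => F (Nat.findGreatest (A j) j) j, fun j y => hC _ j y, fun ε hε => ?_⟩
  obtain ⟨m', hm'⟩ := exists_nat_one_div_lt hε
  refine ⟨N m', fun n hn => ?_⟩
  filter_upwards [hA (max m' n), ua.atTop (eventually_ge_atTop (max m' n))] with j h1 h2
  have h3 : max m' n ≤ Nat.findGreatest (A j) j := Nat.le_findGreatest h2 h1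
  have h4 : A j (Nat.findGreatest (A j) j) := Nat.findGreatest_spec h2 h1
  have h5 := (le_max_right m' n).trans h3
  exact (h4 m' ((le_max_left m' n).trans h3) _ Set.self_mem_Iic n h5 (hn.trans h5) hn).trans hm'.le

theorem cfc : CfcR := by
  intro _ _ Y _ A Φ hA hΦ F hF
  obtain ⟨C, hC⟩ := hA.bd F hF
  have hm : ∀ j y, F j y ∈ Metric.closedBall (0 : ℂ) C := fun j y =>
    mem_closedBall_zero_iff.2 (hC j y)
  have key : ∀ φ : C(Metric.closedBall (0 : ℂ) C, ℂ), (fun j y => φ ⟨F j y, hm j y⟩) ∈ A := by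
    intro φ
    induction φ using ContinuousMap.induction_on_of_compact with
    | const r => exact hA.const r
    | id => exact hF
    | star_id => exact hA.cj F hF
    | add f g hf hg => exact hA.add _ hf _ hg
    | mul f g hf hg => exact hA.mul _ hf _ hg
    | frequently f hf =>
      refine hA.cl ⟨⟨‖f‖, fun j y => f.norm_coe_le_norm _⟩, fun ε hε => ?_⟩
      obtain ⟨g, hg, hd⟩ := (hf.and_eventually
        (Metric.ball_mem_nhds f (Real.sqrt_pos.2 hε))).exists
      refine ⟨_, hg, Eventually.of_forall fun j => Sat.exp_le _ hε.le fun y => ?_⟩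
      have h1 : ‖f ⟨F j y, hm j y⟩ - g ⟨F j y, hm j y⟩‖ ≤ √ε := by
        refine ((f - g).norm_coe_le_norm ⟨F j y, hm j y⟩).trans ?_
        rw [← dist_eq_norm, dist_comm]
        exact le_of_lt hd
      exact (pow_le_pow_left₀ (norm_nonneg _) h1 2).trans (Real.sq_sqrt hε.le).le
  exact key ⟨fun z => Φ z, hΦ.comp continuous_subtype_val⟩

end T3u

end
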