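import Pool.Agent.MP_154433_an.t3u.Spec
import Pool.Agent.MP_154433_an.t3s.Gcs

/-! Split functions: closure properties and the cube formulas. -/

set_option autoImplicit false
set_option linter.unusedVariables false

open Filter Topology Function Finset
open scoped BigOperators ComplexConjugate
open Pool.Agent.MP_154433_an.T3S (B1 dd Q ip LG)
open Pool.Agent.MP_154433_an

noncomputable section

namespace T3u

namespace SpAx

section A

variable {G : Type} [AddCommGroup G]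

lemma b1 {n : ℕ} {a : (Fin n → G) → G → ℂ} (h : Spl a) (τ : Fin n → G) : B1 (a τ) := by
  obtain ⟨γ, hγ, e⟩ := h
  intro x
  rw [e]
  exact T3S.norm_prod_le_one _ fun i _ => hγ _ _ _

lemma mul {n : ℕ} {a a' : (Fin n → G) → G → ℂ} (h : Spl a) (h' : Spl a') :
    Spl fun τ x => a τ x * a' τ x := by
  obtain ⟨γ, hγ, e⟩ := h
  obtain ⟨γ', hγ', e'⟩ := h'
  refine ⟨fun i τ z => γ i τ z * γ' i τ z, fun i τ => (hγ i τ).mul (hγ' i τ), fun τ x => ?_⟩
  beta_reduce
  rw [e, e', Finset.prod_mul_distrib]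

lemma cj {n : ℕ} {a : (Fin n → G) → G → ℂ} (h : Spl a) : Spl fun τ x => conj (a τ x) := by
  obtain ⟨γ, hγ, e⟩ := h
  refine ⟨fun i τ z => conj (γ i τ z), fun i τ => (hγ i τ).cj, fun τ x => ?_⟩
  beta_reduce
  rw [e, map_prod]

lemma shift {n : ℕ} {a : (Fin n → G) → G → ℂ} (c : G) (h : Spl a) :
    Spl fun τ x => a τ (x + c) := by
  obtain ⟨γ, hγ, e⟩ := h
  refine ⟨fun i τ z => γ i τ (z + c), fun i τ => (hγ i τ).comp _, fun τ x => ?_⟩
  beta_reduce
  rw [e]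
  exact Finset.prod_congr rfl fun i _ => by rw [add_right_comm]

lemma scons {n : ℕ} {g : G → ℂ} {ρ : G → (Fin n → G) → G → ℂ} (hg : B1 g)
    (hρ : ∀ t, Spl (ρ t)) :
    Spl fun (τ : Fin (n + 1) → G) x => g (x + τ 0) * ρ (τ 0) (Fin.tail τ) x := by
  choose γ hγ e using hρ
  refine ⟨Fin.cons (fun _ z => g z) fun i σ z => γ (σ 0) i (Fin.tail σ) z, fun i => ?_,
    fun τ x => ?_⟩
  · refine Fin.cases (fun τ => ?_) (fun j τ => ?_) i
    · exact hg
    · exact hγ _ _ _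
  · beta_reduce
    rw [Fin.prod_univ_succ, e]
    simp only [Fin.cons_zero, Fin.cons_succ]
    congr 1
    refine Finset.prod_congr rfl fun j _ => ?_
    rw [update_of_ne (Fin.succ_ne_zero j).symm, Fin.tail_update_succ]
    rfl

lemma one0 : Spl (fun (_ : Fin 0 → G) (_ : G) => (1 : ℂ)) :=
  ⟨fun i => i.elim0, fun i => i.elim0, fun τ x => by simp⟩

end A

variable {G : Type} [AddCommGroup G] [Fintype G]

omit [AddCommGroup G] in
lemma exp_consR {k : ℕ} (F : (Fin (k + 1) → G) → ℝ) :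
    𝔼 τ, F τ = 𝔼 s : G, 𝔼 τ : Fin k → G, F (Fin.cons s τ) := by
  rw [← Finset.expect_product', Finset.univ_product_univ]
  exact (Fintype.expect_equiv (Fin.consEquiv fun _ => G) _ _ fun p => rfl).symm

lemma dcons {n : ℕ} {g : G → ℂ} {ρ : G → (Fin n → G) → G → ℂ} (hg : B1 g)
    (hρ : ∀ t, Spl (ρ t)) : (fun x => 𝔼 t, 𝔼 τ, g (x + t) * ρ t τ x) ∈ DS (n + 1) G := by
  refine subset_convexHull ℝ _ ⟨_, scons hg hρ, funext fun x => ?_⟩
  rw [T3S.Gcs.exp_cons]
  simp only [Fin.cons_zero, Fin.tail_cons]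

/-- one step of the cube formula -/
lemma step {n : ℕ} (ih : ∀ g : G → ℂ, B1 g → ∃ r : (Fin n → G) → G → ℂ, Spl r ∧
    Q n g = 𝔼 τ, ‖𝔼 x, g x * r τ x‖ ^ 2) (f : G → ℂ) (hf : B1 f) :
    ∃ ρ : G → (Fin n → G) → G → ℂ, (∀ t, Spl (ρ t)) ∧
      Q (n + 1) f = 𝔼 t, 𝔼 τ, ‖𝔼 x, f x * (conj (f (x + t)) * ρ t τ x)‖ ^ 2 := by
  choose r hr e using fun t => ih (dd t f) (hf.dd t)
  refine ⟨fun t τ x => conj (r t τ x), fun t => cj (hr t), ?_⟩
  show 𝔼 t, Q n (dd t f) = _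
  refine Finset.expect_congr rfl fun t _ => ?_
  rw [e]
  refine Finset.expect_congr rfl fun τ _ => ?_
  rw [← RCLike.norm_conj, T3S.conj_exp]
  congr 2
  refine Finset.expect_congr rfl fun x _ => ?_
  simp only [dd, map_mul, RCLike.conj_conj]
  ring

lemma core (n : ℕ) : ∀ g : G → ℂ, B1 g → ∃ r : (Fin n → G) → G → ℂ, Spl r ∧
    Q n g = 𝔼 τ, ‖𝔼 x, g x * r τ x‖ ^ 2 := by
  induction n with
  | zero =>
    intro g hg
    refine ⟨_, one0, ?_⟩
    simp only [mul_one]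
    rw [Finset.expect_const Finset.univ_nonempty]
    rfl
  | succ n ih =>
    intro g hg
    obtain ⟨ρ, hρ, e⟩ := step ih g hg
    refine ⟨_, scons hg.cj hρ, ?_⟩
    rw [e, exp_consR]
    simp only [Fin.cons_zero, Fin.tail_cons]

lemma self (k : ℕ) (g : G → ℂ) (hg : B1 g) :
    ∃ u ∈ DS (k + 1) G, (Q k g : ℂ) = 𝔼 x, g x * u x := by
  obtain ⟨r, hr, e⟩ := core k g hg
  refine ⟨_, dcons (ρ := fun s τ x => r τ x * conj (r τ (x + s))) hg.cj
    fun s => mul hr (cj (shift s hr)), ?_⟩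
  have e1 : ∀ τ, ((‖𝔼 x, g x * r τ x‖ ^ 2 : ℝ) : ℂ) =
      𝔼 x, 𝔼 s, g x * (conj (g (x + s)) * (r τ x * conj (r τ (x + s)))) := by
    intro τ
    rw [Complex.ofReal_pow, ← Complex.mul_conj', T3S.conj_exp, Finset.expect_mul]
    refine Finset.expect_congr rfl fun x _ => ?_
    rw [T3S.Gcs.exp_add _ x, Finset.mul_expect]
    refine Finset.expect_congr rfl fun s _ => ?_
    simp only [map_mul]
    ring
  rw [e, Complex.ofReal_expect]
  simp only [e1, Finset.mul_expect]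
  rw [Finset.expect_comm]
  refine Finset.expect_congr rfl fun x _ => ?_
  rw [Finset.expect_comm]

end SpAx

theorem spA : SpA where
  b1 := fun _ h τ => SpAx.b1 h τ
  mul := fun _ _ h h' => SpAx.mul h h'
  cj := fun _ h => SpAx.cj h
  shift := fun _ c h => SpAx.shift c h
  dcons := fun _ _ hg hρ => SpAx.dcons hg hρ
  cube := fun n f hf => by
    obtain ⟨ρ, hρ, e⟩ := SpAx.step (SpAx.core n) f hf
    exact ⟨fun x => conj (f x), ρ, hf.cj, hρ, e⟩
  self := fun k g hg => SpAx.self k g hg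

end T3u

end
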