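import Pool.Agent.MP_154433_an.t3u.Spec

/-! The operators commute on the spectral piece, and the structure theorem. -/

set_option autoImplicit false
set_option linter.unusedVariables false

open Filter Topology Function Finset
open scoped BigOperators ComplexConjugate
open Pool.Agent.MP_154433_an.T3S (B1 dd Q ip LG)

noncomputable section

namespace T3u

namespace Sta

variable {G : ℕ → Type} [∀ j, AddCommGroup (G j)] [∀ j, Fintype (G j)]

theorem sw (f g : Fm G) : I (fun j x => f j x * g j x) = I fun j x => g j x * f j x := by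
  simp only [mul_comm]

theorem move (fa : FA) (co : CO) (k : ℕ) {a b f g : Fm G} (ha : Bd a) (hb : Bd b) (hf : Bd f)
    (hg : Bd g) {κ : Fm (Pr G G)} (hκ : κ ∈ FF G k G) :
    I (fun j x => Cop k a b f j x * LK κ g j x) =
      I fun j x => f j x * LK κ (Cop k b a g) j x := by
  rw [co.tr k a b f _ ha hb hf (co.bdK κ g ((fa.alg G k G).bd κ hκ) hg).1, sw,
    co.comm k b a g f hb ha hg hf κ hκ, ← co.adj, sw]

/-- The trilinear form of a spectral piece. -/
def lam (Ω : ∀ j, G j → G j → G j → ℂ) (g1 g2 : Fm G) : Fm G :=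
  fun j x => 𝔼 s, 𝔼 t, g1 j (x + s) * g2 j (x + t) * Ω j x s t

theorem lam1 (Ω : ∀ j, G j → G j → G j → ℂ) (g1 g2 : Fm G) :
    lam Ω g1 g2 = LK (fun j z => 𝔼 t, g2 j (z.1 + t) * Ω j z.1 z.2 t) g1 := by
  funext j x
  refine Finset.expect_congr rfl fun s _ => ?_
  rw [Finset.expect_mul]
  exact Finset.expect_congr rfl fun t _ => by ring

theorem lam2 (Ω : ∀ j, G j → G j → G j → ℂ) (g1 g2 : Fm G) :
    lam Ω g1 g2 = LK (fun j z => 𝔼 s, g1 j (z.1 + s) * Ω j z.1 s z.2) g2 := by
  funext j x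
  refine (Finset.expect_comm _ _ _).trans (Finset.expect_congr rfl fun t _ => ?_)
  rw [Finset.expect_mul]
  exact Finset.expect_congr rfl fun s _ => by ring

end Sta

theorem sta : StaR := by
  intro ua fa co G _ _ k f d v Ω h a b a' b' g ha hb ha' hb' hg i
  obtain ⟨g1, g2, h1, h2, he⟩ := h.rep i
  have e : ∀ F : Fm G, I (fun j x => F j x * conj (v i j x)) =
      I fun j x => F j x * Sta.lam Ω g1 g2 j x := fun F =>
    ua.congr _ _ (he.mono fun j hj => Finset.expect_congr rfl fun x _ => by rw [hj x]; rfl)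
  have m1 : ∀ {p q F u w : Fm G}, Bd p → Bd q → Bd F → Bd u → Bd w →
      I (fun j x => Cop k p q F j x * Sta.lam Ω u w j x) =
        I fun j x => F j x * Sta.lam Ω (Cop k q p u) w j x := fun hp hq hF hu hw => by
    rw [Sta.lam1, Sta.lam1]
    exact Sta.move fa co k hp hq hF hu (h.k1 _ hw)
  have m2 : ∀ {p q F u w : Fm G}, Bd p → Bd q → Bd F → Bd u → Bd w →
      I (fun j x => Cop k p q F j x * Sta.lam Ω u w j x) =
        I fun j x => F j x * Sta.lam Ω u (Cop k q p w) j x := fun hp hq hF hu hw => by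
    rw [Sta.lam2, Sta.lam2]
    exact Sta.move fa co k hp hq hF hw (h.k2 _ hu)
  rw [e, e, m1 ha hb (co.bd k _ _ _ ha' hb' hg) h1 h2,
    m2 ha' hb' hg (co.bd k _ _ _ hb ha h1) h2, m2 ha' hb' (co.bd k _ _ _ ha hb hg) h1 h2,
    m1 ha hb hg h1 (co.bd k _ _ _ hb' ha' h2)]

theorem st : StR := by
  intro ua sp stb joint stc G _ _ k f hf hQ
  obtain ⟨d, v, Ω, h⟩ := sp k f hf hQ
  obtain ⟨h1, h2⟩ := stb k f d v Ω h
  obtain ⟨i₀, hi⟩ := h.cor
  obtain ⟨e, e1, e2, e3⟩ := joint d (mat k v) (fun i => I fun j x => f j x * conj (v i j x)) h1 h2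
    fun h0 => hi (congrFun h0 i₀)
  refine ⟨_, stc k f d v Ω h h1 e e1 e3, fun h0 => e2 ?_⟩
  have bf : Bd f := ⟨1, hf⟩
  have bv : ∀ i, Bd fun j x => f j x * conj (v i j x) := fun i =>
    ua.bd_mul _ _ bf (ua.bd_cj _ (h.bd i))
  rw [← h0, show (fun j x => f j x * conj (∑ i, e i * v i j x)) =
      fun j x => ∑ i, conj (e i) * (f j x * conj (v i j x)) by
    funext j x
    rw [map_sum, Finset.mul_sum]
    exact Finset.sum_congr rfl fun i _ => by rw [map_mul]; ring,
    ua.sum _ (fun i j x => conj (e i) * (f j x * conj (v i j x)))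
      fun i _ => ua.bd_mul _ _ (ua.bd_const _) (bv i)]
  exact Finset.sum_congr rfl fun i _ => (ua.cmul _ _ (bv i)).symm

end T3u

end
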