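import Pool.Agent.MP_154433_an.t3u.Spec

/-! The matrices of the operators on a spectral piece are closed under adjoints and commute. -/

set_option autoImplicit false
set_option linter.unusedVariables false
set_option linter.unusedSectionVars false

open Filter Topology Function Finset
open scoped BigOperators ComplexConjugate
open Pool.Agent.MP_154433_an.T3S (B1 dd Q ip LG)

noncomputable section

namespace T3u

namespace Stb

variable {G : ℕ → Type} [∀ j, AddCommGroup (G j)] [∀ j, Fintype (G j)]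

theorem exp_add {H : Type} [AddCommGroup H] [Fintype H] (φ : H → ℂ) (x : H) :
    𝔼 t, φ (x + t) = 𝔼 y, φ y :=
  Fintype.expect_equiv (Equiv.addLeft x) _ _ fun _ => rfl

theorem exp_sub {H : Type} [AddCommGroup H] [Fintype H] (φ : H → ℂ) (x : H) :
    𝔼 t, φ (x - t) = 𝔼 y, φ y :=
  Fintype.expect_equiv (Equiv.subLeft x) _ _ fun _ => rfl

theorem bd_tw (ua : UA) (a f : Fm G) (ha : Bd a) (hf : Bd f) : Bd (tw a f) :=
  ua.bd_mul (Y := Pr G G) (fun j z => a j (z.1 + z.2)) (fun j z => f j z.1)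
    (ua.bd_comp a (fun j (z : Pr G G j) => z.1 + z.2) ha)
    (ua.bd_comp f (fun j (z : Pr G G j) => z.1) hf)

theorem bd_cj (ua : UA) (f : Fm G) (hf : Bd f) : Bd (cj f) := ua.bd_cj f hf

/-- a function and its projection have the same pairing with the algebra -/
theorem pair_eq (ua : UA) (fa : FA) (k : ℕ) (F F' c : Fm (Pr G G)) (h : IsP k F F')
    (hc : c ∈ FF G k G) : I (fun j z => F' j z * c j z) = I fun j z => F j z * c j z := by
  have hA := fa.alg G k G
  have bc : Bd c := hA.bd c hc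
  have bF' : Bd F' := hA.bd F' h.2.1
  have h1 := h.2.2 c hc
  have h2 := ua.sub (fun j z => F j z * c j z) (fun j z => F' j z * c j z)
    (ua.bd_mul F c h.1 bc) (ua.bd_mul F' c bF' bc)
  have h3 : (fun j z => F j z * c j z - F' j z * c j z) =
      fun j z => (F j z - F' j z) * c j z := by
    funext j z
    ring
  rw [h3] at h2
  have h4 : I (fun j z => F j z * c j z) - I (fun j z => F' j z * c j z) = 0 := h2.symm.trans h1
  exact (sub_eq_zero.mp h4).symm

theorem pair_two (ua : UA) (fa : FA) (k : ℕ) (F P P' F2 R R' : Fm (Pr G G)) (h : IsP k F P)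
    (h' : IsP k F P') (g : IsP k F2 R) (g' : IsP k F2 R') :
    I (fun j z => P j z * R j z) = I fun j z => P' j z * R' j z := by
  have e1 := pair_eq ua fa k F P R h g.2.1
  have e2 := pair_eq ua fa k F P' R h' g.2.1
  have e3 := pair_eq ua fa k F2 R P' g h'.2.1
  have e4 := pair_eq ua fa k F2 R' P' g' h'.2.1
  have c1 : (fun j z => P' j z * R j z) = fun j z => R j z * P' j z := by
    funext j z
    ring
  have c2 : (fun j z => P' j z * R' j z) = fun j z => R' j z * P' j z := by
    funext j z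
    ring
  rw [e1, ← e2, c1, c2, e3, e4]

/-- the conjugate of a projection is a projection -/
theorem isP_cj (ua : UA) (fa : FA) (k : ℕ) (F F' : Fm (Pr G G)) (h : IsP k F F') :
    IsP k (fun j z => conj (F j z)) fun j z => conj (F' j z) := by
  have hA := fa.alg G k G
  refine ⟨ua.bd_cj F h.1, hA.cj F' h.2.1, ?_⟩
  intro c hc
  have h1 := h.2.2 _ (hA.cj c hc)
  have b1 : Bd fun j z => (F j z - F' j z) * conj (c j z) :=
    ua.bd_mul _ _ (ua.bd_sub F F' h.1 (hA.bd F' h.2.1)) (ua.bd_cj c (hA.bd c hc))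
  have h2 := ua.cj _ b1
  have h3 : (fun j z => conj ((F j z - F' j z) * conj (c j z))) =
      fun j z => (conj (F j z) - conj (F' j z)) * c j z := by
    funext j z
    simp only [map_mul, map_sub, Complex.conj_conj]
  rw [h3] at h2
  refine h2.trans ?_
  have h4 : I (fun j z => (F j z - F' j z) * conj (c j z)) = 0 := h1
  rw [h4, map_zero]

theorem herm (ua : UA) (fa : FA) (co : CO) (k : ℕ) (a b f g : Fm G) (ha : Bd a) (hb : Bd b)
    (hf : Bd f) (hg : Bd g) :
    conj (I fun j x => Cop k a (cj b) g j x * conj (f j x)) =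
      I fun j x => Cop k b (cj a) f j x * conj (g j x) := by
  have hA := fa.alg G k G
  have e1 := co.pair k a (cj b) g (cj f) ha (bd_cj ua b hb) hg (bd_cj ua f hf)
  have e2 := co.pair k b (cj a) f (cj g) hb (bd_cj ua a ha) hf (bd_cj ua g hg)
  have p1 := fa.pj k (tw (cj b) g) (bd_tw ua _ _ (bd_cj ua b hb) hg)
  have p2 := fa.pj k (tw a (cj f)) (bd_tw ua _ _ ha (bd_cj ua f hf))
  have p3 := fa.pj k (tw (cj a) f) (bd_tw ua _ _ (bd_cj ua a ha) hf)
  have p4 := fa.pj k (tw b (cj g)) (bd_tw ua _ _ hb (bd_cj ua g hg))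
  have q1 := isP_cj ua fa k _ _ p1
  have q2 := isP_cj ua fa k _ _ p2
  have t1 : (fun j z => conj (tw (cj b) g j z)) = tw b (cj g) := by
    funext j z
    simp only [tw, cj, map_mul, Complex.conj_conj]
  have t2 : (fun j z => conj (tw a (cj f) j z)) = tw (cj a) f := by
    funext j z
    simp only [tw, cj, map_mul, Complex.conj_conj]
  rw [t1] at q1
  rw [t2] at q2
  have e3 := pair_two ua fa k _ _ _ _ _ _ q2 p3 q1 p4
  have e4 := ua.cj (fun j z => Pj k (tw (cj b) g) j z * Pj k (tw a (cj f)) j z)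
    (ua.bd_mul _ _ (hA.bd _ p1.2.1) (hA.bd _ p2.2.1))
  have t3 : (fun j z => conj (Pj k (tw (cj b) g) j z * Pj k (tw a (cj f)) j z)) =
      fun j z => conj (Pj k (tw a (cj f)) j z) * conj (Pj k (tw (cj b) g) j z) := by
    funext j z
    rw [map_mul, mul_comm]
  rw [t3] at e4
  have e1' : (I fun j x => Cop k a (cj b) g j x * conj (f j x)) =
      I fun j z => Pj k (tw (cj b) g) j z * Pj k (tw a (cj f)) j z := e1
  have e2' : (I fun j x => Cop k b (cj a) f j x * conj (g j x)) =
      I fun j z => Pj k (tw (cj a) f) j z * Pj k (tw b (cj g)) j z := e2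
  rw [e1', e2', ← e4, e3]

/-- the kernel of the projection onto the span of the `v n` -/
def kr {d : ℕ} (v : Fin d → Fm G) : Fm (Pr G G) :=
  fun j z => ∑ i, v i j z.1 * conj (v i j (z.1 + z.2))

theorem lk_kr {d : ℕ} (v : Fin d → Fm G) (f : Fm G) (j : ℕ) (x : G j) :
    LK (kr v) f j x = ∑ n, v n j x * 𝔼 y, f j y * conj (v n j y) := by
  have h1 : LK (kr v) f j x =
      𝔼 t, (fun y => ∑ n, v n j x * (f j y * conj (v n j y))) (x + t) := by
    unfold LK kr
    refine Finset.expect_congr rfl fun t _ => ?_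
    rw [Finset.sum_mul]
    refine Finset.sum_congr rfl fun n _ => ?_
    ring
  have h2 := exp_add (fun y => ∑ n, v n j x * (f j y * conj (v n j y))) x
  rw [h1.trans h2, Finset.expect_sum_comm]
  refine Finset.sum_congr rfl fun n _ => ?_
  rw [Finset.mul_expect]

theorem lt_kr {d : ℕ} (v : Fin d → Fm G) (g : Fm G) (j : ℕ) (z : G j) :
    LT (kr v) g j z = ∑ n, conj (v n j z) * 𝔼 y, v n j y * g j y := by
  have h1 : LT (kr v) g j z =
      𝔼 t, (fun y => ∑ n, conj (v n j z) * (v n j y * g j y)) (z - t) := by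
    unfold LT kr
    refine Finset.expect_congr rfl fun t _ => ?_
    rw [Finset.sum_mul]
    refine Finset.sum_congr rfl fun n _ => ?_
    simp only [sub_add_cancel]
    ring
  have h2 := exp_sub (fun y => ∑ n, conj (v n j z) * (v n j y * g j y)) z
  rw [h1.trans h2, Finset.expect_sum_comm]
  refine Finset.sum_congr rfl fun n _ => ?_
  rw [Finset.mul_expect]

/-- the operators keep the span of the `v n` -/
theorem expand (ua : UA) (fa : FA) (co : CO) (k : ℕ) (f : Fm G) (d : ℕ) (v : Fin d → Fm G)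
    (Ω : ∀ j, G j → G j → G j → ℂ) (sp : Sp k f d v Ω) (a b g : Fm G) (ha : Bd a) (hb : Bd b)
    (hg : Bd g) (l : Fin d) :
    I (fun j x => Cop k a b (v l) j x * g j x) =
      ∑ n, I (fun j x => v n j x * g j x) *
        I fun j x => Cop k a b (v l) j x * conj (v n j x) := by
  have hk : kr v ∈ FF G k G := sp.ker
  have bk : Bd (kr v) := (fa.alg G k G).bd _ hk
  have bL : Bd (LK (kr v) (v l)) := (co.bdK _ _ bk (sp.bd l)).1
  have bD : Bd (Cop k a b (v l)) := co.bd k a b (v l) ha hb (sp.bd l)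
  have e1 := co.tr k a b (v l) g ha hb (sp.bd l) hg
  have e2 := co.tr k a b (LK (kr v) (v l)) g ha hb bL hg
  have e3 := co.comm k a b (v l) g ha hb (sp.bd l) hg _ hk
  have e4 : I (fun j x => v l j x * Cop k b a g j x) =
      I fun j x => LK (kr v) (v l) j x * Cop k b a g j x := by
    refine ua.congr _ _ ?_
    filter_upwards [sp.orth] with j hj
    refine Finset.expect_congr rfl fun x _ => ?_
    rw [lk_kr]
    have : ∑ n, v n j x * 𝔼 y, v l j y * conj (v n j y) = v l j x := by
      simp only [hj, mul_ite, mul_one, mul_zero, Finset.sum_ite_eq, Finset.mem_univ, if_true]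
    rw [this]
  rw [e1, e4, ← e2, e3]
  refine ua.eq_of _ _ ?_
  have h5 : (fun j => 𝔼 x, Cop k a b (v l) j x * LT (kr v) g j x) =
      fun j => ∑ n, (𝔼 y, v n j y * g j y) * 𝔼 x, Cop k a b (v l) j x * conj (v n j x) := by
    funext j
    simp only [lt_kr, Finset.mul_sum]
    rw [Finset.expect_sum_comm]
    refine Finset.sum_congr rfl fun n _ => ?_
    rw [Finset.mul_expect]
    refine Finset.expect_congr rfl fun x _ => ?_
    ring
  rw [h5]
  refine tendsto_finsetSum _ fun n _ => ?_
  exact (ua.tend _ (ua.bd_mul (v n) g (sp.bd n) hg)).mul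
    (ua.tend _ (ua.bd_mul _ _ bD (ua.bd_cj (v n) (sp.bd n))))

theorem mul_eq (ua : UA) (fa : FA) (co : CO) (k : ℕ) (f : Fm G) (d : ℕ) (v : Fin d → Fm G)
    (Ω : ∀ j, G j → G j → G j → ℂ) (sp : Sp k f d v Ω) (a b a' b' i l : Fin d) :
    (mat k v a b * mat k v a' b') i l =
      I fun j x => Cop k (v a) (cj (v b)) (Cop k (v a') (cj (v b')) (v l)) j x *
        conj (v i j x) := by
  have bc : ∀ n, Bd (cj (v n)) := fun n => bd_cj ua _ (sp.bd n)
  have bg : Bd (Cop k (cj (v b)) (v a) (cj (v i))) := co.bd k _ _ _ (bc b) (sp.bd a) (bc i)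
  have bD : Bd (Cop k (v a') (cj (v b')) (v l)) := co.bd k _ _ _ (sp.bd a') (bc b') (sp.bd l)
  have e1 : (I fun j x => Cop k (v a) (cj (v b)) (Cop k (v a') (cj (v b')) (v l)) j x *
      conj (v i j x)) = I fun j x => Cop k (v a') (cj (v b')) (v l) j x *
        Cop k (cj (v b)) (v a) (cj (v i)) j x :=
    co.tr k (v a) (cj (v b)) _ (cj (v i)) (sp.bd a) (bc b) bD (bc i)
  rw [e1, expand ua fa co k f d v Ω sp (v a') (cj (v b')) _ (sp.bd a') (bc b') bg l,
    Matrix.mul_apply]
  refine Finset.sum_congr rfl fun n _ => ?_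
  have e2 : mat k v a b i n =
      I fun j x => v n j x * Cop k (cj (v b)) (v a) (cj (v i)) j x :=
    co.tr k (v a) (cj (v b)) (v n) (cj (v i)) (sp.bd a) (bc b) (sp.bd n) (bc i)
  rw [e2]
  rfl

end Stb

theorem stb : StbR := by
  intro ua ub fa co sta G _ _ k f d v Ω sp
  have bc : ∀ n, Bd (cj (v n)) := fun n => Stb.bd_cj ua _ (sp.bd n)
  refine ⟨fun a b => ?_, fun a b a' b' => ?_⟩
  · ext i l
    rw [Matrix.conjTranspose_apply]
    exact Stb.herm ua fa co k (v a) (v b) (v l) (v i) (sp.bd a) (sp.bd b) (sp.bd l) (sp.bd i)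
  · ext i l
    rw [Stb.mul_eq ua fa co k f d v Ω sp, Stb.mul_eq ua fa co k f d v Ω sp]
    exact sta k f d v Ω sp (v a) (cj (v b)) (v a') (cj (v b')) (v l) (sp.bd a) (bc b) (sp.bd a')
      (bc b') (sp.bd l) i

end T3u

end
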