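import Pool.Agent.MP_154433_an.t3u.Spec

/-! A joint eigenvector gives a function of rank one. -/

set_option autoImplicit false

open Filter Topology Function Finset
open scoped BigOperators ComplexConjugate

noncomputable section

namespace T3u

namespace Stc

theorem avg {G : Type} [AddCommGroup G] [Fintype G] (f g : G → ℂ) :
    𝔼 z : G × G, f (z.1 + z.2) * g z.1 = (𝔼 x, f x) * 𝔼 x, g x := by
  rw [← univ_product_univ, expect_product, mul_expect]
  refine expect_congr rfl fun x _ => ?_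
  dsimp only
  rw [← expect_mul]
  congr 1
  exact Fintype.expect_equiv (Equiv.addLeft x) _ _ fun _ => rfl

theorem lin (ua : UA) {Y : ℕ → Type} [∀ j, Fintype (Y j)] {ι : Type} [Fintype ι] (c : ι → ℂ)
    (F : ι → Fm Y) (H : Fm Y) (hF : ∀ p, Bd (F p)) (hH : Bd H) :
    I (fun j y => (∑ p, c p * F p j y) * H j y) = ∑ p, c p * I fun j y => F p j y * H j y := by
  simp only [sum_mul, mul_assoc]
  rw [ua.sum univ (fun p j y => c p * (F p j y * H j y)) fun p _ =>
    ua.bd_mul _ _ (ua.bd_const _) (ua.bd_mul _ _ (hF p) hH)]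
  exact sum_congr rfl fun p _ => ua.cmul _ _ (ua.bd_mul _ _ (hF p) hH)

theorem bd_lin (ua : UA) {Y : ℕ → Type} {ι : Type} [Fintype ι] (c : ι → ℂ) (F : ι → Fm Y)
    (hF : ∀ p, Bd (F p)) : Bd fun j y => ∑ p, c p * F p j y :=
  ua.bd_sum univ (fun p j y => c p * F p j y) fun p _ => ua.bd_mul _ _ (ua.bd_const _) (hF p)

theorem sub_mul' (ua : UA) {Y : ℕ → Type} [∀ j, Fintype (Y j)] (F F' H : Fm Y) (h1 : Bd F)
    (h2 : Bd F') (h3 : Bd H) : I (fun j y => (F j y - F' j y) * H j y) =
      I (fun j y => F j y * H j y) - I fun j y => F' j y * H j y := by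
  simp only [sub_mul]
  exact ua.sub _ _ (ua.bd_mul _ _ h1 h3) (ua.bd_mul _ _ h2 h3)

theorem ev (ua : UA) {Y : ℕ → Type} [∀ j, Fintype (Y j)] (F : Fm Y) (c : ℂ)
    (h : ∀ᶠ j in (UU : Filter ℕ), 𝔼 y, F j y = c) : I F = c :=
  ua.eq_of F c (tendsto_const_nhds.congr' (h.mono fun _ h => h.symm))

theorem bd_tw (ua : UA) {G : ℕ → Type} [∀ j, AddCommGroup (G j)] (a f : Fm G) (ha : Bd a)
    (hf : Bd f) : Bd (tw a f) :=
  ua.bd_mul _ _ (ua.bd_comp (Y' := Pr G G) a (fun _ z => z.1 + z.2) ha)
    (ua.bd_comp (Y' := Pr G G) f (fun _ z => z.1) hf)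

end Stc

open Stc in
theorem stc : StcR := by
  intro ua ub fa co G _ _ k f d v Ω hS _ e he hμ
  choose μ hμ using hμ
  set u : Fm G := fun j x => ∑ i, e i * v i j x with hu
  have bu : Bd u := bd_lin ua e v hS.bd
  have bc : ∀ i, Bd (cj (v i)) := fun i => ua.bd_cj _ (hS.bd i)
  have hA := fa.alg G k G
  have o1 : ∀ᶠ j in (UU : Filter ℕ), ∀ i, 𝔼 x, u j x * conj (v i j x) = e i :=
    hS.orth.mono fun j h i => by
      simp only [hu, sum_mul, mul_assoc, expect_sum_comm, ← mul_expect, h]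
      simp
  have o2 : ∀ᶠ j in (UU : Filter ℕ), 𝔼 x, u j x * conj (u j x) = 1 := o1.mono fun j h => by
    have e1 : ∀ x, u j x * conj (u j x) = ∑ i, conj (e i) * (u j x * conj (v i j x)) := fun x => by
      conv_lhs => enter [2]; rw [hu]
      simp only [map_sum, map_mul, mul_sum]
      exact sum_congr rfl fun i _ => by ring
    simp only [e1, expect_sum_comm, ← mul_expect, h]
    rw [← he]
    exact sum_congr rfl fun i _ => mul_comm _ _
  let B : Fin d × Fin d → Fm (Pr G G) := fun p => tw (cj (v p.1)) (v p.2)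
  let c : Fin d × Fin d → ℂ := fun p => conj (e p.1) * e p.2
  have bB : ∀ p, Bd (B p) := fun p => bd_tw ua _ _ (bc _) (hS.bd _)
  have pB : ∀ p, IsP k (B p) (Pj k (B p)) := fun p => fa.pj k _ (bB p)
  have bP : ∀ p, Bd (Pj k (B p)) := fun p => hA.bd _ (pB p).2.1
  have eA : tw (cj u) u = fun j z => ∑ p, c p * B p j z := by
    funext j z
    simp only [tw, cj, hu, c, B, map_sum, map_mul, sum_mul_sum, Fintype.sum_prod_type]
    exact sum_congr rfl fun b _ => sum_congr rfl fun l _ => by ring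
  have bA : Bd (tw (cj u) u) := bd_tw ua _ _ (ua.bd_cj _ bu) bu
  let P : Fm (Pr G G) := fun j z => ∑ p, c p * Pj k (B p) j z
  have mP : P ∈ FF G k G := ub.sum _ univ (fun p j z => c p * Pj k (B p) j z) hA fun p _ =>
    ub.cmul _ _ hA _ (pB p).2.1
  have bPP := hA.bd _ mP
  have hO : Ort (fun j z => tw (cj u) u j z - P j z) (FF G k G) := fun w hw => by
    have e1 : (fun j z => (tw (cj u) u j z - P j z) * w j z) =
        fun j z => (∑ p, c p * (B p j z - Pj k (B p) j z)) * w j z := by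
      funext j z
      simp only [eA, P, mul_sub, sum_sub_distrib]
    rw [e1, lin ua c (fun p j z => B p j z - Pj k (B p) j z) w
      (fun p => ua.bd_sub _ _ (bB p) (bP p)) (hA.bd _ hw)]
    exact sum_eq_zero fun p _ => by rw [(pB p).2.2 w hw, mul_zero]
  have hM : ∀ p q : Fin d × Fin d, I (fun j z => Pj k (B p) j z * conj (B q j z)) =
      mat k v q.1 p.1 q.2 p.2 := fun p q => by
    have b1 := bd_tw ua _ _ (hS.bd q.1) (bc q.2)
    have p1 := fa.pj k _ b1
    have h1 := p1.2.2 _ (pB p).2.1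
    rw [sub_mul' ua _ _ _ b1 (hA.bd _ p1.2.1) (bP p), sub_eq_zero] at h1
    have h2 := co.pair k (v q.1) (cj (v p.1)) (v p.2) (cj (v q.2)) (hS.bd _) (bc _) (hS.bd _) (bc _)
    refine Eq.trans (congrArg I ?_) (h1.trans (Eq.trans
      (congrArg I (funext fun j => funext fun z => mul_comm _ _)) h2.symm))
    funext j z
    simp only [B, tw, cj, map_mul, Complex.conj_conj]
    ring
  have hT : ∀ q : Fin d × Fin d, I (fun j z => conj (B q j z) * P j z) =
      (∑ b, conj (e b) * μ q.1 b) * e q.2 := fun q => by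
    refine Eq.trans (congrArg I (funext fun j => funext fun z => mul_comm _ _)) ?_
    rw [lin ua c _ (fun j z => conj (B q j z)) bP (ua.bd_cj _ (bB q)), Fintype.sum_prod_type,
      sum_mul]
    refine sum_congr rfl fun b _ => ?_
    rw [mul_assoc, ← hμ, mul_sum]
    exact sum_congr rfl fun l _ => by rw [hM]; simp only [c]; ring
  have mK := hA.cj _ hS.ker
  have h3 : I (fun j z => P j z * conj (tw (cj u) u j z)) =
      ∑ a, (∑ b, conj (e b) * μ a b) * e a := by
    have e1 : (fun j z => P j z * conj (tw (cj u) u j z)) =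
        fun j z => (∑ q, conj (c q) * conj (B q j z)) * P j z := by
      funext j z
      simp only [eA, map_sum, map_mul]
      ring
    rw [e1, lin ua _ (fun q j z => conj (B q j z)) P (fun q => ua.bd_cj _ (bB q)) bPP,
      Fintype.sum_prod_type]
    refine sum_congr rfl fun a _ => ?_
    rw [← mul_one (_ * e a), ← he, mul_sum]
    exact sum_congr rfl fun i _ => by
      rw [hT]; simp only [c, map_mul, Complex.conj_conj]; ring
  have h4 : I (fun j z => P j z * conj (∑ i, v i j z.1 * conj (v i j (z.1 + z.2)))) =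
      ∑ a, (∑ b, conj (e b) * μ a b) * e a := by
    have e1 : (fun j z => P j z * conj (∑ i, v i j z.1 * conj (v i j (z.1 + z.2)))) =
        fun j z => (∑ i, 1 * conj (B (i, i) j z)) * P j z := by
      funext j z
      simp only [B, tw, cj, map_sum, map_mul, one_mul, mul_comm]
    rw [e1, lin ua _ (fun i j z => conj (B (i, i) j z)) P (fun q => ua.bd_cj _ (bB _)) bPP]
    exact sum_congr rfl fun a _ => by rw [hT, one_mul]
  have h5 : I (fun j z => tw (cj u) u j z * conj (∑ i, v i j z.1 * conj (v i j (z.1 + z.2)))) =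
      1 := ev ua _ _ (o1.mono fun j h => by
    have e1 : ∀ z : G j × G j, tw (cj u) u j z * conj (∑ i, v i j z.1 * conj (v i j (z.1 + z.2))) =
        ∑ i, conj (u j (z.1 + z.2) * conj (v i j (z.1 + z.2))) * (u j z.1 * conj (v i j z.1)) :=
      fun z => by
        simp only [tw, cj, map_sum, map_mul, mul_sum]
        exact sum_congr rfl fun i _ => by ring
    simp only [e1, expect_sum_comm]
    rw [← he]
    refine sum_congr rfl fun i _ => ?_
    rw [avg (fun x => conj (u j x * conj (v i j x))) fun x => u j x * conj (v i j x),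
      ← map_expect, h, mul_comm])
  have h6 : I (fun j z => tw (cj u) u j z * conj (tw (cj u) u j z)) = 1 :=
    ev ua _ _ (o2.mono fun j h => by
      refine Eq.trans (expect_congr rfl fun z _ => ?_)
        ((avg (fun x => u j x * conj (u j x)) fun x => u j x * conj (u j x)).trans
          (by rw [h, mul_one]))
      simp only [tw, cj, map_mul, Complex.conj_conj]
      ring)
  refine ⟨bu, ev ua _ _ o2, ub.nul _ _ _ hA bA mP
    ((ua.nul_iff _ (ua.bd_sub _ _ bA bPP)).2 ?_)⟩
  have h7 := hO _ mK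
  rw [sub_mul' ua _ _ _ bA bPP (hA.bd _ mK), h5, h4, ← h3, ← h6,
    ← sub_mul' ua _ _ _ bA bPP (ua.bd_cj _ bA)] at h7
  simp only [map_sub, mul_sub]
  rw [ua.sub _ _ (ua.bd_mul _ _ (ua.bd_sub _ _ bA bPP) (ua.bd_cj _ bA))
    (ua.bd_mul _ _ (ua.bd_sub _ _ bA bPP) (ua.bd_cj _ bPP)), h7, hO _ (hA.cj _ mP), sub_zero]

end T3u

end
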