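import Pool.Agent.MP_154433_an.t3u.Spec

/-! The cube product of a character agrees, up to a unimodular function of the sides, with an
element of the closed span of vertex products (row Typ). -/

set_option autoImplicit false
set_option linter.unusedVariables false

open Filter Topology Function Finset
open scoped BigOperators ComplexConjugate
open Pool.Agent.MP_154433_an.T3S (B1 dd Q ip LG)

noncomputable section

namespace T3u

namespace Typ

lemma mul_cj {z : ℂ} (h : ‖z‖ = 1) : z * conj z = 1 := by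
  rw [Complex.mul_conj, Complex.normSq_eq_norm_sq, h]
  simp

lemma mul1 {Y : ℕ → Type} [∀ j, Fintype (Y j)] {A : Set (Fm Y)} (h : Alg A) : Mul1 A :=
  ⟨h.bd, h.const 1, h.mul, h.cj⟩

lemma sg_mem {Y : ℕ → Type} [∀ j, Fintype (Y j)] {A : Set (Fm Y)} (h : Alg A) {n : ℕ}
    (ε : Fin n → Bool) (F : Fm Y) (hF : F ∈ A) : (fun j y => sg ε (F j y)) ∈ A := by
  unfold sg
  split_ifs
  · exact hF
  · exact h.cj F hF

lemma mp_snd {G P : ℕ → Type} [∀ j, AddCommGroup (G j)] [∀ j, Fintype (G j)]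
    [∀ j, Fintype (P j)] : MP (Y := P) (Y' := Pr G P) fun j z => z.2 := by
  intro j φ
  rw [← Finset.univ_product_univ, Finset.expect_product]
  exact Finset.expect_const (Finset.univ_nonempty (α := G j)) (𝔼 y, φ y)

lemma mp_sh {G P : ℕ → Type} [∀ j, Fintype (G j)] [∀ j, AddCommGroup (P j)]
    [∀ j, Fintype (P j)] (t : ∀ j, P j) :
    MP (Y := Pr G P) (Y' := Pr G P) fun j z => (z.1, z.2 + t j) := by
  intro j φ
  exact Fintype.expect_equiv ((Equiv.refl (G j)).prodCongr (Equiv.addRight (t j))) _ _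
    fun z => rfl

section Main

variable {G : ℕ → Type} [∀ j, AddCommGroup (G j)] [∀ j, Fintype (G j)]

/-- the algebra on the space of cubes -/
abbrev Be (G : ℕ → Type) [∀ j, AddCommGroup (G j)] [∀ j, Fintype (G j)] (k : ℕ) :
    Set (Fm (Pr G fun j => Fin (k + 1) → G j)) := CS (VP G (k + 1) (F1 G k))

/-- the functions of the sides that match the cube product -/
def Th (k : ℕ) (φ : Fm G) : Set (Fm fun j => Fin (k + 1) → G j) :=
  {θ | (fun j z => conj (cp (k + 1) (φ j) z.2 z.1) * θ j z.2) ∈ Be G k}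

lemma be_alg (ub : UB) (fa : FA) (vp : VpA) (k : ℕ) : Alg (Be G k) :=
  ub.gen _ (vp.mul1 (k + 1) _ (mul1 (fa.alg1 G k)))

lemma vp_mem (ub : UB) (fa : FA) (vp : VpA) (k : ℕ) (b : (Fin (k + 1) → Bool) → Fm G)
    (hb : ∀ ε, b ε ∈ F1 G k) :
    (fun j z => ∏ ε : Fin (k + 1) → Bool, b ε j (z.1 + vx ε z.2)) ∈ Be G k := by
  have h : (fun j z => ∏ ε : Fin (k + 1) → Bool, b ε j (z.1 + vx ε z.2)) ∈
      VP G (k + 1) (F1 G k) := ⟨b, hb, rfl⟩
  exact ub.sub _ _ h ((vp.mul1 (k + 1) _ (mul1 (fa.alg1 G k))).bd _ h)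

lemma nrm (ca : CpA) {k : ℕ} {φ : Fm G} (hφ : Ch k φ) (j : ℕ) (τ : Fin (k + 1) → G j) (x : G j)
    (w : ℂ) : ‖conj (cp (k + 1) (φ j) τ x) * w‖ = ‖w‖ := by
  rw [norm_mul, RCLike.norm_conj, ca.un (k + 1) (φ j) (hφ.un j) τ x, one_mul]

lemma th_bd (ub : UB) (fa : FA) (ca : CpA) (vp : VpA) {k : ℕ} {φ : Fm G} (hφ : Ch k φ) :
    ∀ θ ∈ Th k φ, Bd θ := by
  intro θ hθ
  obtain ⟨C, hC⟩ := (be_alg ub fa vp k).bd _ hθ
  refine ⟨C, fun j τ => ?_⟩
  have h := hC j (0, τ)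
  rwa [nrm ca hφ] at h

lemma th_cl (ua : UA) (ub : UB) (fa : FA) (ca : CpA) (vp : VpA) {k : ℕ} {φ : Fm G}
    (hφ : Ch k φ) : Cl (Th k φ) ⊆ Th k φ := by
  rintro θ ⟨⟨C, hC⟩, h⟩
  refine (be_alg ub fa vp k).cl ⟨⟨C, fun j z => ?_⟩, fun ε hε => ?_⟩
  · rw [nrm ca hφ]
    exact hC j z.2
  · obtain ⟨θ', hθ', he⟩ := h ε hε
    refine ⟨_, hθ', he.mono fun j hj => ?_⟩
    have e := ua.mp_real (Y := fun j => Fin (k + 1) → G j)
      (Y' := Pr G fun j => Fin (k + 1) → G j) (fun j z => z.2) mp_snd j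
      fun τ => ‖θ j τ - θ' j τ‖ ^ 2
    refine le_of_eq_of_le ?_ (e.trans_le hj)
    refine Finset.expect_congr rfl fun z _ => ?_
    rw [← mul_sub, nrm ca hφ]

lemma th_add (ub : UB) (fa : FA) (vp : VpA) {k : ℕ} {φ : Fm G} :
    ∀ θ ∈ Th k φ, ∀ θ' ∈ Th k φ, (fun j y => θ j y + θ' j y) ∈ Th k φ := by
  intro θ hθ θ' hθ'
  have h := (be_alg ub fa vp k).add _ hθ _ hθ'
  simp only [← mul_add] at h
  exact h

lemma th_shift (ub : UB) (fa : FA) (ca : CpA) (vp : VpA) {k : ℕ} {φ : Fm G} (hφ : Ch k φ) :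
    ∀ θ ∈ Th k φ, ∀ t : ∀ j, Fin (k + 1) → G j, (fun j y => θ j (y + t j)) ∈ Th k φ := by
  intro θ hθ t
  have A := be_alg (G := G) ub fa vp k
  have h1 := ub.pull (fun j (z : G j × (Fin (k + 1) → G j)) => (z.1, z.2 + t j))
    (VP G (k + 1) (F1 G k)) (Be G k) (mp_sh t) A (by
      rintro F ⟨b, hb, rfl⟩
      have h := vp_mem ub fa vp k (fun ε j x => b ε j (x + vx ε (t j)))
        fun ε => fa.shift1 k (fun j => vx ε (t j)) _ (hb ε)
      simp only [add_assoc, ← ca.vadd] at h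
      exact h) _ hθ
  have h2 := vp_mem ub fa vp k (fun ε j x => sg ε (dd (vx ε (t j)) (φ j) x))
    fun ε => sg_mem (fa.alg1 G k) ε _ (hφ.one fun j => vx ε (t j))
  simp only [← ca.side] at h2
  have h3 := A.mul _ h2 _ h1
  have e : (fun j (z : G j × (Fin (k + 1) → G j)) =>
      conj (cp (k + 1) (φ j) z.2 z.1) * θ j (z.2 + t j)) = fun j z =>
      cp (k + 1) (φ j) (z.2 + t j) z.1 * conj (cp (k + 1) (φ j) z.2 z.1) *
        (conj (cp (k + 1) (φ j) (z.2 + t j) z.1) * θ j (z.2 + t j)) := by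
    funext j z
    have h := mul_cj (ca.un (k + 1) (φ j) (hφ.un j) (z.2 + t j) z.1)
    linear_combination (-(conj (cp (k + 1) (φ j) z.2 z.1) * θ j (z.2 + t j))) * h
  show (fun j (z : G j × (Fin (k + 1) → G j)) =>
      conj (cp (k + 1) (φ j) z.2 z.1) * θ j (z.2 + t j)) ∈ Be G k
  rw [e]
  exact h3

lemma th_cut (ub : UB) (cf : CfcS) (fa : FA) (ca : CpA) (vp : VpA) {k : ℕ} {φ : Fm G}
    (hφ : Ch k φ) : ∀ θ ∈ Th k φ, ∀ θ' ∈ Th k φ, ∀ ψ : ℝ → ℝ, Continuous ψ →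
    (fun j y => (ψ ‖θ j y‖ : ℂ) * θ' j y) ∈ Th k φ := by
  intro θ hθ θ' hθ' ψ hψ
  have A := be_alg (G := G) ub fa vp k
  have h1 := cf (Be G k) (fun w => (ψ ‖w‖ : ℂ)) A
    (Complex.continuous_ofReal.comp (hψ.comp continuous_norm)) _ hθ
  simp only [nrm ca hφ] at h1
  have h2 := A.mul _ h1 _ hθ'
  have e : (fun j (z : G j × (Fin (k + 1) → G j)) =>
      conj (cp (k + 1) (φ j) z.2 z.1) * ((ψ ‖θ j z.2‖ : ℂ) * θ' j z.2)) = fun j z =>
      (ψ ‖θ j z.2‖ : ℂ) * (conj (cp (k + 1) (φ j) z.2 z.1) * θ' j z.2) := by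
    funext j z
    ring
  show (fun j (z : G j × (Fin (k + 1) → G j)) =>
      conj (cp (k + 1) (φ j) z.2 z.1) * ((ψ ‖θ j z.2‖ : ℂ) * θ' j z.2)) ∈ Be G k
  rw [e]
  exact h2

lemma th_mean (ub : UB) (uc : UC) (fa : FA) (ca : CpA) (vp : VpA) {k : ℕ} {φ : Fm G}
    (hφ : Ch k φ) : (fun j τ => 𝔼 x, cp (k + 1) (φ j) τ x) ∈ Th k φ := by
  have A := be_alg (G := G) ub fa vp k
  have h1 := uc.samp (R := G) (Be G k)
    (fun j w => cp (k + 1) (φ j) w.1.2 (w.1.1 + w.2) * conj (cp (k + 1) (φ j) w.1.2 w.1.1)) A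
    ⟨1, fun j w => by
      show ‖cp (k + 1) (φ j) w.1.2 (w.1.1 + w.2) * conj (cp (k + 1) (φ j) w.1.2 w.1.1)‖ ≤ 1
      rw [mul_comm, nrm ca hφ, ca.un (k + 1) (φ j) (hφ.un j)]⟩
    (fun r => by
      have h2 := vp_mem ub fa vp k (fun ε j x => sg ε (dd (r j) (φ j) x))
        fun ε => sg_mem (fa.alg1 G k) ε _ (hφ.one r)
      simp only [← ca.diag] at h2
      exact h2)
  have e : (fun j (z : G j × (Fin (k + 1) → G j)) =>
      conj (cp (k + 1) (φ j) z.2 z.1) * 𝔼 x, cp (k + 1) (φ j) z.2 x) = fun j z =>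
      𝔼 r, cp (k + 1) (φ j) z.2 (z.1 + r) * conj (cp (k + 1) (φ j) z.2 z.1) := by
    funext j z
    rw [← Finset.expect_mul, mul_comm]
    congr 1
    exact (Fintype.expect_equiv (Equiv.addLeft z.1) _ _ fun r => rfl).symm
  show (fun j (z : G j × (Fin (k + 1) → G j)) =>
      conj (cp (k + 1) (φ j) z.2 z.1) * 𝔼 x, cp (k + 1) (φ j) z.2 x) ∈ Be G k
  rw [e]
  exact h1

lemma not_nul (ua : UA) (fa : FA) (ca : CpA) {k : ℕ} {φ : Fm G} (hφ : Ch k φ) :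
    ¬ Nul (fun j τ => 𝔼 x, cp (k + 1) (φ j) τ x : Fm fun j => Fin (k + 1) → G j) := by
  intro h
  have A := fa.alg G k G
  have hq : Nq k (P := G) fun j z => dd z.2 (φ j) z.1 := by
    show Tendsto (fun j => Q (k + 1) (φ j)) UU (𝓝 0)
    refine tendsto_order.2 ⟨fun a ha => Eventually.of_forall fun j => ?_, fun a ha => ?_⟩
    · rw [ca.q]
      exact ha.trans_le (Finset.expect_nonneg fun τ _ => sq_nonneg _)
    · refine (h (a / 2) (by linarith)).mono fun j hj => ?_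
      rw [ca.q]
      exact hj.trans_lt (by linarith)
  have h0 := (fa.ort k _ (A.bd _ hφ.two)).1 hq _ (A.cj _ hφ.two)
  have h1 : I (Y := Pr G G) (fun j z => dd z.2 (φ j) z.1 * conj (dd z.2 (φ j) z.1)) = 1 := by
    refine ua.eq_of _ _ (tendsto_const_nhds.congr fun j => ?_)
    rw [← Finset.expect_const (Finset.univ_nonempty (α := G j × G j)) (1 : ℂ)]
    refine Finset.expect_congr rfl fun z _ => (mul_cj ?_).symm
    unfold dd
    rw [norm_mul, RCLike.norm_conj, hφ.un j, hφ.un j, one_mul]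
  exact one_ne_zero (h1.symm.trans h0)

end Main

end Typ

theorem typ : TypR := by
  intro ua ub cf uc fa ca vp exh G _ _ k φ hφ
  obtain ⟨θ, hθ, hu⟩ := exh (Typ.Th k φ) (Typ.th_bd ub fa ca vp hφ) (Typ.th_cl ua ub fa ca vp hφ)
    (Typ.th_add ub fa vp) (Typ.th_shift ub fa ca vp hφ) (Typ.th_cut ub cf fa ca vp hφ)
    ⟨_, Typ.th_mean ub uc fa ca vp hφ, Typ.not_nul ua fa ca hφ⟩
  exact ⟨θ, hu, hθ⟩

end T3u

end
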