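import Pool.Agent.MP_154433_an.t3u.Spec

/-! The calculus of limits of averages. -/

set_option autoImplicit false

open Filter Topology Function Finset
open scoped BigOperators ComplexConjugate

noncomputable section

namespace T3u

namespace UAx

variable {Y : ℕ → Type}

theorem bd0 {F : Fm Y} (h : Bd F) : ∃ C : ℝ, 0 ≤ C ∧ ∀ j y, ‖F j y‖ ≤ C :=
  h.elim fun C hC => ⟨max C 0, le_max_right _ _, fun j y => (hC j y).trans (le_max_left _ _)⟩

theorem exp_le {α : Type} [Fintype α] {f : α → ℝ} {C : ℝ} (h0 : 0 ≤ C) (h : ∀ x, f x ≤ C) :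
    𝔼 x, f x ≤ C := by
  cases isEmpty_or_nonempty α
  · simpa using h0
  · exact expect_le univ_nonempty fun x _ => h x

theorem norm_exp {α : Type} [Fintype α] {f : α → ℂ} {C : ℝ} (h0 : 0 ≤ C) (h : ∀ x, ‖f x‖ ≤ C) :
    ‖𝔼 x, f x‖ ≤ C := (RCLike.norm_expect_le (K := ℂ)).trans (exp_le h0 h)

theorem seq (a : ℕ → ℂ) (C : ℝ) (h : ∀ j, ‖a j‖ ≤ C) : ∃ c, ‖c‖ ≤ C ∧ Tendsto a UU (𝓝 c) := by
  obtain ⟨c, hc, h1⟩ := (isCompact_closedBall (0 : ℂ) C).ultrafilter_le_nhds (UU.map a)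
    (le_principal_iff.2 (mem_map.2 (univ_mem' fun j => mem_closedBall_zero_iff.2 (h j))))
  exact ⟨c, by simpa using hc, h1⟩

theorem bd_const (c : ℂ) : Bd (fun _ _ => c : Fm Y) := ⟨‖c‖, fun _ _ => le_rfl⟩

theorem bd_add (F F' : Fm Y) (h : Bd F) (h' : Bd F') : Bd fun j y => F j y + F' j y :=
  h.elim fun C hC => h'.elim fun C' hC' =>
    ⟨C + C', fun j y => (norm_add_le _ _).trans (add_le_add (hC j y) (hC' j y))⟩

theorem bd_sub (F F' : Fm Y) (h : Bd F) (h' : Bd F') : Bd fun j y => F j y - F' j y :=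
  h.elim fun C hC => h'.elim fun C' hC' =>
    ⟨C + C', fun j y => (norm_sub_le _ _).trans (add_le_add (hC j y) (hC' j y))⟩

theorem bd_mul (F F' : Fm Y) (h : Bd F) (h' : Bd F') : Bd fun j y => F j y * F' j y :=
  (bd0 h).elim fun C hC => h'.elim fun C' hC' => ⟨C * C', fun j y => by
    rw [norm_mul]
    exact mul_le_mul (hC.2 j y) (hC' j y) (norm_nonneg _) hC.1⟩

theorem bd_cj (F : Fm Y) (h : Bd F) : Bd fun j y => conj (F j y) :=
  h.imp fun C hC j y => by simpa using hC j y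

theorem bd_sum {ι : Type} (s : Finset ι) (F : ι → Fm Y) (h : ∀ i ∈ s, Bd (F i)) :
    Bd fun j y => ∑ i ∈ s, F i j y := by
  classical
  induction s using Finset.induction_on with
  | empty => simpa using bd_const 0
  | insert a s ha ih =>
    simp only [sum_insert ha]
    exact bd_add _ _ (h a (mem_insert_self _ _)) (ih fun i hi => h i (mem_insert_of_mem hi))

theorem bd_prod {ι : Type} (s : Finset ι) (F : ι → Fm Y) (h : ∀ i ∈ s, Bd (F i)) :
    Bd fun j y => ∏ i ∈ s, F i j y := by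
  classical
  induction s using Finset.induction_on with
  | empty => simpa using bd_const 1
  | insert a s ha ih =>
    simp only [prod_insert ha]
    exact bd_mul _ _ (h a (mem_insert_self _ _)) (ih fun i hi => h i (mem_insert_of_mem hi))

variable [∀ j, Fintype (Y j)]

theorem eq_of (F : Fm Y) (c : ℂ) (h : Tendsto (fun j => 𝔼 y, F j y) UU (𝓝 c)) : I F = c :=
  h.limUnder_eq

theorem tend (F : Fm Y) (h : Bd F) : Tendsto (fun j => 𝔼 y, F j y) UU (𝓝 (I F)) := by
  obtain ⟨C, h0, hC⟩ := bd0 h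
  obtain ⟨c, -, hc⟩ := seq (fun j => 𝔼 y, F j y) C fun j => norm_exp h0 (hC j)
  rwa [eq_of F c hc]

theorem add (F F' : Fm Y) (h : Bd F) (h' : Bd F') :
    I (fun j y => F j y + F' j y) = I F + I F' :=
  eq_of _ _ (by simpa only [expect_add_distrib] using (tend F h).add (tend F' h'))

theorem sub (F F' : Fm Y) (h : Bd F) (h' : Bd F') :
    I (fun j y => F j y - F' j y) = I F - I F' :=
  eq_of _ _ (by simpa only [expect_sub_distrib] using (tend F h).sub (tend F' h'))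

theorem cmul (c : ℂ) (F : Fm Y) (h : Bd F) : I (fun j y => c * F j y) = c * I F :=
  eq_of _ _ (by simpa only [mul_expect] using (tend F h).const_mul c)

theorem sum {ι : Type} (s : Finset ι) (F : ι → Fm Y) (h : ∀ i ∈ s, Bd (F i)) :
    I (fun j y => ∑ i ∈ s, F i j y) = ∑ i ∈ s, I (F i) :=
  eq_of _ _ (by
    simpa only [expect_sum_comm] using tendsto_finsetSum s fun i hi => tend (F i) (h i hi))

theorem cjI (F : Fm Y) (h : Bd F) : I (fun j y => conj (F j y)) = conj (I F) :=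
  eq_of _ _ (by
    simpa only [Function.comp_def, map_expect] using
      (Complex.continuous_conj.tendsto _).comp (tend F h))

theorem est {α : Type} [Fintype α] (f g : α → ℂ) {C η : ℝ} (hη : 0 < η) (h : ∀ x, ‖f x‖ ≤ C) :
    ‖𝔼 x, f x * g x‖ ≤ η + C ^ 2 / η * 𝔼 x, ‖g x‖ ^ 2 := by
  refine (RCLike.norm_expect_le (K := ℂ)).trans ?_
  rw [← sub_le_iff_le_add, mul_expect, ← expect_sub_distrib]
  refine exp_le hη.le fun x => ?_
  have h1 : ‖f x * g x‖ ≤ C * ‖g x‖ := by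
    rw [norm_mul]
    exact mul_le_mul_of_nonneg_right (h x) (norm_nonneg _)
  have h2 : C * ‖g x‖ - η ≤ C ^ 2 / η * ‖g x‖ ^ 2 := by
    rw [div_mul_eq_mul_div, le_div_iff₀ hη]
    nlinarith [sq_nonneg (C * ‖g x‖ - η), sq_nonneg (C * ‖g x‖), sq_nonneg η]
  linarith

theorem small (F G : Fm Y) {C η ε : ℝ} (hη : 0 < η) (h : ∀ j y, ‖F j y‖ ≤ C) (hG : Bd G)
    (hε : ∀ᶠ j in (UU : Filter ℕ), 𝔼 y, ‖G j y‖ ^ 2 ≤ ε) :
    ‖I fun j y => F j y * G j y‖ ≤ η + C ^ 2 / η * ε := by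
  refine le_of_tendsto (tend _ (bd_mul F G ⟨C, h⟩ hG)).norm ?_
  filter_upwards [hε] with j hj
  refine (est _ _ hη (h j)).trans ?_
  gcongr

theorem zero_of {z : ℂ} {C : ℝ} (h : ∀ ε : ℝ, 0 < ε → ∀ η : ℝ, 0 < η → ‖z‖ ≤ η + C ^ 2 / η * ε) :
    z = 0 := by
  refine norm_le_zero_iff.1 (le_of_forall_pos_le_add fun δ hδ => ?_)
  refine (h (δ ^ 2 / (4 * (C ^ 2 + 1))) (by positivity) (δ / 2) (by positivity)).trans ?_
  have e : C ^ 2 / (δ / 2) * (δ ^ 2 / (4 * (C ^ 2 + 1))) = δ / 2 * (C ^ 2 / (C ^ 2 + 1)) := by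
    field_simp
    ring
  have : C ^ 2 / (C ^ 2 + 1) ≤ 1 := (div_le_one (by positivity)).2 (by linarith)
  rw [e]
  nlinarith

theorem nul_mul (F F' : Fm Y) (h : Bd F) (h' : Bd F') (hn : Nul F) :
    I (fun j y => F j y * F' j y) = 0 := by
  obtain ⟨C, hC⟩ := h'
  simp only [mul_comm (F _ _)]
  exact zero_of fun ε hε η hη => small F' F hη hC h (hn ε hε)

theorem nul_iff (F : Fm Y) (h : Bd F) : Nul F ↔ I (fun j y => F j y * conj (F j y)) = 0 := by
  refine ⟨nul_mul F _ h (bd_cj F h), fun h0 ε hε => ?_⟩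
  have h1 := tend _ (bd_mul F _ h (bd_cj F h))
  rw [h0] at h1
  filter_upwards [((Complex.continuous_re.tendsto 0).comp h1).eventually
    (eventually_lt_nhds (b := ε) hε)] with j hj
  have e : 𝔼 y, F j y * conj (F j y) = ((𝔼 y, ‖F j y‖ ^ 2 : ℝ) : ℂ) := by
    simp only [Complex.mul_conj', Complex.ofReal_expect, Complex.ofReal_pow]
  have h2 : (𝔼 y, F j y * conj (F j y)).re < ε := hj
  rw [e, Complex.ofReal_re] at h2
  exact h2.le

theorem ort_cs (F : Fm Y) (S : Set (Fm Y)) (h : Bd F) (hS : ∀ c ∈ S, Bd c) (ho : Ort F S) :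
    Ort F (CS S) := by
  have key : ∀ c ∈ Submodule.span ℂ S, Bd c ∧ I (fun j y => F j y * c j y) = 0 := by
    intro c hc
    induction hc using Submodule.span_induction with
    | mem c hc => exact ⟨hS c hc, ho c hc⟩
    | zero => exact ⟨bd_const 0, eq_of _ _ (by simp)⟩
    | add c c' _ _ h1 h2 =>
      refine ⟨bd_add c c' h1.1 h2.1, ?_⟩
      simp only [Pi.add_apply, mul_add]
      rw [add _ _ (bd_mul F c h h1.1) (bd_mul F c' h h2.1), h1.2, h2.2, add_zero]
    | smul a c _ h1 =>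
      refine ⟨bd_mul _ c (bd_const a) h1.1, ?_⟩
      simp only [Pi.smul_apply, smul_eq_mul, mul_left_comm (F _ _)]
      rw [cmul _ _ (bd_mul F c h h1.1), h1.2, mul_zero]
  rintro c ⟨hc, h1⟩
  obtain ⟨C, hC⟩ := id h
  refine zero_of (C := C) fun ε hε η hη => ?_
  obtain ⟨c', h2, h3⟩ := h1 ε hε
  obtain ⟨h4, h5⟩ := key c' h2
  have := small F (fun j y => c j y - c' j y) hη hC (bd_sub c c' hc h4) h3
  simp only [mul_sub] at this
  rwa [sub _ _ (bd_mul F c h hc) (bd_mul F c' h h4), h5, sub_zero] at this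

end UAx

open UAx in
theorem ua : UA where
  atTop := Nat.hyperfilter_le_atTop
  tend := tend
  eq_of := eq_of
  congr F F' h := congrArg lim (map_congr h)
  seq := seq
  bd_const := bd_const
  bd_add := bd_add
  bd_sub := bd_sub
  bd_mul := bd_mul
  bd_cj := bd_cj
  bd_comp _ _ h := h.imp fun _ hC j _ => hC j _
  bd_sum := bd_sum
  bd_prod := bd_prod
  bd_exp _ h := (bd0 h).imp fun _ hC j _ => norm_exp hC.1 fun _ => hC.2 j _
  add := add
  sub := sub
  cmul := cmul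
  sum := sum
  cj := cjI
  nul_iff := nul_iff
  nul_mul := nul_mul
  ort_cs := ort_cs
  mp_real π h j φ := Complex.ofReal_injective (by
    simpa only [Complex.ofReal_expect] using h j fun y => (φ y : ℂ))

end T3u

end
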