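import Pool.Agent.MP_154433_an.t3u.Spec

/-! Closed algebras of bounded families. -/

set_option autoImplicit false
set_option linter.unusedVariables false

open Filter Topology Function Finset
open scoped BigOperators ComplexConjugate

noncomputable section

namespace T3u

namespace UBx

variable {Y : ℕ → Type} [∀ j, Fintype (Y j)]

def Near (F F' : Fm Y) (ε : ℝ) : Prop :=
  ∀ᶠ j in (UU : Filter ℕ), 𝔼 y, ‖F j y - F' j y‖ ^ 2 ≤ ε

lemma sq_add_le (a b : ℂ) : ‖a + b‖ ^ 2 ≤ 2 * ‖a‖ ^ 2 + 2 * ‖b‖ ^ 2 := by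
  have h := pow_le_pow_left₀ (norm_nonneg _) (norm_add_le a b) 2
  nlinarith [sq_nonneg (‖a‖ - ‖b‖)]

/-- the basic estimate -/
lemma near_of {F F' G G' H H' : Fm Y} {a b ε ε' : ℝ} (ha : 0 ≤ a) (hb : 0 ≤ b)
    (h : ∀ j y, ‖H j y - H' j y‖ ^ 2 ≤ a * ‖F j y - F' j y‖ ^ 2 + b * ‖G j y - G' j y‖ ^ 2)
    (hF : Near F F' ε) (hG : Near G G' ε') : Near H H' (a * ε + b * ε') := by
  filter_upwards [hF, hG] with j h1 h2
  calc 𝔼 y, ‖H j y - H' j y‖ ^ 2
      ≤ 𝔼 y, (a * ‖F j y - F' j y‖ ^ 2 + b * ‖G j y - G' j y‖ ^ 2) :=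
        Finset.expect_le_expect fun y _ => h j y
    _ = a * (𝔼 y, ‖F j y - F' j y‖ ^ 2) + b * 𝔼 y, ‖G j y - G' j y‖ ^ 2 := by
        rw [Finset.expect_add_distrib, Finset.mul_expect, Finset.mul_expect]
    _ ≤ a * ε + b * ε' :=
        add_le_add (mul_le_mul_of_nonneg_left h1 ha) (mul_le_mul_of_nonneg_left h2 hb)

lemma near_mono {F F' : Fm Y} {ε ε' : ℝ} (h : Near F F' ε) (he : ε ≤ ε') : Near F F' ε' :=
  h.mono fun j hj => hj.trans he

lemma near_self (F : Fm Y) {ε : ℝ} (he : 0 ≤ ε) : Near F F ε :=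
  Eventually.of_forall fun j => by simpa using he

lemma mem_cl {S : Set (Fm Y)} {F : Fm Y} (hF : F ∈ S) (hb : Bd F) : F ∈ Cl S :=
  ⟨hb, fun ε hε => ⟨F, hF, near_self F hε.le⟩⟩

lemma cl_mono {S T : Set (Fm Y)} (h : S ⊆ T) : Cl S ⊆ Cl T := fun F hF =>
  ⟨hF.1, fun ε hε => by
    obtain ⟨F', h1, h2⟩ := hF.2 ε hε
    exact ⟨F', h h1, h2⟩⟩

lemma cl_cl (S : Set (Fm Y)) : Cl (Cl S) ⊆ Cl S := fun F hF =>
  ⟨hF.1, fun ε hε => by
    obtain ⟨F', h1, h2⟩ := hF.2 (ε / 4) (by positivity)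
    obtain ⟨F'', h3, h4⟩ := h1.2 (ε / 4) (by positivity)
    refine ⟨F'', h3, near_mono (near_of (H := F) (H' := F'') zero_le_two zero_le_two
      (fun j y => ?_) h2 h4) (by linarith)⟩
    have e : F j y - F'' j y = (F j y - F' j y) + (F' j y - F'' j y) := by ring
    rw [e]
    exact sq_add_le _ _⟩

omit [∀ j, Fintype (Y j)] in
/-- induction over a span -/
lemma span_ind {S : Set (Fm Y)} {P : Fm Y → Prop} (h0 : P fun _ _ => 0) (hS : ∀ F ∈ S, P F)
    (ha : ∀ F F', P F → P F' → P fun j y => F j y + F' j y)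
    (hm : ∀ (c : ℂ) F, P F → P fun j y => c * F j y) :
    ∀ F ∈ Submodule.span ℂ S, P F := by
  intro F hF
  induction hF using Submodule.span_induction with
  | mem x hx => exact hS x hx
  | zero => exact h0
  | add x y _ _ hx hy => exact ha x y hx hy
  | smul c x _ hx => exact hm c x hx

omit [∀ j, Fintype (Y j)] in
lemma sp_add {S : Set (Fm Y)} {F F' : Fm Y} (h : F ∈ Submodule.span ℂ S)
    (h' : F' ∈ Submodule.span ℂ S) : (fun j y => F j y + F' j y) ∈ Submodule.span ℂ S :=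
  Submodule.add_mem _ h h'

omit [∀ j, Fintype (Y j)] in
lemma sp_mul {S : Set (Fm Y)} (c : ℂ) {F : Fm Y} (h : F ∈ Submodule.span ℂ S) :
    (fun j y => c * F j y) ∈ Submodule.span ℂ S :=
  Submodule.smul_mem _ c h

omit [∀ j, Fintype (Y j)] in
lemma sp_zero (S : Set (Fm Y)) : (fun _ _ => 0 : Fm Y) ∈ Submodule.span ℂ S :=
  Submodule.zero_mem _

omit [∀ j, Fintype (Y j)] in
lemma span_bd (ua : UA) {S : Set (Fm Y)} (hS : ∀ F ∈ S, Bd F) :
    ∀ F ∈ Submodule.span ℂ S, Bd F :=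
  span_ind (ua.bd_const 0) hS (fun F F' => ua.bd_add F F')
    fun c F hF => ua.bd_mul _ F (ua.bd_const c) hF

omit [∀ j, Fintype (Y j)] in
lemma span_mul {S : Set (Fm Y)} (hS : Mul1 S) : ∀ F ∈ Submodule.span ℂ S,
    ∀ F' ∈ Submodule.span ℂ S, (fun j y => F j y * F' j y) ∈ Submodule.span ℂ S := by
  refine span_ind (fun F' _ => ?_) (fun F hF => ?_) (fun F G hF hG F' h' => ?_)
    fun c F hF F' h' => ?_
  · simpa only [zero_mul] using sp_zero S
  · refine span_ind ?_ (fun G hG => Submodule.subset_span (hS.mul F hF G hG))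
      (fun G G' h1 h2 => ?_) fun c G h1 => ?_
    · simpa only [mul_zero] using sp_zero S
    · simpa only [mul_add] using sp_add h1 h2
    · simpa only [mul_left_comm] using sp_mul c h1
  · simpa only [add_mul] using sp_add (hF F' h') (hG F' h')
  · simpa only [mul_assoc] using sp_mul c (hF F' h')

omit [∀ j, Fintype (Y j)] in
lemma span_cj {S : Set (Fm Y)} (hS : Mul1 S) : ∀ F ∈ Submodule.span ℂ S,
    (fun j y => conj (F j y)) ∈ Submodule.span ℂ S := by
  refine span_ind ?_ (fun F hF => Submodule.subset_span (hS.cj F hF)) (fun F G hF hG => ?_)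
    fun c F hF => ?_
  · simpa only [map_zero] using sp_zero S
  · simpa only [map_add] using sp_add hF hG
  · simpa only [map_mul] using sp_mul (conj c) hF

lemma mul_est (a a' b b' : ℂ) {C C' : ℝ} (hb : ‖b‖ ≤ C) (ha : ‖a'‖ ≤ C') :
    ‖a * b - a' * b'‖ ^ 2 ≤
      2 * (C ^ 2 + 1) * ‖a - a'‖ ^ 2 + 2 * (C' ^ 2 + 1) * ‖b - b'‖ ^ 2 := by
  have e : a * b - a' * b' = (a - a') * b + a' * (b - b') := by ring
  rw [e]
  refine (sq_add_le _ _).trans ?_
  rw [norm_mul, norm_mul, mul_pow, mul_pow]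
  have h1 : ‖b‖ ^ 2 ≤ C ^ 2 + 1 := (pow_le_pow_left₀ (norm_nonneg _) hb 2).trans (by linarith)
  have h2 : ‖a'‖ ^ 2 ≤ C' ^ 2 + 1 := (pow_le_pow_left₀ (norm_nonneg _) ha 2).trans (by linarith)
  have h3 := mul_le_mul_of_nonneg_left h1 (sq_nonneg ‖a - a'‖)
  have h4 := mul_le_mul_of_nonneg_right h2 (sq_nonneg ‖b - b'‖)
  nlinarith

lemma gen (ua : UA) (S : Set (Fm Y)) (hS : Mul1 S) : Alg (CS S) where
  bd F hF := hF.1
  const c := mem_cl (by
    simpa only [mul_one, SetLike.mem_coe] using sp_mul c (Submodule.subset_span hS.one))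
    (ua.bd_const c)
  add F hF G hG := ⟨ua.bd_add F G hF.1 hG.1, fun ε hε => by
    obtain ⟨F', h1, h2⟩ := hF.2 (ε / 4) (by positivity)
    obtain ⟨G', h3, h4⟩ := hG.2 (ε / 4) (by positivity)
    refine ⟨_, sp_add h1 h3, near_mono (near_of (H := fun j y => F j y + G j y)
      (H' := fun j y => F' j y + G' j y) zero_le_two zero_le_two (fun j y => ?_) h2 h4)
      (by linarith)⟩
    have e : F j y + G j y - (F' j y + G' j y) = (F j y - F' j y) + (G j y - G' j y) := by ring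
    rw [e]
    exact sq_add_le _ _⟩
  mul F hF G hG := ⟨ua.bd_mul F G hF.1 hG.1, fun ε hε => by
    obtain ⟨C, hC⟩ := hG.1
    obtain ⟨F', h1, h2⟩ := hF.2 (ε / (4 * (C ^ 2 + 1))) (by positivity)
    obtain ⟨C', hC'⟩ := span_bd ua hS.bd F' h1
    obtain ⟨G', h3, h4⟩ := hG.2 (ε / (4 * (C' ^ 2 + 1))) (by positivity)
    refine ⟨_, span_mul hS F' h1 G' h3, near_mono (near_of (H := fun j y => F j y * G j y)
      (H' := fun j y => F' j y * G' j y) (by positivity) (by positivity)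
      (fun j y => mul_est _ _ _ _ (hC j y) (hC' j y)) h2 h4) (le_of_eq ?_)⟩
    field_simp
    ring⟩
  cj F hF := ⟨ua.bd_cj F hF.1, fun ε hε => by
    obtain ⟨F', h1, h2⟩ := hF.2 ε hε
    refine ⟨_, span_cj hS F' h1, h2.mono fun j hj => ?_⟩
    simpa only [← map_sub, RCLike.norm_conj] using hj⟩
  cl := cl_cl _

lemma cmul {A : Set (Fm Y)} (hA : Alg A) (c : ℂ) {F : Fm Y} (hF : F ∈ A) :
    (fun j y => c * F j y) ∈ A :=
  hA.mul _ (hA.const c) F hF

lemma pull_cl {Y' : ℕ → Type} [∀ j, Fintype (Y' j)] (ua : UA) {π : ∀ j, Y' j → Y j}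
    {S : Set (Fm Y)} {A : Set (Fm Y')} (hπ : MP π) (hA : Alg A)
    (hS : ∀ F ∈ S, (fun j y => F j (π j y)) ∈ A) : ∀ F ∈ Cl S, (fun j y => F j (π j y)) ∈ A := by
  intro F hF
  refine hA.cl ⟨ua.bd_comp F π hF.1, fun ε hε => ?_⟩
  obtain ⟨F', h1, h2⟩ := hF.2 ε hε
  refine ⟨_, hS F' h1, h2.mono fun j hj => ?_⟩
  exact (ua.mp_real π hπ j fun y => ‖F j y - F' j y‖ ^ 2).trans_le hj

end UBx

open UBx in
theorem ub : UBR := fun ua =>
  { gen := fun S hS => gen ua S hS
    sub := fun S F hF hb => mem_cl (Submodule.subset_span hF) hb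
    min := fun S A hA hS => (cl_mono (span_ind (hA.const 0) hS
      (fun F F' h h' => hA.add F h F' h') fun c F h => cmul hA c h)).trans hA.cl
    nul := fun A F F' hA hb hF' hn => hA.cl ⟨hb, fun ε hε => ⟨F', hF', hn ε hε⟩⟩
    cmul := fun A c hA F hF => cmul hA c hF
    sum := by
      intro Y _ A ι s F hA h
      classical
      induction s using Finset.induction_on with
      | empty => simpa only [Finset.sum_empty] using hA.const 0
      | insert a s ha ih =>
        simpa only [Finset.sum_insert ha] using hA.add _ (h a (Finset.mem_insert_self a s)) _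
          (ih fun i hi => h i (Finset.mem_insert_of_mem hi))
    prod := by
      intro Y _ A ι s F hA h
      classical
      induction s using Finset.induction_on with
      | empty => simpa only [Finset.prod_empty] using hA.const 1
      | insert a s ha ih =>
        simpa only [Finset.prod_insert ha] using hA.mul _ (h a (Finset.mem_insert_self a s)) _
          (ih fun i hi => h i (Finset.mem_insert_of_mem hi))
    pull := fun π S A hπ hA hS => pull_cl ua hπ hA
      (span_ind (P := fun F => (fun j y => F j (π j y)) ∈ A) (hA.const 0) hS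
        (fun F F' h h' => hA.add _ h _ h') fun c F h => cmul hA c h)
    comap := fun π A hπ hA =>
      { bd := fun F hF => hF.1
        const := fun c => ⟨ua.bd_const c, hA.const c⟩
        add := fun F hF F' hF' => ⟨ua.bd_add F F' hF.1 hF'.1, hA.add _ hF.2 _ hF'.2⟩
        mul := fun F hF F' hF' => ⟨ua.bd_mul F F' hF.1 hF'.1, hA.mul _ hF.2 _ hF'.2⟩
        cj := fun F hF => ⟨ua.bd_cj F hF.1, hA.cj _ hF.2⟩
        cl := fun F hF => ⟨hF.1, pull_cl ua hπ hA (fun G hG => hG.2) F hF⟩ }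
    fin := by
      intro Y _ S F hF ε hε
      obtain ⟨F', h1, h2⟩ := hF.2 ε hε
      obtain ⟨n, c, g, rfl⟩ := Submodule.mem_span_set'.1 h1
      refine ⟨n, c, fun i => g i, fun i => (g i).2, h2.mono fun j hj => ?_⟩
      simpa only [Finset.sum_apply, Pi.smul_apply, smul_eq_mul] using hj }

end T3u

end
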