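import Pool.Agent.MP_154433_an.t3u.Spec

/-! Projections onto closed algebras of bounded families. -/

set_option autoImplicit false
set_option linter.unusedVariables false

open Filter Topology Function Finset
open scoped BigOperators ComplexConjugate
open Pool.Agent.MP_154433_an.T3S (B1 dd Q ip LG)

noncomputable section

namespace T3u

namespace UCx

open Pool.Agent.MP_154433_an

variable {Y : ℕ → Type} [∀ j, Fintype (Y j)]

/-- the limit of the mean squares -/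
def N (F : Fm Y) : ℝ := (I fun j y => F j y * conj (F j y)).re

lemma tq (ua : UA) {F : Fm Y} (h : Bd F) :
    Tendsto (fun j => 𝔼 y, ‖F j y‖ ^ 2) UU (𝓝 (N F)) := by
  refine ((Complex.continuous_re.tendsto _).comp
    (ua.tend _ (ua.bd_mul _ _ h (ua.bd_cj _ h)))).congr fun j => ?_
  simp only [comp, T3S.re_exp, Complex.mul_conj', ← Complex.ofReal_pow, Complex.ofReal_re]

/-- radial truncation -/
def clip (C : ℝ) (z : ℂ) : ℂ := (C / max ‖z‖ C) • z

lemma clip_cont {C : ℝ} (hC : 0 < C) : Continuous (clip C) :=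
  (continuous_const.div (continuous_norm.max continuous_const)
    fun _ => (lt_max_of_lt_right hC).ne').smul continuous_id

lemma norm_clip {C : ℝ} (hC : 0 < C) (z : ℂ) : ‖clip C z‖ ≤ C := by
  have h : 0 < max ‖z‖ C := lt_max_of_lt_right hC
  rw [clip, norm_smul, Real.norm_of_nonneg (by positivity), div_mul_eq_mul_div, div_le_iff₀ h]
  exact mul_le_mul_of_nonneg_left (le_max_left _ _) hC.le

lemma clip_sub {C : ℝ} (hC : 0 < C) (z : ℂ) {u : ℂ} (hu : ‖u‖ ≤ C) :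
    ‖u - clip C z‖ ^ 2 ≤ ‖u - z‖ ^ 2 := by
  rcases le_total ‖z‖ C with h | h
  · rw [clip, max_eq_right h, div_self hC.ne', one_smul]
  have h0 : 0 < ‖z‖ := hC.trans_le h
  rw [clip, max_eq_left h, norm_sub_sq_real, norm_sub_sq_real, real_inner_smul_right, norm_smul,
    Real.norm_of_nonneg (by positivity), div_mul_cancel₀ _ h0.ne']
  have h1 : inner ℝ u z ≤ C * ‖z‖ :=
    (real_inner_le_norm u z).trans (mul_le_mul_of_nonneg_right hu h0.le)
  have h2 : 0 ≤ 1 - C / ‖z‖ := sub_nonneg.2 ((div_le_one h0).2 h)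
  have h3 := mul_le_mul_of_nonneg_left h1 h2
  have h4 : (1 - C / ‖z‖) * (C * ‖z‖) = C * ‖z‖ - C ^ 2 := by field_simp
  nlinarith [sq_nonneg (‖z‖ - C)]

lemma para (u a b : ℂ) : ‖a - b‖ ^ 2 =
    2 * ‖u - a‖ ^ 2 + 2 * ‖u - b‖ ^ 2 - 4 * ‖u - 2⁻¹ * (a + b)‖ ^ 2 := by
  simp only [Complex.sq_norm, Complex.normSq_apply, Complex.sub_re, Complex.sub_im, Complex.mul_re,
    Complex.mul_im, Complex.add_re, Complex.add_im]
  norm_num
  ring

lemma tri (u a b : ℂ) {η : ℝ} (h : 0 < η) :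
    ‖u - b‖ ^ 2 ≤ (1 + η) * ‖u - a‖ ^ 2 + (1 + η⁻¹) * ‖b - a‖ ^ 2 := by
  have h1 : ‖u - b‖ ≤ ‖u - a‖ + ‖b - a‖ := by
    rw [norm_sub_rev b a]; exact norm_sub_le_norm_sub_add_norm_sub u a b
  have h2 := pow_le_pow_left₀ (norm_nonneg _) h1 2
  have h3 := mul_nonneg (inv_pos.2 h).le (sq_nonneg (η * ‖u - a‖ - ‖b - a‖))
  have h4 : η⁻¹ * (η * ‖u - a‖ - ‖b - a‖) ^ 2 =
      η * ‖u - a‖ ^ 2 - 2 * (‖u - a‖ * ‖b - a‖) + η⁻¹ * ‖b - a‖ ^ 2 := by field_simp; ring
  nlinarith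

lemma var (u l t c : ℂ) : ‖u - (l + t * conj c)‖ ^ 2 =
    ‖u - l‖ ^ 2 - 2 * (conj t * ((u - l) * c)).re + ‖t‖ ^ 2 * ‖c‖ ^ 2 := by
  simp only [Complex.sq_norm, Complex.normSq_apply, Complex.sub_re, Complex.sub_im, Complex.mul_re,
    Complex.mul_im, Complex.add_re, Complex.add_im, Complex.conj_re, Complex.conj_im]
  ring

/-- a minimiser exists -/
lemma mini (ua : UA) (ub : UB) (sat : SatS) (cfc : CfcS) {A : Set (Fm Y)} {F : Fm Y} (hA : Alg A)
    (hF : Bd F) : ∃ L ∈ A, ∀ c ∈ A, N (fun j y => F j y - L j y) ≤ N fun j y => F j y - c j y := by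
  obtain ⟨C, hC, hb⟩ : ∃ C : ℝ, 0 < C ∧ ∀ j y, ‖F j y‖ ≤ C :=
    hF.elim fun C h => ⟨max C 1, lt_max_of_lt_right one_pos, fun j y => (h j y).trans (le_max_left _ _)⟩
  have t : ∀ c ∈ A, Tendsto (fun j => 𝔼 y, ‖F j y - c j y‖ ^ 2) UU (𝓝 (N fun j y => F j y - c j y)) :=
    fun c hc => tq ua (ua.bd_sub _ _ hF (hA.bd c hc))
  set S : Set ℝ := (fun c : Fm Y => N fun j y => F j y - c j y) '' A
  have bd : BddBelow S := ⟨0, by
    rintro _ ⟨c, hc, rfl⟩
    exact ge_of_tendsto' (t c hc) fun j => expect_nonneg fun _ _ => sq_nonneg _⟩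
  have lo : ∀ c ∈ A, sInf S ≤ N fun j y => F j y - c j y := fun c hc => csInf_le bd ⟨c, hc, rfl⟩
  have ex : ∀ n : ℕ, ∃ c ∈ A, (∀ j y, ‖c j y‖ ≤ C) ∧
      N (fun j y => F j y - c j y) < sInf S + 1 / (n + 1 : ℝ) := fun n => by
    obtain ⟨_, ⟨c, hc, rfl⟩, h⟩ := Real.lt_sInf_add_pos (s := S) ⟨_, _, hA.const 0, rfl⟩
      (Nat.one_div_pos_of_nat (n := n))
    have m := cfc A (clip C) hA (clip_cont hC) c hc
    exact ⟨_, m, fun j y => norm_clip hC _, lt_of_le_of_lt (le_of_tendsto_of_tendsto' (t _ m) (t c hc)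
      fun j => expect_le_expect fun y _ => clip_sub hC _ (hb j y)) h⟩
  choose c c1 c2 c3 using ex
  have sm : ∀ ε : ℝ, 0 < ε → ∃ n0 : ℕ, ∀ n : ℕ, n0 ≤ n → 1 / (n + 1 : ℝ) ≤ ε := fun ε h =>
    (exists_nat_one_div_lt h).imp fun n0 h0 n hn => (Nat.one_div_le_one_div hn).trans h0.le
  obtain ⟨L, L1, L2⟩ := sat c C c2 fun ε hε => by
    obtain ⟨n0, h0⟩ := sm (ε / 4) (by positivity)
    refine ⟨n0, fun n n' hn hn' => ?_⟩
    have m := ub.cmul A 2⁻¹ hA _ (hA.add _ (c1 n) _ (c1 n'))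
    have l := (((t _ (c1 n)).const_mul 2).add ((t _ (c1 n')).const_mul 2)).sub ((t _ m).const_mul 4)
    filter_upwards [l.eventually_le_const (show _ < ε by
      linarith [c3 n, c3 n', h0 n hn, h0 n' hn', lo _ m])] with j hj
    rw [expect_congr rfl fun y _ => para (F j y) (c n j y) (c n' j y)]
    simpa only [expect_sub_distrib, expect_add_distrib, ← mul_expect] using hj
  have LA : L ∈ A := hA.cl ⟨⟨C, L1⟩, fun ε hε => (L2 ε hε).elim fun n h => ⟨c n, c1 n, h n le_rfl⟩⟩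
  refine ⟨L, LA, fun d hd => le_trans ?_ (lo d hd)⟩
  have key : ∀ η : ℝ, 0 < η → N (fun j y => F j y - L j y) ≤
      (1 + η) * (sInf S + η) + (η ^ 2 + η) := fun η hη => by
    obtain ⟨n0, h0⟩ := sm η hη
    obtain ⟨n1, h1⟩ := L2 (η ^ 2) (by positivity)
    have h2 := mul_le_mul_of_nonneg_left ((c3 (max n0 n1)).le.trans
      (add_le_add_right (h0 _ (le_max_left _ _)) _)) (show 0 ≤ 1 + η by positivity)
    refine le_trans (le_of_tendsto_of_tendsto (t L LA) (((t _ (c1 (max n0 n1))).const_mul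
      (1 + η)).add_const (η ^ 2 + η)) ?_) (by linarith)
    filter_upwards [h1 _ (le_max_right n0 n1)] with j hj
    refine (expect_le_expect fun y _ => tri _ (c (max n0 n1) j y) _ hη).trans ?_
    rw [expect_add_distrib, ← mul_expect, ← mul_expect]
    have := mul_le_mul_of_nonneg_left hj (show 0 ≤ 1 + η⁻¹ by positivity)
    rw [show (1 + η⁻¹) * η ^ 2 = η ^ 2 + η by field_simp] at this
    linarith
  have lim : Tendsto (fun η : ℝ => (1 + η) * (sInf S + η) + (η ^ 2 + η)) (𝓝[>] 0) (𝓝 (sInf S)) :=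
    (Continuous.tendsto' (by fun_prop) 0 _ (by simp)).mono_left nhdsWithin_le_nhds
  exact ge_of_tendsto lim (eventually_nhdsWithin_of_forall key)

lemma proj (ua : UA) (ub : UB) (sat : SatS) (cfc : CfcS) (A : Set (Fm Y)) (F : Fm Y) (hA : Alg A)
    (hF : Bd F) : ∃ F' ∈ A, Ort (fun j y => F j y - F' j y) A := by
  obtain ⟨L, LA, h⟩ := mini ua ub sat cfc hA hF
  refine ⟨L, LA, fun c hc => ?_⟩
  have b := ua.bd_sub _ _ hF (hA.bd L LA)
  have key : ∀ t : ℂ, 2 * (conj t * I fun j y => (F j y - L j y) * c j y).re ≤ ‖t‖ ^ 2 * N c := by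
    intro t
    have m := hA.add _ LA _ (ub.cmul A t hA _ (hA.cj c hc))
    have l := ((tq ua b).sub (((Complex.continuous_re.tendsto _).comp
      ((ua.tend _ (ua.bd_mul _ _ b (hA.bd c hc))).const_mul (conj t))).const_mul 2)).add
      ((tq ua (hA.bd c hc)).const_mul (‖t‖ ^ 2))
    have e := tendsto_nhds_unique (tq ua (ua.bd_sub _ _ hF (hA.bd _ m))) (l.congr fun j => by
      simp only [var, expect_sub_distrib, expect_add_distrib, ← mul_expect, comp, ← T3S.re_exp])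
    linarith [h _ m]
  generalize (I fun j y => (F j y - L j y) * c j y) = z at key
  have n0 : 0 ≤ N c :=
    ge_of_tendsto' (tq ua (hA.bd c hc)) fun j => expect_nonneg fun _ _ => sq_nonneg _
  have s0 : 0 < (N c + 1)⁻¹ := by positivity
  have k := key (((N c + 1)⁻¹ : ℝ) * z)
  rw [map_mul, Complex.conj_ofReal, mul_assoc, Complex.re_ofReal_mul, Complex.conj_mul',
    ← Complex.ofReal_pow, Complex.ofReal_re, norm_mul, Complex.norm_real,
    Real.norm_of_nonneg s0.le] at k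
  have s1 : (N c + 1)⁻¹ * N c ≤ 1 := by
    rw [inv_mul_le_iff₀ (by positivity)]; linarith
  have k2 := mul_le_mul_of_nonneg_left s1 (mul_nonneg s0.le (sq_nonneg ‖z‖))
  have k3 : (N c + 1)⁻¹ * ‖z‖ ^ 2 ≤ 0 := by nlinarith
  simpa using le_antisymm (nonpos_of_mul_nonpos_right k3 s0) (sq_nonneg _)

lemma dperp (ua : UA) (ub : UB) (sat : SatS) (cfc : CfcS) (A : Set (Fm Y)) (F : Fm Y) (hA : Alg A)
    (hF : Bd F) (h : ∀ r : Fm Y, Bd r → Ort r A → I (fun j y => F j y * r j y) = 0) : F ∈ A := by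
  obtain ⟨L, LA, o⟩ := proj ua ub sat cfc A F hA hF
  have b := ua.bd_sub _ _ hF (hA.bd L LA)
  have o' : Ort (fun j y => conj (F j y - L j y)) A := fun c hc => by
    have := ua.cj _ (ua.bd_mul _ _ b (hA.bd _ (hA.cj c hc)))
    rw [o _ (hA.cj c hc), map_zero] at this
    simpa only [map_mul, Complex.conj_conj] using this
  refine ub.nul A F L hA hF LA ((ua.nul_iff _ b).2 ?_)
  have := ua.sub _ _ (ua.bd_mul _ _ hF (ua.bd_cj _ b)) (ua.bd_mul _ _ (ua.bd_cj _ b) (hA.bd L LA))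
  rw [h _ (ua.bd_cj _ b) o', o' L LA, sub_zero] at this
  rw [← this]
  congr 1
  funext j y
  ring

end UCx

open Pool.Agent.MP_154433_an in
theorem uc : UCR := fun ua ub sat cfc =>
  ⟨UCx.proj ua ub sat cfc, UCx.dperp ua ub sat cfc, fun {Y R} _ _ _ A F hA hF h => by
    refine UCx.dperp ua ub sat cfc A _ hA (ua.bd_exp F hF) fun r br o => ua.eq_of _ _ ?_
    choose s _ hs using fun j => exists_max_image (univ : Finset (R j))
      (fun s => ‖𝔼 y, r j y * F j (y, s)‖) univ_nonempty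
    have l := (ua.tend _ (ua.bd_mul _ _ br (hA.bd _ (h s)))).norm
    rw [o _ (h s), norm_zero] at l
    refine squeeze_zero_norm (fun j => ?_) l
    simp only [expect_mul]
    rw [expect_comm]
    exact T3S.norm_exp_le_of (norm_nonneg _) fun t _ => by
      simpa only [mul_comm] using hs j t (mem_univ _)⟩

end T3u

end
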