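import Pool.Agent.MP_154433_an.t3u.Spec

/-! Row Uni: a function of rank one is a character times a structured function. -/

set_option autoImplicit false
set_option linter.unusedVariables false

open Filter Topology Function Finset
open scoped BigOperators ComplexConjugate
open Pool.Agent.MP_154433_an.T3S (B1 dd Q ip LG)

noncomputable section

namespace T3u

namespace Uni

theorem exp_le {Y : Type} [Fintype Y] (g : Y → ℝ) (c : ℝ) (hc : 0 ≤ c) (h : ∀ y, g y ≤ c) :
    𝔼 y, g y ≤ c := by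
  rcases isEmpty_or_nonempty Y with hY | hY
  · simpa using hc
  · exact Finset.expect_le Finset.univ_nonempty fun y _ => h y

theorem bd0 {Y : ℕ → Type} {F : Fm Y} (h : Bd F) : ∃ C : ℝ, 0 ≤ C ∧ ∀ j y, ‖F j y‖ ≤ C := by
  obtain ⟨C, hC⟩ := h
  exact ⟨max C 0, le_max_right _ _, fun j y => (hC j y).trans (le_max_left _ _)⟩

/-- a scalar factor that tends to one may be dropped -/
theorem scal (ub : UB) {Y : ℕ → Type} [∀ j, Fintype (Y j)] (A : Set (Fm Y)) (hA : Alg A)
    (F : Fm Y) (hF : Bd F) (a : ℕ → ℂ) (ha : Tendsto a UU (𝓝 1))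
    (h : (fun j y => a j * F j y) ∈ A) : F ∈ A := by
  refine ub.nul A F _ hA hF h ?_
  obtain ⟨C, hC0, hC⟩ := bd0 hF
  intro ε hε
  have h1 : Tendsto (fun j => (‖1 - a j‖ * C) ^ 2) UU (𝓝 0) := by
    have h2 : Tendsto (fun j => 1 - a j) UU (𝓝 0) := by
      simpa using (tendsto_const_nhds (x := (1 : ℂ))).sub ha
    simpa using (h2.norm.mul_const C).pow 2
  filter_upwards [h1.eventually (ge_mem_nhds hε)] with j hj
  refine exp_le _ _ hε.le fun y => le_trans ?_ hj
  have h3 : F j y - a j * F j y = (1 - a j) * F j y := by ring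
  rw [h3, norm_mul]
  exact pow_le_pow_left₀ (by positivity)
    (mul_le_mul_of_nonneg_left (hC j y) (norm_nonneg _)) 2

section

variable {G : ℕ → Type} [∀ j, AddCommGroup (G j)] [∀ j, Fintype (G j)]

theorem mp_sub (t : ∀ j, G j) : MP (Y := G) (Y' := G) fun j s => s - t j := by
  intro j φ
  exact Fintype.expect_equiv (Equiv.subRight (t j)) _ _ fun s => rfl

theorem mp_snd : MP (Y := G) (Y' := Pr G G) fun j z => z.2 := by
  intro j φ
  rw [← Finset.univ_product_univ, Finset.expect_product]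
  simp

theorem mp_fst_real (j : ℕ) (φ : G j → ℝ) : 𝔼 z : G j × G j, φ z.1 = 𝔼 x, φ x := by
  rw [← Finset.univ_product_univ, Finset.expect_product]
  simp

theorem mp_dif : MP (Y := G) (Y' := Pr G G) fun j z => z.2 - z.1 := by
  intro j φ
  rw [← Finset.univ_product_univ, Finset.expect_product]
  have h : ∀ s : G j, 𝔼 t : G j, φ (t - s) = 𝔼 t, φ t := fun s =>
    Fintype.expect_equiv (Equiv.subRight s) _ _ fun t => rfl
  simp [h]

theorem exp_shift (j : ℕ) (φ : G j → ℂ) (x : G j) : 𝔼 t : G j, φ (x + t) = 𝔼 t, φ t :=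
  Fintype.expect_equiv (Equiv.addLeft x) _ _ fun t => rfl

/-- the module of `u` -/
def M (k : ℕ) (u : Fm G) : Set (Fm G) := {w | Bd w ∧ tw (cj u) w ∈ FF G k G}

theorem mass (ua : UA) {k : ℕ} {u : Fm G} (hu : Good k u) :
    Tendsto (fun j => 𝔼 x, u j x * conj (u j x)) UU (𝓝 1) := by
  have h := ua.tend (fun j x => u j x * conj (u j x)) (ua.bd_mul _ _ hu.1 (ua.bd_cj _ hu.1))
  rwa [hu.2.1] at h

theorem m1 (ua : UA) (ub : UB) (fa : FA) {k : ℕ} {u : Fm G} (hu : Good k u) {w w' : Fm G}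
    (hw : w ∈ M k u) (hw' : w' ∈ M k u) : (fun j x => w j x * conj (w' j x)) ∈ F1 G k := by
  have hA := fa.alg G k G
  have h1 := fa.down k _ (hA.mul _ hw.2 _ (hA.cj _ hw'.2))
  refine scal ub _ (fa.alg1 G k) _ (ua.bd_mul _ _ hw.1 (ua.bd_cj _ hw'.1)) _ (mass ua hu) ?_
  have h2 : (fun j x => (𝔼 y, u j y * conj (u j y)) * (w j x * conj (w' j x))) =
      fun j x => 𝔼 p, tw (cj u) w j (x, p) * conj (tw (cj u) w' j (x, p)) := by
    funext j x
    rw [← exp_shift j (fun y => u j y * conj (u j y)) x, Finset.expect_mul]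
    refine Finset.expect_congr rfl fun p _ => ?_
    simp only [tw, cj, map_mul, Complex.conj_conj]
    ring
  rw [h2]
  exact h1

theorem shift (ua : UA) (fa : FA) {k : ℕ} {u w : Fm G} (hw : w ∈ M k u) (t : ∀ j, G j) :
    (fun j y => w j (y + t j)) ∈ M k u := by
  refine ⟨ua.bd_comp w (fun j y => y + t j) hw.1, ?_⟩
  have h := fa.pull k (P := G) (P' := G) (fun j _ => t j) (fun j s => s - t j) (mp_sub t) _ hw.2
  have h2 : tw (cj u) (fun j y => w j (y + t j)) =
      fun j z => tw (cj u) w j (z.1 + t j, z.2 - t j) := by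
    funext j z
    simp only [tw]
    congr 2
    abel
  rw [h2]
  exact h

theorem closed (ua : UA) (fa : FA) {k : ℕ} {u : Fm G} (hu : Good k u) : Cl (M k u) ⊆ M k u := by
  intro F hF
  refine ⟨hF.1, (fa.alg G k G).cl ⟨?_, fun ε hε => ?_⟩⟩
  · exact ua.bd_mul _ _ (ua.bd_comp (cj u) (fun j (z : G j × G j) => z.1 + z.2) (ua.bd_cj _ hu.1))
      (ua.bd_comp F (fun j (z : G j × G j) => z.1) hF.1)
  · obtain ⟨C, hC0, hC⟩ := bd0 hu.1
    have hp : 0 < C ^ 2 + 1 := by positivity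
    obtain ⟨F', hF', he⟩ := hF.2 (ε / (C ^ 2 + 1)) (by positivity)
    refine ⟨_, hF'.2, ?_⟩
    filter_upwards [he] with j hj
    have h1 : 𝔼 z : G j × G j, ‖tw (cj u) F j z - tw (cj u) F' j z‖ ^ 2 ≤
        𝔼 z : G j × G j, (C ^ 2 + 1) * ‖F j z.1 - F' j z.1‖ ^ 2 := by
      refine Finset.expect_le_expect fun z _ => ?_
      have h3 : tw (cj u) F j z - tw (cj u) F' j z =
          conj (u j (z.1 + z.2)) * (F j z.1 - F' j z.1) := by
        simp only [tw, cj]; ring
      rw [h3, norm_mul, mul_pow, Complex.norm_conj]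
      refine mul_le_mul_of_nonneg_right ?_ (by positivity)
      have h4 := pow_le_pow_left₀ (norm_nonneg _) (hC j (z.1 + z.2)) 2
      linarith
    refine h1.trans ?_
    rw [mp_fst_real j fun x => (C ^ 2 + 1) * ‖F j x - F' j x‖ ^ 2, ← Finset.mul_expect]
    calc (C ^ 2 + 1) * 𝔼 x, ‖F j x - F' j x‖ ^ 2 ≤ (C ^ 2 + 1) * (ε / (C ^ 2 + 1)) :=
          mul_le_mul_of_nonneg_left hj hp.le
      _ = ε := by field_simp

theorem add (ua : UA) (fa : FA) {k : ℕ} {u w w' : Fm G} (hw : w ∈ M k u) (hw' : w' ∈ M k u) :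
    (fun j y => w j y + w' j y) ∈ M k u := by
  refine ⟨ua.bd_add _ _ hw.1 hw'.1, ?_⟩
  have h := (fa.alg G k G).add _ hw.2 _ hw'.2
  have h2 : tw (cj u) (fun j y => w j y + w' j y) =
      fun j z => tw (cj u) w j z + tw (cj u) w' j z := by
    funext j z
    simp only [tw]
    ring
  rw [h2]
  exact h

theorem modu (ua : UA) (ub : UB) (cfc : CfcS) (fa : FA) {k : ℕ} {u w w' : Fm G} (hu : Good k u)
    (hw : w ∈ M k u) (hw' : w' ∈ M k u) (ψ : ℝ → ℝ) (hψ : Continuous ψ) :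
    (fun j y => (ψ ‖w j y‖ : ℂ) * w' j y) ∈ M k u := by
  have hc : Continuous fun z : ℂ => (ψ (Real.sqrt ‖z‖) : ℂ) :=
    Complex.continuous_ofReal.comp (hψ.comp (Real.continuous_sqrt.comp continuous_norm))
  have h1 := cfc _ _ (fa.alg1 G k) hc _ (m1 ua ub fa hu hw hw)
  have h2 : (fun j y => (ψ (Real.sqrt ‖w j y * conj (w j y)‖) : ℂ)) =
      fun j y => (ψ ‖w j y‖ : ℂ) := by
    funext j y
    rw [norm_mul, Complex.norm_conj, Real.sqrt_mul_self (norm_nonneg _)]
  rw [h2] at h1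
  refine ⟨ua.bd_mul _ _ ((fa.alg1 G k).bd _ h1) hw'.1, ?_⟩
  have h3 := fa.up k (P := G) (fun j _ => 0) _ h1
  have h := (fa.alg G k G).mul _ h3 _ hw'.2
  have h4 : tw (cj u) (fun j y => (ψ ‖w j y‖ : ℂ) * w' j y) =
      fun j z => (ψ ‖w j (z.1 + 0)‖ : ℂ) * tw (cj u) w' j z := by
    funext j z
    simp only [tw, add_zero]
    ring
  rw [h4]
  exact h

theorem two (ua : UA) (ub : UB) (fa : FA) {k : ℕ} {u φ : Fm G} (hu : Good k u) (hφ : φ ∈ M k u) :
    (fun j z => dd z.2 (φ j) z.1) ∈ FF G k G := by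
  have hA := fa.alg G k (Pr G G)
  have h1 := fa.pull k (P := G) (P' := Pr G G) (fun j z => z.1) (fun j z => z.2 - z.1) mp_dif _
    hφ.2
  have h2 := fa.pull k (P := G) (P' := Pr G G) (fun j z => 0) (fun j z => z.2) mp_snd _ hφ.2
  have h3 := fa.avg k (P := G) (R := G) _ (hA.mul _ h1 _ (hA.cj _ h2))
  refine scal ub _ (fa.alg G k G) _ ?_ _ (mass ua hu) ?_
  · exact ua.bd_mul _ _ (ua.bd_comp φ (fun j (z : G j × G j) => z.1 + z.2) hφ.1)
      (ua.bd_cj _ (ua.bd_comp φ (fun j (z : G j × G j) => z.1) hφ.1))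
  · have h4 : (fun j (z : G j × G j) => (𝔼 y, u j y * conj (u j y)) * dd z.2 (φ j) z.1) =
        fun j z => 𝔼 r, tw (cj u) φ j (z.1 + z.2, r - z.2) *
          conj (tw (cj u) φ j (z.1 + 0, r)) := by
      funext j z
      rw [← exp_shift j (fun y => u j y * conj (u j y)) z.1, Finset.expect_mul]
      refine Finset.expect_congr rfl fun r _ => ?_
      have h5 : z.1 + z.2 + (r - z.2) = z.1 + r := by abel
      simp only [tw, cj, dd, map_mul, Complex.conj_conj, add_zero, h5]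
      ring
    rw [h4]
    exact h3

end

end Uni

theorem uni : UniR := by
  intro ua ub cfc fa exh G _ _ k u hu
  have hM : u ∈ Uni.M k u := ⟨hu.1, hu.2.2⟩
  have hn : ¬ Nul u := by
    rw [ua.nul_iff u hu.1, hu.2.1]
    exact one_ne_zero
  obtain ⟨φ, hφ, hun⟩ := exh (Uni.M k u) (fun θ h => h.1) (Uni.closed ua fa hu)
    (fun θ h θ' h' => Uni.add ua fa h h') (fun θ h t => Uni.shift ua fa h t)
    (fun θ h θ' h' ψ hψ => Uni.modu ua ub cfc fa hu h h' ψ hψ) ⟨u, hM, hn⟩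
  refine ⟨φ, fun j x => u j x * conj (φ j x), ⟨hun, fun t => ?_, Uni.two ua ub fa hu hφ⟩,
    Uni.m1 ua ub fa hu hM hφ, fun j x => ?_⟩
  · exact Uni.m1 ua ub fa hu (Uni.shift ua fa hφ t) hφ
  · have h : φ j x * conj (φ j x) = 1 := by
      rw [Complex.mul_conj, Complex.normSq_eq_norm_sq, hun j x]
      simp
    calc u j x = u j x * (φ j x * conj (φ j x)) := by rw [h, mul_one]
      _ = φ j x * (u j x * conj (φ j x)) := by ring

end T3u

end
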