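import Pool.Agent.MP_154433_an.t3u.Spec

/-! Rows Vp and Ent: vertex products and the entropy step. -/

set_option autoImplicit false
set_option linter.unusedVariables false

open Filter Topology Function Finset
open scoped BigOperators ComplexConjugate

noncomputable section

namespace T3u

namespace Vp

theorem mul1 (ua : UA) {G : ℕ → Type} [∀ j, AddCommGroup (G j)] (n : ℕ) (A : Set (Fm G))
    (hA : Mul1 A) : Mul1 (VP G n A) where
  bd := by
    rintro F ⟨b, hb, rfl⟩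
    exact ua.bd_prod (Y := Pr G fun j => Fin n → G j) univ
      (fun ε j z => b ε j (z.1 + vx ε z.2)) fun ε _ =>
      ua.bd_comp (Y' := Pr G fun j => Fin n → G j) (b ε) (fun j z => z.1 + vx ε z.2)
        (hA.bd _ (hb ε))
  one := ⟨fun _ _ _ => 1, fun _ => hA.one, by funext j z; simp⟩
  mul := by
    rintro F ⟨b, hb, rfl⟩ F' ⟨b', hb', rfl⟩
    refine ⟨fun ε j x => b ε j x * b' ε j x, fun ε => hA.mul _ (hb ε) _ (hb' ε), ?_⟩
    funext j z
    simp only [Finset.prod_mul_distrib]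
  cj := by
    rintro F ⟨b, hb, rfl⟩
    refine ⟨fun ε j x => conj (b ε j x), fun ε => hA.cj _ (hb ε), ?_⟩
    funext j z
    simp only [map_prod]

theorem mp {G : ℕ → Type} [∀ j, AddCommGroup (G j)] [∀ j, Fintype (G j)] (n : ℕ)
    (ε : Fin n → Bool) :
    MP (Y := G) (Y' := Pr G fun j => Fin n → G j) fun j z => z.1 + vx ε z.2 := by
  intro j φ
  have h1 : 𝔼 z : G j × (Fin n → G j), φ (z.1 + vx ε z.2)
      = 𝔼 x : G j, 𝔼 τ : Fin n → G j, φ (x + vx ε τ) := by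
    rw [← Finset.univ_product_univ, Finset.expect_product]
  have h2 : ∀ τ : Fin n → G j, 𝔼 x : G j, φ (x + vx ε τ) = 𝔼 y, φ y := fun τ =>
    Fintype.expect_equiv (Equiv.addRight (vx ε τ)) _ _ fun x => rfl
  show 𝔼 z : G j × (Fin n → G j), φ (z.1 + vx ε z.2) = _
  rw [h1, Finset.expect_comm]
  simp only [h2]
  exact Finset.expect_const Finset.univ_nonempty _

theorem mono (ua : UA) (ub : UB) {G : ℕ → Type} [∀ j, AddCommGroup (G j)] [∀ j, Fintype (G j)]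
    (n : ℕ) (A S : Set (Fm G)) (hS : Mul1 S) (hA : A ⊆ CS S) :
    CS (VP G n A) ⊆ CS (VP G n S) := by
  classical
  have hm := mul1 ua n S hS
  have ha := ub.gen _ hm
  refine ub.min _ _ ha ?_
  rintro F ⟨b, hb, rfl⟩
  refine ub.prod (Y := Pr G fun j => Fin n → G j) _ univ (fun ε j z => b ε j (z.1 + vx ε z.2))
    ha fun ε _ => ?_
  refine ub.pull (Y := G) (Y' := Pr G fun j => Fin n → G j) (fun j z => z.1 + vx ε z.2) S _
    (mp n ε) ha (fun F hF => ?_) (b ε) (hA (hb ε))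
  have hmem : (fun j (z : Pr G (fun j => Fin n → G j) j) => F j (z.1 + vx ε z.2)) ∈ VP G n S := by
    refine ⟨fun ε' => if ε' = ε then F else fun _ _ => 1, fun ε' => ?_, ?_⟩
    · by_cases h : ε' = ε
      · simp only [h, if_true]; exact hF
      · simp only [h, if_false]; exact hS.one
    · funext j z
      rw [Finset.prod_eq_single ε]
      · simp
      · intro ε' _ h
        simp [h]
      · intro h
        exact absurd (Finset.mem_univ ε) h
  exact ub.sub _ _ hmem (hm.bd _ hmem)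

theorem nf (Γ : ℕ → Type) [∀ N, AddCommGroup (Γ N)] [∀ N, Fintype (Γ N)]
    (Net : ℕ → ∀ N : ℕ, Finset (Γ N → ℂ)) (hN : NetP Γ Net) (N : ℕ → ℕ) :
    Mul1 (NF Γ Net N) where
  bd := by
    rintro F ⟨m, hm⟩
    exact ⟨1, fun j y => (hN.un m _ _ (hm j) y).le⟩
  one := ⟨0, fun j => hN.one 0 _⟩
  mul := by
    rintro F ⟨m, hm⟩ F' ⟨m', hm'⟩
    exact ⟨max m m' + 1, fun j => hN.mul _ _ _ (hN.mono _ _ _ (le_max_left _ _) (hm j)) _
      (hN.mono _ _ _ (le_max_right _ _) (hm' j))⟩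
  cj := by
    rintro F ⟨m, hm⟩
    exact ⟨m + 1, fun j => hN.cj _ _ _ (hm j)⟩

theorem sq_le (a v z z0 : ℂ) (hv : ‖v‖ = 1) :
    ‖a - z0 * v‖ ^ 2 ≤ 2 * ‖a - z * v‖ ^ 2 + 2 * ‖z - z0‖ ^ 2 := by
  have h1 : a - z0 * v = (a - z * v) + (z - z0) * v := by ring
  have h2 : ‖a - z0 * v‖ ≤ ‖a - z * v‖ + ‖z - z0‖ := by
    rw [h1]
    refine (norm_add_le _ _).trans ?_
    rw [norm_mul, hv, mul_one]
  have h3 := norm_nonneg (a - z0 * v)
  nlinarith [sq_nonneg (‖a - z * v‖ - ‖z - z0‖), norm_nonneg (a - z * v), norm_nonneg (z - z0)]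

end Vp

theorem vp : VpR := fun ua ub =>
  ⟨fun n A hA => Vp.mul1 ua n A hA, fun n A S hS hA => Vp.mono ua ub n A S hS hA⟩

theorem ent : EntR := by
  intro ua ub Γ _ _ Net hN N
  refine ⟨Vp.nf Γ Net hN N, fun k φ θ hφ hθ hF => ⟨⟨1, fun j y => (hφ j y).le⟩, fun ε hε => ?_⟩⟩
  classical
  obtain ⟨C, hC, hrep⟩ := hN.rep k
  have hε' : 0 < ε / (4 * (C + 1)) := by positivity
  obtain ⟨n, c, g, hg, hev⟩ := ub.fin _ _ hF _ hε'
  choose b hb hgb using hg
  choose lv hlv using hb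
  obtain ⟨m', hm'⟩ := hrep n c (univ.sup fun p : Fin n × (Fin k → Bool) => lv p.1 p.2) _ hε'
  have key : ∀ j, ∃ v ∈ Net m' (N j), ∃ ζ : ℂ, ‖ζ‖ = 1 ∧
      ((𝔼 z : Γ (N j) × (Fin k → Γ (N j)), ‖conj (cp k (φ j) z.2 z.1) * θ j z.2 -
        ∑ i, c i * g i j z‖ ^ 2 ≤ ε / (4 * (C + 1))) →
        𝔼 x, ‖φ j x - ζ * v x‖ ^ 2 ≤ C * (ε / (4 * (C + 1)))) := by
    intro j
    by_cases h : 𝔼 z : Γ (N j) × (Fin k → Γ (N j)), ‖conj (cp k (φ j) z.2 z.1) * θ j z.2 -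
        ∑ i, c i * g i j z‖ ^ 2 ≤ ε / (4 * (C + 1))
    · obtain ⟨v, hv, ζ, hζ, hle⟩ := hm' (N j) (fun i e => b i e j) (φ j) (θ j)
        (fun i e => hN.mono _ _ _ (Finset.le_sup (f := fun p : Fin n × (Fin k → Bool) =>
          lv p.1 p.2) (Finset.mem_univ (i, e))) (hlv i e j)) (hφ j) (hθ j) (by
          simp only [hgb] at h
          exact h)
      exact ⟨v, hv, ζ, hζ, fun _ => hle⟩
    · exact ⟨fun _ => 1, hN.one _ _, 1, norm_one, fun h' => absurd h' h⟩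
  choose v hv ζ hζ hle using key
  obtain ⟨z0, -, hz⟩ := ua.seq ζ 1 fun j => (hζ j).le
  have hz2 : Tendsto (fun j => ‖ζ j - z0‖ ^ 2) UU (𝓝 0) := by
    have := (tendsto_iff_norm_sub_tendsto_zero.1 hz).pow 2
    simpa using this
  have hev2 : ∀ᶠ j in (UU : Filter ℕ), ‖ζ j - z0‖ ^ 2 ≤ ε / 4 :=
    hz2.eventually (eventually_le_nhds (by positivity))
  refine ⟨z0 • v, Submodule.smul_mem _ z0 (Submodule.subset_span ⟨m', hv⟩), ?_⟩
  filter_upwards [hev, hev2] with j h1 h2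
  have h3 := hle j h1
  have h4 : 𝔼 x, ‖φ j x - (z0 • v) j x‖ ^ 2
      ≤ 𝔼 x, (2 * ‖φ j x - ζ j * v j x‖ ^ 2 + 2 * ‖ζ j - z0‖ ^ 2) :=
    Finset.expect_le_expect fun x _ => Vp.sq_le _ _ _ _ (hN.un _ _ _ (hv j) x)
  rw [Finset.expect_add_distrib, ← Finset.mul_expect,
    Finset.expect_const Finset.univ_nonempty] at h4
  have h5 : C * (ε / (4 * (C + 1))) ≤ ε / 4 := by
    rw [← mul_div_assoc, div_le_div_iff₀ (by positivity) (by positivity)]
    nlinarith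
  linarith

end T3u

end
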