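import Pool.Agent.MP_154433_an.t3u.Sp
import Pool.Agent.MP_154433_an.t3u.P99
import Pool.Agent.MP_154433_an.t3u.Exh
import Pool.Agent.MP_154433_an.t3u.FA
import Pool.Agent.MP_154433_an.t3u.Net
import Pool.Agent.MP_154433_an.t3u.UC
import Pool.Agent.MP_154433_an.t3u.Typ
import Pool.Agent.MP_154433_an.t3u.Uni
import Pool.Agent.MP_154433_an.t3u.Stc
import Pool.Agent.MP_154433_an.t3u.Stb
import Pool.Agent.MP_154433_an.t3u.CO
import Pool.Agent.MP_154433_an.t3u.Ker
import Pool.Agent.MP_154433_an.t3u.Int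
import Pool.Agent.MP_154433_an.t3u.UA
import Pool.Agent.MP_154433_an.t3u.UB
import Pool.Agent.MP_154433_an.t3u.Sat
import Pool.Agent.MP_154433_an.t3u.SpA
import Pool.Agent.MP_154433_an.t3u.Ds
import Pool.Agent.MP_154433_an.t3u.Cp
import Pool.Agent.MP_154433_an.t3u.Eig
import Pool.Agent.MP_154433_an.t3u.Gap
import Pool.Agent.MP_154433_an.t3u.Sta
import Pool.Agent.MP_154433_an.t3u.Vp
import Pool.Agent.MP_154433_an.t3u.Po
import Pool.Agent.MP_154433_an.t3u.Cnt
import Pool.Agent.MP_154433_an.t3u.Rep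
import Pool.Agent.MP_154433_an.t3u.Ind
import Pool.Agent.MP_154433_an.t3u.Gr
import Pool.Agent.MP_154433_an.t3f.Plumb
import Pool.Agent.MP_154433_an.t3.DetX

/-! Assembly: the inverse theorem and the full range for powers of one map. -/

set_option autoImplicit false

namespace T3u

theorem invG : InvG :=
  invG_of ua ub sat cfc uc exh spA ds cpA fa co eig ker gap sp sta stb joint stc st uni typ vp po
    int sym p99 cnt rep net ent ind inv

theorem invZ : InvZ := cyc invG

theorem mainF : Pool.Agent.MP_154433_an.T3F.MainF :=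
  Pool.Agent.MP_154433_an.T3F.mainFull invZ T3x.detX.1

end T3u
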