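import Pool.Agent.MP_154433_an.t3u.Spec

/-! Integration of symmetric cocycles modulo constants, and symmetry of cocycles close to the
derivatives of one function. -/

set_option autoImplicit false
set_option linter.unusedVariables false

open Filter Topology Function Finset
open scoped BigOperators ComplexConjugate
open Pool.Agent.MP_154433_an.T3S (B1 dd Q ip LG)

noncomputable section

namespace T3u

namespace IntR

/-- a commuting family of operators has a joint eigenvector -/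
lemma joint {V ι : Type} [AddCommGroup V] [Module ℂ V] [FiniteDimensional ℂ V] [Nontrivial V]
    [Fintype ι] (T : ι → Module.End ℂ V) (hT : ∀ i j v, T i (T j v) = T j (T i v)) :
    ∃ v : V, v ≠ 0 ∧ ∀ i, ∃ μ : ℂ, T i v = μ • v := by
  classical
  have key : ∀ s : Finset ι, ∃ W : Submodule ℂ V, W ≠ ⊥ ∧ (∀ i, ∀ v ∈ W, T i v ∈ W) ∧
      ∀ i ∈ s, ∃ μ : ℂ, ∀ v ∈ W, T i v = μ • v := by
    intro s
    induction s using Finset.induction_on with
    | empty => exact ⟨⊤, top_ne_bot, fun _ _ _ => trivial, by simp⟩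
    | insert a s ha ih =>
      obtain ⟨W, h0, h1, h2⟩ := ih
      have : Nontrivial W := Submodule.nontrivial_iff_ne_bot.2 h0
      obtain ⟨μ, hμ⟩ := Module.End.exists_eigenvalue ((T a).restrict (h1 a))
      obtain ⟨v, hv⟩ := hμ.exists_hasEigenvector
      have hv1 : T a v = μ • (v : V) := congrArg Subtype.val hv.apply_eq_smul
      refine ⟨W ⊓ (T a).eigenspace μ, ?_, fun i u hu => ⟨h1 i u hu.1, ?_⟩, fun i hi => ?_⟩
      · refine (Submodule.ne_bot_iff _).2 ⟨v, ⟨v.2, Module.End.mem_eigenspace_iff.2 hv1⟩, ?_⟩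
        exact fun h => hv.2 (Subtype.ext h)
      · have := Module.End.mem_eigenspace_iff.1 hu.2
        exact Module.End.mem_eigenspace_iff.2 (by rw [hT, this, map_smul])
      · rcases Finset.mem_insert.1 hi with rfl | hi
        · exact ⟨μ, fun u hu => Module.End.mem_eigenspace_iff.1 hu.2⟩
        · obtain ⟨ν, hν⟩ := h2 i hi
          exact ⟨ν, fun u hu => hν u hu.1⟩
  obtain ⟨W, h0, -, h2⟩ := key univ
  obtain ⟨v, hv, hv0⟩ := (Submodule.ne_bot_iff _).1 h0
  exact ⟨v, hv0, fun i => (h2 i (mem_univ i)).imp fun μ h => h v hv⟩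

lemma mul_cj {z : ℂ} (h : ‖z‖ = 1) : z * conj z = 1 := by
  rw [Complex.mul_conj, Complex.normSq_eq_norm_sq, h]
  simp

lemma ne {z : ℂ} (h : ‖z‖ = 1) : z ≠ 0 := norm_ne_zero_iff.1 (by rw [h]; exact one_ne_zero)

variable {G : Type} [AddCommGroup G] [Fintype G]

/-- the twisted shift -/
def sh (w : G → G → ℂ) (g : G) : Module.End ℂ (G → ℂ) where
  toFun f := fun x => conj (w g x) * f (x + g)
  map_add' f f' := by
    funext x
    simp only [Pi.add_apply]
    ring
  map_smul' c f := by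
    funext x
    simp only [Pi.smul_apply, smul_eq_mul, RingHom.id_apply]
    ring

lemma prim (w : G → G → ℂ) (hw : ∀ g, Un (w g))
    (hs : ∀ g g' x, w g (x + g') * w g' x = w g' (x + g) * w g x) :
    ∃ p : G → ℂ, Un p ∧ ∀ g, ∃ c : ℂ, ‖c‖ = 1 ∧ ∀ x, dd g p x = c * w g x := by
  obtain ⟨v, hv, h⟩ := joint (sh w) fun g g' v => by
    funext x
    change conj (w g x) * (conj (w g' (x + g)) * v (x + g + g')) =
      conj (w g' x) * (conj (w g (x + g')) * v (x + g' + g))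
    have := congrArg conj (hs g g' x)
    simp only [map_mul] at this
    rw [add_right_comm x g' g]
    linear_combination (-v (x + g + g')) * this
  choose μ hμ using h
  have h1 : ∀ g x, v (x + g) = μ g * w g x * v x := fun g x => by
    have : conj (w g x) * v (x + g) = μ g * v x := congrFun (hμ g) x
    linear_combination w g x * this - v (x + g) * mul_cj (hw g x)
  have h2 : ∀ g x, ‖v (x + g)‖ = ‖μ g‖ * ‖v x‖ := fun g x => by
    rw [h1, norm_mul, norm_mul, hw g x, mul_one]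
  obtain ⟨x0, hx0⟩ := Function.ne_iff.1 hv
  have hpos : 0 < ∑ x, ‖v x‖ :=
    Finset.sum_pos' (fun _ _ => norm_nonneg _) ⟨x0, mem_univ _, norm_pos_iff.2 hx0⟩
  have h3 : ∀ g, ‖μ g‖ = 1 := fun g => by
    have e : ∑ x, ‖v (x + g)‖ = ∑ x, ‖v x‖ := Equiv.sum_comp (Equiv.addRight g) fun x => ‖v x‖
    simp only [h2, ← Finset.mul_sum] at e
    exact mul_right_cancel₀ hpos.ne' (by rw [e, one_mul])
  have h4 : ∀ x, ‖v x‖ = ‖v x0‖ := fun x => by
    have := h2 (x - x0) x0
    rwa [h3, one_mul, add_sub_cancel] at this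
  have h5 : ∀ x, ‖v x / v x0‖ = 1 := fun x => by
    rw [norm_div, h4 x, div_self (norm_ne_zero_iff.2 hx0)]
  refine ⟨fun x => v x / v x0, h5, fun g => ⟨μ g, h3 g, fun x => ?_⟩⟩
  have e : v (x + g) / v x0 = μ g * w g x * (v x / v x0) := by rw [h1, mul_div_assoc]
  change v (x + g) / v x0 * conj (v x / v x0) = _
  rw [e, mul_assoc, mul_cj (h5 x), mul_one]

lemma four {a b a' b' d e d' e' : ℂ} (hb : ‖b‖ = 1) (hb' : ‖b'‖ = 1) (hd : ‖d‖ = 1)
    (hd' : ‖d'‖ = 1) (h : d * e = d' * e') : ‖a * b - a' * b'‖ ^ 2 ≤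
      4 * (‖d - a‖ ^ 2 + ‖e - b‖ ^ 2 + ‖d' - a'‖ ^ 2 + ‖e' - b'‖ ^ 2) := by
  have e1 : a * b - a' * b' = -((d - a) * b) + -(d * (e - b)) + (d' - a') * b' + d' * (e' - b') := by
    linear_combination h
  have e2 : ‖a * b - a' * b'‖ ≤ ‖d - a‖ + ‖e - b‖ + ‖d' - a'‖ + ‖e' - b'‖ := by
    rw [e1]
    refine (norm_add_le _ _).trans (add_le_add ((norm_add_le _ _).trans (add_le_add
      ((norm_add_le _ _).trans (add_le_add ?_ ?_)) ?_)) ?_) <;>
    simp [hb, hb', hd, hd']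
  refine (pow_le_pow_left₀ (norm_nonneg _) e2 2).trans ?_
  nlinarith [sq_nonneg (‖d - a‖ - ‖e - b‖), sq_nonneg (‖d - a‖ - ‖d' - a'‖),
    sq_nonneg (‖d - a‖ - ‖e' - b'‖), sq_nonneg (‖e - b‖ - ‖d' - a'‖),
    sq_nonneg (‖e - b‖ - ‖e' - b'‖), sq_nonneg (‖d' - a'‖ - ‖e' - b'‖)]

end IntR

theorem int : IntR := by
  intro po k G _ _ w hw _ hs
  obtain ⟨p, hp, h⟩ := IntR.prim w (fun g => po.un k _ (hw g)) hs
  refine ⟨p, ⟨hp, fun g => ?_⟩, h⟩
  obtain ⟨c, hc, e⟩ := h g
  rw [funext e]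
  exact po.mul k _ _ (po.const k c hc) (hw g)

theorem sym : SymS := by
  intro G _ _ w φ hw hφ hc hε
  have hk : ∀ g g', ∃ κ : ℂ, ∀ x, w g (x + g') * w g' x = κ * (w g' (x + g) * w g x) := by
    intro g g'
    obtain ⟨c, h⟩ := hc g g'
    obtain ⟨c', h'⟩ := hc g' g
    have h0 : c ≠ 0 := fun e => IntR.ne (hw (g + g') 0) (by rw [h, e, zero_mul])
    refine ⟨c' / c, fun x => ?_⟩
    have := h x
    rw [add_comm g g', h'] at this
    field_simp
    linear_combination -this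
  choose κ hκ using hk
  have hd : ∀ g x, ‖dd g φ x‖ = 1 := fun g x => by
    simp only [dd, norm_mul, RCLike.norm_conj, hφ _, mul_one]
  have h1 : ∀ g g', ‖κ g g' - 1‖ ^ 2 ≤ 4 / 25 := fun g g' => by
    have e : ∀ x, ‖κ g g' - 1‖ ^ 2 ≤ 4 * (‖dd g φ (x + g') - w g (x + g')‖ ^ 2 +
        ‖dd g' φ x - w g' x‖ ^ 2 + ‖dd g' φ (x + g) - w g' (x + g)‖ ^ 2 +
        ‖dd g φ x - w g x‖ ^ 2) := fun x => by
      refine le_trans (le_of_eq ?_) (IntR.four (hw g' x) (hw g x) (hd _ _) (hd _ _) ?_)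
      · rw [hκ, ← sub_one_mul, norm_mul, norm_mul, hw, hw, mul_one, mul_one]
      · simp only [dd]
        rw [add_right_comm x g' g]
        linear_combination φ (x + g + g') * conj (φ x) * IntR.mul_cj (hφ (x + g')) -
          φ (x + g + g') * conj (φ x) * IntR.mul_cj (hφ (x + g))
    have e1 := Finset.le_expect (s := univ) Finset.univ_nonempty fun x _ => e x
    have s1 : ∀ a b : G, 𝔼 x, ‖dd a φ (x + b) - w a (x + b)‖ ^ 2 = 𝔼 x, ‖dd a φ x - w a x‖ ^ 2 :=
      fun a b => Fintype.expect_equiv (Equiv.addRight b) _ _ fun _ => rfl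
    rw [← Finset.mul_expect, Finset.expect_add_distrib, Finset.expect_add_distrib,
      Finset.expect_add_distrib, s1, s1] at e1
    linarith [hε g, hε g']
  have h2 : ∀ g g', κ (g + g) g' = κ g g' * κ g g' := fun g g' => by
    obtain ⟨c, h⟩ := hc g g
    have a1 := hκ (g + g) g' 0
    have a2 := hκ g g' 0
    have a3 := hκ g g' (0 + g)
    have a4 := h 0
    have a5 := h (0 + g')
    rw [add_right_comm 0 g' g] at a5
    rw [← add_assoc 0 g g] at a1
    refine mul_right_cancel₀ (mul_ne_zero (IntR.ne (hw g' (0 + g + g))) (IntR.ne (hw (g + g) 0))) ?_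
    rw [← a1, a5, a4]
    linear_combination c * w g (0 + g + g') * a2 + c * κ g g' * w g 0 * a3
  intro g g' x
  obtain ⟨m, -, hm⟩ := Finset.exists_max_image univ (fun a => ‖κ a g' - 1‖) Finset.univ_nonempty
  have h3 : ‖κ m g' - 1‖ ≤ 2 / 5 := by
    have := h1 m g'
    nlinarith [norm_nonneg (κ m g' - 1)]
  have h4 : ‖κ m g' - 1‖ * ‖κ m g' + 1‖ ≤ ‖κ m g' - 1‖ := by
    have := hm (m + m) (mem_univ _)
    rwa [h2, show κ m g' * κ m g' - 1 = (κ m g' - 1) * (κ m g' + 1) by ring, norm_mul] at this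
  have h5 : 2 ≤ ‖κ m g' + 1‖ + ‖κ m g' - 1‖ := by
    have := norm_sub_le (κ m g' + 1) (κ m g' - 1)
    rwa [show κ m g' + 1 - (κ m g' - 1) = 2 by ring, Complex.norm_two] at this
  have h6 : ‖κ g g' - 1‖ ≤ 0 := by
    have := hm g (mem_univ _)
    nlinarith [norm_nonneg (κ m g' - 1)]
  rw [hκ, sub_eq_zero.1 (norm_le_zero_iff.1 h6), one_mul]

end T3u

end
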