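import Pool.Agent.MP_154433_an.t3u.Spec

/-! Rows Rep, Inv, Cyc. -/

set_option autoImplicit false
set_option linter.unusedVariables false

open Filter Topology Function Finset
open scoped BigOperators ComplexConjugate
open Pool.Agent.MP_154433_an.T3S (B1 dd Q ip LG)

noncomputable section

namespace T3u

namespace Rep

open Pool.Agent.MP_154433_an

lemma mul_cj {z : ℂ} (h : ‖z‖ = 1) : z * conj z = 1 := by
  rw [Complex.mul_conj, Complex.normSq_eq_norm_sq, h]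
  simp

lemma sq_sub {a b : ℂ} (ha : ‖a‖ = 1) (hb : ‖b‖ = 1) : ‖a - b‖ ^ 2 = 2 - 2 * (a * conj b).re := by
  rw [← Complex.normSq_eq_norm_sq, Complex.normSq_sub, Complex.normSq_eq_norm_sq,
    Complex.normSq_eq_norm_sq, ha, hb]
  ring

lemma sq_tri (a b c : ℂ) : ‖a - b‖ ^ 2 ≤ 2 * ‖a - c‖ ^ 2 + 2 * ‖b - c‖ ^ 2 := by
  have h : ‖a - b‖ ≤ ‖a - c‖ + ‖b - c‖ := by
    have := norm_sub_le (a - c) (b - c)
    rwa [sub_sub_sub_cancel_right] at this
  nlinarith [norm_nonneg (a - b), sq_nonneg (‖a - c‖ - ‖b - c‖), norm_nonneg (a - c),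
    norm_nonneg (b - c)]

/-- one fibre -/
lemma fib {X : Type} [Fintype X] [Nonempty X] {u u' B : X → ℂ} {t t' : ℂ} (hu : Un u) (hu' : Un u')
    (ht : ‖t‖ = 1) (ht' : ‖t'‖ = 1) : 1 - ‖𝔼 x, u x * conj (u' x)‖ ^ 2 ≤
      𝔼 x, (2 * ‖conj (u x) * t - B x‖ ^ 2 + 2 * ‖conj (u' x) * t' - B x‖ ^ 2) := by
  have h1 : 𝔼 x, (2 - 2 * (conj (u x * conj (u' x)) * (t * conj t')).re) ≤
      𝔼 x, (2 * ‖conj (u x) * t - B x‖ ^ 2 + 2 * ‖conj (u' x) * t' - B x‖ ^ 2) := by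
    refine Finset.expect_le_expect fun x _ => le_trans (le_of_eq ?_) (sq_tri _ _ _)
    rw [sq_sub (by rw [norm_mul, Complex.norm_conj, hu x, ht, one_mul])
      (by rw [norm_mul, Complex.norm_conj, hu' x, ht', one_mul])]
    congr 3
    simp only [map_mul, Complex.conj_conj]
    ring
  rw [Finset.expect_sub_distrib, Fintype.expect_const, ← Finset.mul_expect, ← T3S.re_exp,
    ← Finset.expect_mul, ← T3S.conj_exp] at h1
  have h2 := Complex.re_le_norm (conj (𝔼 x, u x * conj (u' x)) * (t * conj t'))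
  rw [norm_mul, norm_mul, Complex.norm_conj, Complex.norm_conj, ht, ht', mul_one, mul_one] at h2
  nlinarith [sq_nonneg (‖𝔼 x, u x * conj (u' x)‖ - 1)]

lemma exp_prod {X Y : Type} [Fintype X] [Fintype Y] (f : X × Y → ℝ) :
    𝔼 z, f z = 𝔼 y, 𝔼 x, f (x, y) := by
  rw [← Finset.univ_product_univ, Finset.expect_product, Finset.expect_comm]

end Rep

theorem rep : RepR := by
  intro hc h99 k
  obtain ⟨C, hC, h⟩ := h99 k
  refine ⟨C * 4, by positivity, fun G _ _ φ φ' θ θ' B ε h1 h2 h3 h4 h5 h6 => ?_⟩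
  have hψ : Un fun y => φ y * conj (φ' y) := fun y => by
    rw [norm_mul, Complex.norm_conj, h1 y, h2 y, one_mul]
  have hQ : 1 - 4 * ε ≤ Q k fun y => φ y * conj (φ' y) := by
    have h7 := Finset.expect_le_expect (s := univ) fun (τ : Fin k → G) _ =>
      Rep.fib (B := fun x => B (x, τ)) (hc.un k φ h1 τ) (hc.un k φ' h2 τ) (h3 τ) (h4 τ)
    rw [Finset.expect_sub_distrib, Fintype.expect_const,
      ← Rep.exp_prod fun z : G × (Fin k → G) => 2 * ‖conj (cp k φ z.2 z.1) * θ z.2 - B z‖ ^ 2 +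
        2 * ‖conj (cp k φ' z.2 z.1) * θ' z.2 - B z‖ ^ 2, Finset.expect_add_distrib,
      ← Finset.mul_expect, ← Finset.mul_expect] at h7
    rw [hc.q]
    simp only [hc.div]
    linarith
  obtain ⟨p, hp, h8⟩ := h G _ _ hψ hQ
  refine ⟨p, hp, le_trans (le_of_eq (Finset.expect_congr rfl fun x _ => ?_))
    (h8.trans (le_of_eq (mul_assoc _ _ _).symm))⟩
  have e : φ x - φ' x * p x = φ' x * (φ x * conj (φ' x) - p x) := by
    linear_combination (-φ x) * Rep.mul_cj (h2 x)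
  rw [e, norm_mul, h2 x, one_mul]

theorem inv : InvR := by
  intro ua net ind d Γ _ _ hrk k δ hδ
  obtain ⟨Net, hN⟩ := net d Γ hrk
  by_contra hcon
  have key : ∀ m : ℕ, ∃ (N : ℕ) (f : Γ N → ℂ), B1 f ∧ δ ≤ Q k f ∧
      ∀ φ ∈ Net m N, ‖ip f φ‖ < 1 / ((m : ℝ) + 1) := fun m => by
    by_contra h
    obtain ⟨C, hC, hs⟩ := hN.size m
    refine hcon ⟨1 / ((m : ℝ) + 1), C, by positivity, hC, fun N =>
      ⟨Net m N, fun φ hφ x => (hN.un m N φ hφ x).le, hs N, fun f hf hq => ?_⟩⟩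
    by_contra h'
    exact h ⟨N, f, hf, hq, fun φ hφ => not_le.1 fun h2 => h' ⟨φ, hφ, h2⟩⟩
  choose N f hf hq hi using key
  have h1 := ind Γ Net hN N k f ⟨1, hf⟩ (by
    rintro c ⟨m, hm⟩
    refine ua.eq_of _ _ (Tendsto.mono_left ?_ ua.atTop)
    refine squeeze_zero_norm' ?_ tendsto_one_div_add_atTop_nhds_zero_nat
    filter_upwards [eventually_ge_atTop (m + 1)] with j hj
    have := hi j _ (hN.mono _ _ _ hj (hN.cj m _ _ (hm j)))
    simp only [ip, Complex.conj_conj] at this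
    exact this.le)
  exact absurd (ge_of_tendsto' h1 hq) (not_le.2 hδ)

theorem cyc : CycR := by
  intro h k δ hδ
  obtain ⟨c, C, hc, hC, h1⟩ := h 1 (fun N => ZMod (N + 1)) (fun N => ⟨fun _ => 1, by
    rw [Set.range_const, ← AddSubgroup.zmultiples_eq_closure, eq_top_iff]
    intro x _
    exact ⟨(x.val : ℤ), by simp⟩⟩) k δ hδ
  refine ⟨c, C, hc, hC, fun N _ => ?_⟩
  obtain ⟨n, rfl⟩ := Nat.exists_eq_succ_of_ne_zero (NeZero.ne N)
  exact h1 n

end T3u

end
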