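import Pool.Agent.MP_154433_an.t3u.Spec

/-! The finite dimensional spectral piece of a family with large uniformity norm. -/

set_option autoImplicit false
set_option linter.unusedVariables false

open Filter Topology Function Finset
open scoped BigOperators ComplexConjugate
open Pool.Agent.MP_154433_an.T3S (B1 dd Q ip LG norm_exp_le norm_exp_le_of conj_exp exp_le_of_le)

noncomputable section

namespace T3u

namespace SpX

section One

variable {G : Type} [AddCommGroup G] [Fintype G] {k : ℕ}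

lemma exp_add (F : G → ℂ) (a : G) : 𝔼 s, F s = 𝔼 s, F (a + s) :=
  (Fintype.expect_equiv (Equiv.addLeft a) _ _ fun p => rfl).symm

lemma exp_prod {A B : Type} [Fintype A] [Fintype B] (F : A × B → ℂ) :
    𝔼 p, F p = 𝔼 a, 𝔼 b, F (a, b) := by
  rw [← Finset.univ_product_univ, Finset.expect_product]

lemma nsq (z : ℂ) : ((‖z‖ ^ 2 : ℝ) : ℂ) = z * conj z := by
  rw [Complex.mul_conj, Complex.normSq_eq_norm_sq]

/-- the kernel in three variables -/
def Om (f' : G → ℂ) (ρ : G → (Fin k → G) → G → ℂ) (x s t : G) : ℂ :=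
  conj (f' (x + s + t)) * 𝔼 τ, ρ t τ x * conj (ρ t τ (x + s))

lemma Om_le (sa : SpA) {f' : G → ℂ} {ρ : G → (Fin k → G) → G → ℂ} (hf : B1 f')
    (hρ : ∀ t, Spl (ρ t)) (x s t : G) : ‖Om f' ρ x s t‖ ≤ 1 := by
  unfold Om
  rw [norm_mul, RCLike.norm_conj]
  refine mul_le_one₀ (hf _) (norm_nonneg _) (norm_exp_le_of zero_le_one fun τ _ => ?_)
  rw [norm_mul, RCLike.norm_conj]
  exact mul_le_one₀ (sa.b1 _ (hρ t) τ x) (norm_nonneg _) (sa.b1 _ (hρ t) τ _)

lemma ds1 (sa : SpA) {f' : G → ℂ} {ρ : G → (Fin k → G) → G → ℂ} (hf : B1 f')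
    (hρ : ∀ t, Spl (ρ t)) {g : G → ℂ} (hg : B1 g) (s : G) :
    (fun x => 𝔼 t, g (x + t) * Om f' ρ x s t) ∈ DS (k + 1) G := by
  have h := sa.dcons (fun y => g y * conj (f' (y + s)))
    (fun t τ x => ρ t τ x * conj (ρ t τ (x + s))) (hg.mul (hf.comp fun y => y + s).cj)
    fun t => sa.mul _ _ (hρ t) (sa.cj _ (sa.shift _ s (hρ t)))
  have e : (fun x => 𝔼 t, g (x + t) * Om f' ρ x s t) = fun x => 𝔼 t, 𝔼 τ,
      g (x + t) * conj (f' (x + t + s)) * (ρ t τ x * conj (ρ t τ (x + s))) := by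
    funext x
    refine Finset.expect_congr rfl fun t _ => ?_
    rw [← Finset.mul_expect, Om, add_right_comm x s t, mul_assoc]
  rw [e]
  exact h

lemma ds2 (sa : SpA) {f' : G → ℂ} {ρ : G → (Fin k → G) → G → ℂ} (hf : B1 f')
    (hρ : ∀ t, Spl (ρ t)) {g : G → ℂ} (hg : B1 g) (t : G) :
    (fun x => 𝔼 s, g (x + s) * Om f' ρ x s t) ∈ DS (k + 1) G := by
  have h := sa.dcons (fun y => g y * conj (f' (y + t)))
    (fun s τ x => ρ t τ x * conj (ρ t τ (x + s))) (hg.mul (hf.comp fun y => y + t).cj)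
    fun s => sa.mul _ _ (hρ t) (sa.cj _ (sa.shift _ s (hρ t)))
  have e : (fun x => 𝔼 s, g (x + s) * Om f' ρ x s t) = fun x => 𝔼 s, 𝔼 τ,
      g (x + s) * conj (f' (x + s + t)) * (ρ t τ x * conj (ρ t τ (x + s))) := by
    funext x
    refine Finset.expect_congr rfl fun s _ => ?_
    rw [← Finset.mul_expect, Om, mul_assoc]
  rw [e]
  exact h

/-- the data on one group -/
structure Pk [DecidableEq G] (k : ℕ) (f f' : G → ℂ) (ρ : G → (Fin k → G) → G → ℂ) (l : G → ℝ)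
    (e : G → G → ℂ) : Prop where
  hf : B1 f'
  hρ : ∀ t, Spl (ρ t)
  pos : ∀ i, 0 ≤ l i
  orth : ∀ i i', 𝔼 x, e i x * conj (e i' x) = if i = i' then 1 else 0
  ker : ∀ x s, ∑ i, (l i : ℂ) * (e i x * conj (e i (x + s))) =
    conj (𝔼 t, f' (x + t) * Om f' ρ x s t)
  q : Q (k + 1) f = ∑ i, l i * ‖𝔼 x, f x * conj (e i x)‖ ^ 2

omit [AddCommGroup G] in
lemma quad {T : Type} [Fintype T] (a : T → G → ℂ) (f : G → ℂ) (l : G → ℝ) (e : G → G → ℂ)
    (h : ∀ x y, 𝔼 t, conj (a t x) * a t y = ∑ i, (l i : ℂ) * (e i x * conj (e i y))) :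
    𝔼 t, ‖𝔼 x, f x * a t x‖ ^ 2 = ∑ i, l i * ‖𝔼 x, f x * conj (e i x)‖ ^ 2 := by
  apply Complex.ofReal_injective
  rw [Complex.ofReal_expect, Complex.ofReal_sum]
  have e1 : ∀ t, ((‖𝔼 x, f x * a t x‖ ^ 2 : ℝ) : ℂ) =
      𝔼 y, 𝔼 x, f y * conj (f x) * (conj (a t x) * a t y) := fun t => by
    rw [nsq, conj_exp, Finset.expect_mul_expect]
    refine Finset.expect_congr rfl fun y _ => Finset.expect_congr rfl fun x _ => ?_
    rw [map_mul]
    ring
  have e2 : ∀ i, ((l i * ‖𝔼 x, f x * conj (e i x)‖ ^ 2 : ℝ) : ℂ) =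
      𝔼 y, 𝔼 x, f y * conj (f x) * ((l i : ℂ) * (e i x * conj (e i y))) := fun i => by
    rw [Complex.ofReal_mul, nsq, conj_exp, Finset.expect_mul_expect, Finset.mul_expect]
    refine Finset.expect_congr rfl fun y _ => ?_
    rw [Finset.mul_expect]
    refine Finset.expect_congr rfl fun x _ => ?_
    rw [map_mul, Complex.conj_conj]
    ring
  simp only [e1, e2]
  rw [Finset.expect_comm, ← Finset.expect_sum_comm]
  refine Finset.expect_congr rfl fun y _ => ?_
  rw [Finset.expect_comm, ← Finset.expect_sum_comm]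
  refine Finset.expect_congr rfl fun x _ => ?_
  rw [← Finset.mul_expect, ← Finset.mul_sum, h]

lemma pk [DecidableEq G] (sa : SpA) (eig : EigS) (k : ℕ) (f : G → ℂ) (hf : B1 f) :
    ∃ f' ρ l e, Pk k f f' ρ l e := by
  obtain ⟨f', ρ, h1, h2, h3⟩ := sa.cube k f hf
  obtain ⟨l, e, h4, h5, h6⟩ := eig G (G × (Fin k → G)) fun p x => f' (x + p.1) * ρ p.1 p.2 x
  refine ⟨f', ρ, l, e, h1, h2, h4, h5, fun x s => ?_, ?_⟩
  · rw [← h6, exp_prod, conj_exp]
    refine Finset.expect_congr rfl fun t _ => ?_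
    simp only [Om, map_mul, conj_exp, Complex.conj_conj, Finset.mul_expect]
    refine Finset.expect_congr rfl fun τ _ => ?_
    ring
  · rw [h3, ← quad _ f l e h6, ← Finset.univ_product_univ, Finset.expect_product]

variable [DecidableEq G] {f f' : G → ℂ} {ρ : G → (Fin k → G) → G → ℂ} {l : G → ℝ}
  {e : G → G → ℂ}

lemma Pk.diag (sa : SpA) (h : Pk k f f' ρ l e) (x : G) : ∑ i, l i * ‖e i x‖ ^ 2 ≤ 1 := by
  have h1 := h.ker x 0
  have h2 : ((∑ i, l i * ‖e i x‖ ^ 2 : ℝ) : ℂ) = conj (𝔼 t, f' (x + t) * Om f' ρ x 0 t) := by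
    rw [← h1, Complex.ofReal_sum]
    refine Finset.sum_congr rfl fun i _ => ?_
    rw [Complex.ofReal_mul, nsq, add_zero]
  have h3 : ‖conj (𝔼 t, f' (x + t) * Om f' ρ x 0 t)‖ ≤ 1 := by
    rw [RCLike.norm_conj]
    refine norm_exp_le_of zero_le_one fun t _ => ?_
    rw [norm_mul]
    exact mul_le_one₀ (h.hf _) (norm_nonneg _) (Om_le sa h.hf h.hρ _ _ _)
  rw [← h2, Complex.norm_real, Real.norm_eq_abs] at h3
  exact (le_abs_self _).trans h3

lemma Pk.nrm (h : Pk k f f' ρ l e) (i : G) : 𝔼 x, ‖e i x‖ ^ 2 = 1 := by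
  apply Complex.ofReal_injective
  have h1 := h.orth i i
  rw [if_pos rfl] at h1
  rw [Complex.ofReal_expect, Complex.ofReal_one, ← h1]
  exact Finset.expect_congr rfl fun x _ => nsq _

lemma Pk.tr (sa : SpA) (h : Pk k f f' ρ l e) : ∑ i, l i ≤ 1 := by
  have h1 : ∑ i, l i = 𝔼 x, ∑ i, l i * ‖e i x‖ ^ 2 := by
    rw [Finset.expect_sum_comm]
    refine Finset.sum_congr rfl fun i _ => ?_
    rw [← Finset.mul_expect, h.nrm, mul_one]
  rw [h1]
  exact exp_le_of_le zero_le_one fun x _ => h.diag sa x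

lemma Pk.le_one (sa : SpA) (h : Pk k f f' ρ l e) (i : G) : l i ≤ 1 :=
  (Finset.single_le_sum (fun i _ => h.pos i) (Finset.mem_univ i)).trans (h.tr sa)

lemma Pk.bd (sa : SpA) (h : Pk k f f' ρ l e) {b : ℝ} (hb : 0 < b) {i : G} (hi : b ≤ l i) (x : G) :
    ‖e i x‖ ≤ 1 + b⁻¹ := by
  have h1 : l i * ‖e i x‖ ^ 2 ≤ 1 :=
    (Finset.single_le_sum (f := fun i => l i * ‖e i x‖ ^ 2)
      (fun i _ => mul_nonneg (h.pos i) (sq_nonneg _)) (Finset.mem_univ i)).trans (h.diag sa x)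
  have h2 : b * ‖e i x‖ ^ 2 ≤ 1 := (mul_le_mul_of_nonneg_right hi (sq_nonneg _)).trans h1
  have h3 : ‖e i x‖ ^ 2 ≤ b⁻¹ := by
    rw [← one_div, le_div_iff₀ hb, mul_comm]
    exact h2
  nlinarith [sq_nonneg (‖e i x‖ - 1), sq_nonneg ‖e i x‖]

lemma Pk.eigen (h : Pk k f f' ρ l e) (i x : G) :
    𝔼 s, 𝔼 t, conj (e i (x + s)) * f' (x + t) * Om f' ρ x s t = l i * conj (e i x) := by
  have e1 : ∀ s, 𝔼 t, conj (e i (x + s)) * f' (x + t) * Om f' ρ x s t =
      ∑ i', (l i' : ℂ) * conj (e i' x) * (e i' (x + s) * conj (e i (x + s))) := fun s => by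
    have h1 := congrArg conj (h.ker x s)
    rw [Complex.conj_conj, map_sum] at h1
    simp only [mul_assoc]
    rw [← Finset.mul_expect, ← h1, Finset.mul_sum]
    refine Finset.sum_congr rfl fun i' _ => ?_
    simp only [map_mul, Complex.conj_conj, Complex.conj_ofReal]
    ring
  simp only [e1]
  rw [Finset.expect_sum_comm]
  have e2 : ∀ i', 𝔼 s, (l i' : ℂ) * conj (e i' x) * (e i' (x + s) * conj (e i (x + s))) =
      if i' = i then (l i' : ℂ) * conj (e i' x) else 0 := fun i' => by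
    rw [← Finset.mul_expect, ← exp_add (fun y => e i' y * conj (e i y)) x, h.orth]
    split_ifs <;> simp
  simp only [e2]
  simp

lemma Pk.bessel (h : Pk k f f' ρ l e) (hf : B1 f) :
    ∑ i, ‖𝔼 x, f x * conj (e i x)‖ ^ 2 ≤ 1 := by
  set c : G → ℂ := fun i => 𝔼 x, f x * conj (e i x) with hc
  set S : ℝ := ∑ i, ‖c i‖ ^ 2 with hS
  set u : G → ℂ := fun x => ∑ i, c i * e i x with hu
  have hS' : (S : ℂ) = ∑ i, c i * conj (c i) := by
    rw [hS, Complex.ofReal_sum]
    exact Finset.sum_congr rfl fun i _ => nsq _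
  have h1 : 𝔼 x, f x * conj (u x) = S := by
    rw [hS']
    simp only [hu, map_sum, map_mul, Finset.mul_sum]
    rw [Finset.expect_sum_comm]
    refine Finset.sum_congr rfl fun i _ => ?_
    rw [hc, Finset.expect_mul]
    refine Finset.expect_congr rfl fun x _ => ?_
    ring
  have h2 : 𝔼 x, ‖u x‖ ^ 2 = S := by
    apply Complex.ofReal_injective
    rw [hS', Complex.ofReal_expect]
    simp only [nsq, hu, map_sum, map_mul, Finset.sum_mul_sum]
    rw [Finset.expect_sum_comm]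
    refine Finset.sum_congr rfl fun i _ => ?_
    rw [Finset.expect_sum_comm]
    have e2 : ∀ i', 𝔼 x, c i * e i x * (conj (c i') * conj (e i' x)) =
        if i = i' then c i * conj (c i') else 0 := fun i' => by
      have e3 : ∀ x, c i * e i x * (conj (c i') * conj (e i' x)) =
          c i * conj (c i') * (e i x * conj (e i' x)) := fun x => by ring
      simp only [e3]
      rw [← Finset.mul_expect, h.orth]
      split_ifs <;> simp
    simp only [e2]
    simp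
  have h3 : ‖𝔼 x, f x * conj (u x)‖ ≤ 𝔼 x, (1 / 2 + 1 / 2 * ‖u x‖ ^ 2) := by
    refine (norm_exp_le _ _).trans (Finset.expect_le_expect fun x _ => ?_)
    rw [norm_mul, RCLike.norm_conj]
    nlinarith [hf x, norm_nonneg (u x), norm_nonneg (f x), sq_nonneg (‖u x‖ - 1)]
  rw [h1, Finset.expect_add_distrib, ← Finset.mul_expect, h2, Fintype.expect_const,
    Complex.norm_real, Real.norm_eq_abs] at h3
  linarith [le_abs_self S]

/-- the good indices -/
def Gd {d : ℕ} (l : G → ℝ) (a b : ℝ) (ι : Fin d → G) : Prop :=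
  Injective ι ∧ (∀ i, b ≤ l i ↔ ∃ n, ι n = i) ∧ ∀ i, l i < a ∨ b ≤ l i

omit [AddCommGroup G] in
lemma Gd.sum {d : ℕ} {a b : ℝ} {ι : Fin d → G} (hg : Gd l a b ι) {M : Type} [AddCommMonoid M]
    (φ : G → M) : ∑ n, φ (ι n) = ∑ i, if b ≤ l i then φ i else 0 := by
  rw [← Finset.sum_filter, ← Finset.sum_image (s := Finset.univ) (g := ι) (f := φ)
    fun x _ y _ hxy => hg.1 hxy]
  refine Finset.sum_congr ?_ fun _ _ => rfl
  ext i
  simp [hg.2.1 i]

lemma Pk.cor (sa : SpA) (h : Pk k f f' ρ l e) (hf : B1 f) {d : ℕ} {a b : ℝ} {ι : Fin d → G}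
    (hg : Gd l a b ι) (ha : 0 ≤ a) :
    Q (k + 1) f ≤ a + ∑ n, ‖𝔼 x, f x * conj (e (ι n) x)‖ ^ 2 := by
  rw [h.q, hg.sum fun i => ‖𝔼 x, f x * conj (e i x)‖ ^ 2]
  have h1 : a * ∑ i, ‖𝔼 x, f x * conj (e i x)‖ ^ 2 ≤ a :=
    mul_le_of_le_one_right ha (h.bessel hf)
  refine le_trans ?_ (add_le_add h1 le_rfl)
  rw [Finset.mul_sum, ← Finset.sum_add_distrib]
  refine Finset.sum_le_sum fun i _ => ?_
  have h2 := sq_nonneg ‖𝔼 x, f x * conj (e i x)‖
  by_cases hi : b ≤ l i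
  · rw [if_pos hi]
    nlinarith [h.le_one sa i, mul_nonneg ha h2]
  · rw [if_neg hi, add_zero]
    exact mul_le_mul_of_nonneg_right ((hg.2.2 i).resolve_right hi).le h2

end One

/-- the cut-off -/
def cut (a b : ℝ) (y : ℝ) : ℝ := max 0 (min 1 ((y - a) / (b - a))) / max y a

lemma cut_cont {a b : ℝ} (ha : 0 < a) : Continuous (cut a b) := by
  unfold cut
  refine Continuous.div (by fun_prop) (by fun_prop) fun y => ?_
  exact (lt_of_lt_of_le ha (le_max_right y a)).ne'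

lemma cut_val {a b y : ℝ} (ha : 0 < a) (hab : a < b) (hy : y < a ∨ b ≤ y) :
    y * cut a b y = if b ≤ y then 1 else 0 := by
  have hd : 0 < b - a := sub_pos.2 hab
  unfold cut
  rcases hy with hy | hy
  · have h1 : (y - a) / (b - a) ≤ 0 := div_nonpos_of_nonpos_of_nonneg (by linarith) hd.le
    rw [if_neg (by linarith), max_eq_left ((min_le_right _ _).trans h1), zero_div, mul_zero]
  · have h1 : 1 ≤ (y - a) / (b - a) := by
      rw [le_div_iff₀ hd]
      linarith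
    rw [if_pos hy, min_eq_left h1, max_eq_right zero_le_one, max_eq_left (by linarith),
      mul_one_div_cancel (by linarith)]

section Fam

variable {G : ℕ → Type} [∀ j, AddCommGroup (G j)] [∀ j, Fintype (G j)]

/-- scaling a bounded family -/
lemma scale (ub : UB) (fa : FA) (k : ℕ) (W : ∀ j, G j → G j → G j → ℂ)
    (hW : ∀ j (g : G j → ℂ), B1 g → ∀ p, (fun x => 𝔼 t, g (x + t) * W j x p t) ∈ DS (k + 1) (G j))
    (g : Fm G) (hg : Bd g) : (fun j z => 𝔼 t, g j (z.1 + t) * W j z.1 z.2 t) ∈ FF G k G := by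
  obtain ⟨C, hC⟩ := hg
  have hC0 : 0 ≤ C := (norm_nonneg _).trans (hC 0 0)
  have hc : ((C + 1 : ℝ) : ℂ) ≠ 0 := by
    rw [Complex.ofReal_ne_zero]
    linarith
  have h1 : (fun j z => 𝔼 t, g j (z.1 + t) / ((C + 1 : ℝ) : ℂ) * W j z.1 z.2 t : Fm (Pr G G)) ∈
      FF G k G := by
    refine fa.mem k _ fun j p => hW j (fun y => g j y / ((C + 1 : ℝ) : ℂ)) (fun y => ?_) p
    rw [norm_div, Complex.norm_real, Real.norm_eq_abs, abs_of_nonneg (by linarith),
      div_le_one (by linarith)]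
    linarith [hC j y]
  have h2 := ub.cmul _ ((C + 1 : ℝ) : ℂ) (fa.alg G k G) _ h1
  have e : (fun j z => 𝔼 t, g j (z.1 + t) * W j z.1 z.2 t : Fm (Pr G G)) = fun j z =>
      ((C + 1 : ℝ) : ℂ) * 𝔼 t, g j (z.1 + t) / ((C + 1 : ℝ) : ℂ) * W j z.1 z.2 t := by
    funext j z
    rw [Finset.mul_expect]
    refine Finset.expect_congr rfl fun t _ => ?_
    field_simp
  rw [e]
  exact h2

lemma large {a : ℕ → ℝ} (h0 : ∀ j, 0 ≤ a j) (h : ¬ Tendsto a UU (𝓝 0)) :
    ∃ δ : ℝ, 0 < δ ∧ ∀ᶠ j in (UU : Filter ℕ), δ ≤ a j := by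
  rw [Metric.tendsto_nhds] at h
  obtain ⟨δ, hδ⟩ := not_forall.1 h
  obtain ⟨hδ0, hδ⟩ := Classical.not_imp.1 hδ
  refine ⟨δ, hδ0, (Ultrafilter.eventually_not.2 hδ).mono fun j hj => ?_⟩
  rw [Real.dist_eq, sub_zero, abs_of_nonneg (h0 j)] at hj
  exact not_lt.1 hj

end Fam

end SpX

open SpX in
theorem sp : SpR := by
  intro ua ub sa fa eig ker gap G _ _ k f hf hQ
  classical
  choose f' ρ l e hp using fun j => pk sa eig k (f j) (hf j)
  obtain ⟨δ, hδ, hl⟩ := large (fun j => Pool.Agent.MP_154433_an.T3S.Q_nonneg _ _) hQ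
  obtain ⟨d, a, b, ι, h1, h2, h3, hg⟩ := gap l (δ / 8) (by linarith) (fun j => (hp j).pos)
    fun j => (hp j).tr sa
  have ha : 0 < a := by linarith
  have hb : 0 < b := by linarith
  have hg' : ∀ᶠ j in (UU : Filter ℕ), Gd (l j) a b (ι j) := hg
  have hbf : Bd f' := ⟨1, fun j y => (hp j).hf y⟩
  set v : Fin d → Fm G := fun n j x => if b ≤ l j (ι j n) then e j (ι j n) x else 0 with hv
  have hve : ∀ j, Gd (l j) a b (ι j) → ∀ n, v n j = e j (ι j n) := fun j hj n => by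
    funext x
    exact if_pos ((hj.2.1 _).2 ⟨n, rfl⟩)
  have hvb : ∀ n j x, ‖v n j x‖ ≤ 1 + b⁻¹ := fun n j x => by
    by_cases hi : b ≤ l j (ι j n)
    · simp only [hv, if_pos hi]
      exact (hp j).bd sa hb hi x
    · simp only [hv, if_neg hi, norm_zero]
      positivity
  have hbd : ∀ n, Bd (v n) := fun n => ⟨_, hvb n⟩
  have k1 := scale ub fa k (fun j => Om (f' j) (ρ j))
    fun j g hg p => ds1 sa (hp j).hf (hp j).hρ hg p
  have k2 := scale ub fa k (fun j x t s => Om (f' j) (ρ j) x s t)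
    fun j g hg p => ds2 sa (hp j).hf (hp j).hρ hg p
  refine ⟨d, v, fun j => Om (f' j) (ρ j), hbd, hg'.mono fun j hj n n' => ?_, ?_, ?_,
    fun j => Om_le sa (hp j).hf (hp j).hρ, k1, k2, fun n => ?_⟩
  · rw [hve j hj, hve j hj, (hp j).orth]
    simp only [hj.1.eq_iff]
  · have hK : (fun j z => ∑ i, (l j i : ℂ) * (e j i z.1 * conj (e j i (z.1 + z.2))) :
        Fm (Pr G G)) ∈ FF G k G := by
      have h4 := (fa.alg G k G).cj _ (k1 f' hbf)
      simp only [← (hp _).ker] at h4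
      exact h4
    have h5 := ker k l e (fun j => (hp j).pos) (fun j => (hp j).orth) (fun j => (hp j).diag sa) hK
      (cut a b) (cut_cont ha)
    refine ub.nul _ _ _ (fa.alg G k G) ?_ h5 fun ε hε => hg'.mono fun j hj => ?_
    · exact ua.bd_sum _ (fun n => fun j (z : Pr G G j) =>
        v n j z.1 * conj (v n j (z.1 + z.2))) fun n _ =>
        ua.bd_mul _ _ (ua.bd_comp (v n) (fun j (z : Pr G G j) => z.1) (hbd n))
          (ua.bd_cj _ (ua.bd_comp (v n) (fun j (z : Pr G G j) => z.1 + z.2) (hbd n)))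
    · refine exp_le_of_le hε.le fun z _ => ?_
      have h6 : ∑ n, v n j z.1 * conj (v n j (z.1 + z.2)) = ∑ i,
          ((l j i * cut a b (l j i) : ℝ) : ℂ) * (e j i z.1 * conj (e j i (z.1 + z.2))) := by
        simp only [hve j hj]
        rw [hj.sum fun i => e j i z.1 * conj (e j i (z.1 + z.2))]
        refine Finset.sum_congr rfl fun i _ => ?_
        rw [cut_val ha h2 (hj.2.2 i)]
        split_ifs <;> simp
      simp only [h6, sub_self, norm_zero]
      simpa using hε.le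
  · by_contra hc
    have hc' : ∀ n, I (fun j x => f j x * conj (v n j x)) = 0 := fun n =>
      not_not.1 fun hn => hc ⟨n, hn⟩
    have h4 : ∀ n, Tendsto (fun j => ‖𝔼 x, f j x * conj (v n j x)‖ ^ 2) UU (𝓝 0) := fun n => by
      have h5 := ua.tend (fun j x => f j x * conj (v n j x))
        (ua.bd_mul _ _ ⟨1, hf⟩ (ua.bd_cj _ (hbd n)))
      rw [hc' n] at h5
      simpa using h5.norm.pow 2
    have h5 : Tendsto (fun j => ∑ n, ‖𝔼 x, f j x * conj (v n j x)‖ ^ 2) UU (𝓝 0) := by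
      simpa using tendsto_finsetSum Finset.univ fun n _ => h4 n
    obtain ⟨j, hj1, hj2, hj3⟩ :=
      (hl.and (hg'.and (h5.eventually (gt_mem_nhds (half_pos hδ))))).exists
    have h6 := (hp j).cor sa (hf j) hj2 ha.le
    simp only [hve j hj2] at hj3
    linarith
  · refine ⟨fun j y => conj (v n j y) / max (l j (ι j n)) b, f', ⟨(1 + b⁻¹) / b, fun j y => ?_⟩,
      hbf, hg'.mono fun j hj x => ?_⟩
    · have h4 : b ≤ max (l j (ι j n)) b := le_max_right _ _
      rw [norm_div, RCLike.norm_conj, Complex.norm_real, Real.norm_eq_abs,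
        abs_of_nonneg (by linarith)]
      exact div_le_div₀ (by positivity) (hvb n j y) hb h4
    · have h4 : b ≤ l j (ι j n) := (hj.2.1 _).2 ⟨n, rfl⟩
      have h5 : (l j (ι j n) : ℂ) ≠ 0 := by
        rw [Complex.ofReal_ne_zero]
        linarith
      have h6 := (hp j).eigen (ι j n) x
      simp only [hve j hj, max_eq_left h4, div_mul_eq_mul_div, ← Finset.expect_div]
      rw [h6]
      field_simp

end T3u

end
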